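import Pool.Agent.Lib.MP_21a058_co.SlackTwoL
import Pool.Agent.Lib.MP_21a058_co.OnePart

/-! Odd sum: from two classes to all tuples. -/

set_option autoImplicit false

namespace Pool.Agent.Lib.MP_21a058_co.Odd

open Finset Pool.Agent.Lib.MP_21a058_co

/-- A part 1 or 2. -/
theorem small_part (k r : ℕ) (ks : Fin r → ℕ) (i j : Fin r) (hij : i ≠ j) (hi : 1 ≤ ks i)
    (hi2 : ks i ≤ 2) (hj : 1 ≤ ks j) (h : Arrow k ks) : ∑ l, ks l + 2 ≤ k := by
  classical
  rcases Nat.lt_or_ge (ks i) 2 with h1 | h1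
  · exact OnePart.one_part k r ks i (by omega) ⟨j, hij.symm, hj⟩ h
  · have h2 : ks i = 2 := by omega
    rcases Nat.lt_or_ge (ks j) 2 with h3 | h3
    · exact OnePart.one_part k r ks j (by omega) ⟨i, hij, hi⟩ h
    · refine SlackTwoL.slack_two k r ks {i} ?_ ?_ h
      · rw [sum_singleton, h2]
      · refine h3.trans (single_le_sum (f := ks) (fun _ _ => Nat.zero_le _) ?_)
        rw [mem_compl, mem_singleton]
        exact hij.symm

/-- One part against the rest: what is left if the two-class statement holds up to `(l, l + 1)` with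
`l` even. -/
theorem single_bad (r : ℕ) (ks : Fin r → ℕ)
    (cut : ∀ (K : ℕ) (J : Finset (Fin r)), 2 ≤ ∑ l ∈ J, ks l →
      ∑ l ∈ J, ks l < ∑ l ∈ Jᶜ, ks l → ∑ l ∈ J, ks l + ∑ l ∈ Jᶜ, ks l + 1 = 2 * K →
      (Odd (∑ l ∈ J, ks l) ∨ ∑ l ∈ J, ks l + 3 ≤ ∑ l ∈ Jᶜ, ks l) → ¬ Arrow (2 * K) ks)
    (K : ℕ) (hK : ∑ l, ks l + 1 = 2 * K) (hA : Arrow (2 * K) ks) (l : Fin r) (h2 : 2 ≤ ks l)
    (h3 : ks l + 2 ≤ ∑ l, ks l) :
    (Even (ks l) ∧ 2 * ks l + 1 = ∑ l, ks l) ∨ 2 * ks l = ∑ l, ks l + 1 := by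
  classical
  have e1 : ∑ m ∈ ({l} : Finset (Fin r)), ks m = ks l := sum_singleton _ _
  have e2 := sum_add_sum_compl ({l} : Finset (Fin r)) ks
  rw [e1] at e2
  set y : ℕ := ∑ m ∈ ({l} : Finset (Fin r))ᶜ, ks m with hy
  rcases Nat.lt_or_ge (ks l) y with h | h
  · left
    have h4 := cut K {l} (by rw [e1]; exact h2) (by rw [e1]; exact h)
      (by rw [e1, ← hy]; omega)
    rw [e1, ← hy] at h4
    by_contra hcon
    refine h4 ?_ hA
    by_cases h5 : Even (ks l)
    · right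
      have h6 : 2 * ks l + 1 ≠ ∑ l, ks l := fun h7 => hcon ⟨h5, h7⟩
      omega
    · exact Or.inl (Nat.not_even_iff_odd.1 h5)
  · right
    have e3 : ∑ m ∈ (({l} : Finset (Fin r))ᶜ)ᶜ, ks m = ks l := by rw [compl_compl, e1]
    have hne : y ≠ ks l := by omega
    have h4 := cut K ({l} : Finset (Fin r))ᶜ (by rw [← hy]; omega) (by rw [← hy, e3]; omega)
      (by rw [← hy, e3]; omega)
    rw [e3, ← hy] at h4
    by_contra hcon
    exact h4 (Or.inr (by omega)) hA

/-- All tuples with an odd sum, up to two parts `l`, `l + 1` with `l` even. -/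
theorem odd_group (r : ℕ) (ks : Fin r → ℕ)
    (cut : ∀ (K : ℕ) (J : Finset (Fin r)), 2 ≤ ∑ l ∈ J, ks l →
      ∑ l ∈ J, ks l < ∑ l ∈ Jᶜ, ks l → ∑ l ∈ J, ks l + ∑ l ∈ Jᶜ, ks l + 1 = 2 * K →
      (Odd (∑ l ∈ J, ks l) ∨ ∑ l ∈ J, ks l + 3 ≤ ∑ l ∈ Jᶜ, ks l) → ¬ Arrow (2 * K) ks)
    (k : ℕ) (i j : Fin r) (hij : i ≠ j) (hi : 1 ≤ ks i) (hj : 1 ≤ ks j)
    (hodd : Odd (∑ l, ks l))
    (hex : ∀ a b, a ≠ b → 4 ≤ ks a → Even (ks a) → ks b = ks a + 1 →
      ∃ c, c ≠ a ∧ c ≠ b ∧ ks c ≠ 0)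
    (h : Arrow k ks) : ∑ l, ks l + 2 ≤ k := by
  classical
  have hother : ∀ l, ∃ m, m ≠ l ∧ 1 ≤ ks m := by
    intro l
    by_cases hli : l = i
    · exact ⟨j, fun hjl => hij (hjl.trans hli).symm, hj⟩
    · exact ⟨i, fun hil => hli hil.symm, hi⟩
  by_cases hsm : ∃ l, 1 ≤ ks l ∧ ks l ≤ 2
  · obtain ⟨l, h1, h2⟩ := hsm
    obtain ⟨m, hml, hm⟩ := hother l
    exact small_part k r ks l m hml.symm h1 h2 hm h
  · push Not at hsm
    have hge : ∀ l, 1 ≤ ks l → 3 ≤ ks l := fun l hl => hsm l hl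
    by_contra hlt
    push Not at hlt
    obtain ⟨K', hK'⟩ := hodd
    have hK : ∑ l, ks l + 1 = 2 * (K' + 1) := by omega
    have hA : Arrow (2 * (K' + 1)) ks := arrow_mono (by omega) h
    have hpair : ∀ a b : Fin r, a ≠ b → ks a + ks b ≤ ∑ l, ks l := by
      intro a b hab
      have := sum_le_sum_of_subset (f := ks) (subset_univ ({a, b} : Finset (Fin r)))
      rwa [sum_pair hab] at this
    have hbad : ∀ l, 1 ≤ ks l →
        (Even (ks l) ∧ 2 * ks l + 1 = ∑ l, ks l) ∨ 2 * ks l = ∑ l, ks l + 1 := by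
      intro l hl
      obtain ⟨m, hml, hm⟩ := hother l
      have h1 := hge l hl
      have h2 := hge m hm
      have h3 := hpair l m hml.symm
      exact single_bad r ks cut _ hK hA l (by omega) (by omega)
    -- no third part
    have hthird : ∀ c, c ≠ i → c ≠ j → ks c = 0 := by
      intro c hci hcj
      by_contra hc
      have hc1 : 1 ≤ ks c := Nat.one_le_iff_ne_zero.2 hc
      have h1 := hbad i hi
      have h2 := hbad j hj
      have h3 := hbad c hc1
      have h4 := hge c hc1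
      have h5 : ks i + ks j + ks c ≤ ∑ l, ks l := by
        have := sum_le_sum_of_subset (f := ks) (subset_univ ({c, i, j} : Finset (Fin r)))
        rw [sum_insert (by simp [hci, hcj]), sum_pair hij] at this
        omega
      omega
    have hsum : ∑ l, ks l = ks i + ks j := by
      rw [← sum_pair hij]
      refine (sum_subset (subset_univ _) fun c _ hc => ?_).symm
      rw [mem_insert, mem_singleton] at hc
      push Not at hc
      exact hthird c hc.1 hc.2
    have g1 := hge i hi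
    have g2 := hge j hj
    rcases hbad i hi with ⟨h1, h2⟩ | h1
    · have h3 : ks j = ks i + 1 := by omega
      have h4 : 4 ≤ ks i := by
        rcases h1 with ⟨t, ht⟩
        omega
      obtain ⟨c, hc1, hc2, hc3⟩ := hex i j hij h4 h1 h3
      exact hc3 (hthird c hc1 hc2)
    · rcases hbad j hj with ⟨h3, h4⟩ | h3
      · have h5 : ks i = ks j + 1 := by omega
        have h6 : 4 ≤ ks j := by
          rcases h3 with ⟨t, ht⟩
          omega
        obtain ⟨c, hc1, hc2, hc3⟩ := hex j i hij.symm h6 h3 h5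
        exact hc3 (hthird c hc2 hc1)
      · omega

/-- All tuples with an odd sum, if the two-class statement holds without exception. -/
theorem odd_group_all (r : ℕ) (ks : Fin r → ℕ)
    (cut : ∀ (K : ℕ) (J : Finset (Fin r)), 3 ≤ ∑ l ∈ J, ks l →
      ∑ l ∈ J, ks l < ∑ l ∈ Jᶜ, ks l → ∑ l ∈ J, ks l + ∑ l ∈ Jᶜ, ks l + 1 = 2 * K →
      ¬ Arrow (2 * K) ks)
    (k : ℕ) (i j : Fin r) (hij : i ≠ j) (hi : 1 ≤ ks i) (hj : 1 ≤ ks j)
    (hodd : Odd (∑ l, ks l)) (h : Arrow k ks) : ∑ l, ks l + 2 ≤ k := by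
  classical
  rcases Nat.lt_or_ge 2 (ks i) with hi3 | hi3
  · rcases Nat.lt_or_ge 2 (ks j) with hj3 | hj3
    · by_contra hlt
      push Not at hlt
      obtain ⟨K', hK'⟩ := hodd
      have hA : Arrow (2 * (K' + 1)) ks := arrow_mono (by omega) h
      have e1 : ∑ m ∈ ({i} : Finset (Fin r)), ks m = ks i := sum_singleton _ _
      have e2 := sum_add_sum_compl ({i} : Finset (Fin r)) ks
      have e3 : ∑ m ∈ (({i} : Finset (Fin r))ᶜ)ᶜ, ks m = ks i := by rw [compl_compl, e1]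
      have e4 : ks j ≤ ∑ m ∈ ({i} : Finset (Fin r))ᶜ, ks m :=
        single_le_sum (f := ks) (fun _ _ => Nat.zero_le _)
          (by rw [mem_compl, mem_singleton]; exact hij.symm)
      rw [e1] at e2
      set y : ℕ := ∑ m ∈ ({i} : Finset (Fin r))ᶜ, ks m with hy
      rcases Nat.lt_or_ge (ks i) y with h1 | h1
      · exact cut (K' + 1) {i} (by rw [e1]; omega) (by rw [e1]; exact h1)
          (by rw [e1, ← hy]; omega) hA
      · exact cut (K' + 1) ({i} : Finset (Fin r))ᶜ (by rw [← hy]; omega)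
          (by rw [← hy, e3]; omega) (by rw [← hy, e3]; omega) hA
    · exact small_part k r ks j i hij.symm hj hj3 hi h
  · exact small_part k r ks i j hij hi hi3 hj h

end Pool.Agent.Lib.MP_21a058_co.Odd
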