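import Pool.Agent.Lib.MP_21a058_co.Odd.Final
import Pool.Agent.Lib.MP_21a058_co.Odd.Group

/-! Odd sum, all tuples up to two positive parts `l`, `l + 1` with `l ≥ 4` even. -/

set_option autoImplicit false

namespace Pool.Agent.Lib.MP_21a058_co.Odd

open Finset Pool.Agent.Lib.MP_21a058_co

theorem odd_all (k r : ℕ) (ks : Fin r → ℕ) (i j : Fin r) (hij : i ≠ j) (hi : 1 ≤ ks i)
    (hj : 1 ≤ ks j) (hodd : Odd (∑ l, ks l))
    (hex : ∀ a b, a ≠ b → 4 ≤ ks a → Even (ks a) → ks b = ks a + 1 →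
      ∃ c, c ≠ a ∧ c ≠ b ∧ ks c ≠ 0)
    (h : Arrow k ks) : ∑ l, ks l + 2 ≤ k :=
  odd_group r ks (fun _ J h2 hlt hK hc => odd_cut h2 hlt hK hc ks J rfl rfl) k i j hij hi hj
    hodd hex h

end Pool.Agent.Lib.MP_21a058_co.Odd
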