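import Mathlib

/-! Windows in the middle case: `|2p - L| ≤ 2`. -/

namespace Pool.Agent.Lib.MP_21a058_co.Odd

open Finset

theorem bnd (K m : ℕ) (hK : K = 2 * m + 1) (W : ℕ → ℕ → Prop)
    (base : ∀ L p, L ≤ K → p ≤ L → (m + 2 ≤ p ∨ K - m + 1 ≤ L - p) → W L p)
    (r2 : ∀ L p i j, L + i ≤ K → L + j ≤ K → i + j ≤ K → p ≤ L →
      (∀ a b, a ≤ i → b ≤ j → W (L+i) (p+a) ∨ W (L+j) (p+b) ∨ W (i+j) (a+b)) → W L p) :
    ∀ L p, L ≤ K → p ≤ L → ¬ W L p → 2 * p ≤ L + 2 ∧ L ≤ 2 * p + 2 := by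
  classical
  have hwK : ∀ p, p ≤ K → ¬ W K p → p = m ∨ p = m + 1 := by
    intro p hp hW
    by_contra hcon
    push Not at hcon
    refine hW (base K p le_rfl hp ?_)
    omega
  have hA : ∀ L p, 2 * L ≤ K → p ≤ L → ¬ W L p → ∃ a b, a ≤ K - L ∧ b ≤ L ∧
      ¬ W K (p + a) ∧ ¬ W (2 * L) (p + b) ∧ ¬ W K (a + b) := by
    intro L p hL hp hW
    by_contra hcon
    push Not at hcon
    refine hW (r2 L p (K - L) L (by omega) (by omega) (by omega) hp fun a b ha hb => ?_)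
    have e1 : L + (K - L) = K := by omega
    have e2 : L + L = 2 * L := by omega
    have e3 : K - L + L = K := by omega
    rw [e1, e2, e3]
    by_cases h1 : W K (p + a)
    · exact Or.inl h1
    · by_cases h2 : W (2 * L) (p + b)
      · exact Or.inr (Or.inl h2)
      · exact Or.inr (Or.inr (hcon a b ha hb h1 h2))
  have hB : ∀ L p, K ≤ 2 * L → L ≤ K → p ≤ L → ¬ W L p → ∃ a b, a ≤ K - L ∧ b ≤ K - L ∧
      ¬ W K (p + a) ∧ ¬ W K (p + b) ∧ ¬ W (2 * K - 2 * L) (a + b) := by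
    intro L p hL hL2 hp hW
    by_contra hcon
    push Not at hcon
    refine hW (r2 L p (K - L) (K - L) (by omega) (by omega) (by omega) hp fun a b ha hb => ?_)
    have e1 : L + (K - L) = K := by omega
    have e3 : K - L + (K - L) = 2 * K - 2 * L := by omega
    rw [e1, e3]
    by_cases h1 : W K (p + a)
    · exact Or.inl h1
    · by_cases h2 : W K (p + b)
      · exact Or.inr (Or.inl h2)
      · exact Or.inr (Or.inr (hcon a b ha hb h1 h2))
  set D : ℕ × ℕ → ℤ := fun q => 2 * (q.2 : ℤ) - q.1 with hD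
  have hstep : ∀ L p, L ≤ K → p ≤ L → ¬ W L p →
      ∃ L' p', L' ≤ K ∧ p' ≤ L' ∧ ¬ W L' p' ∧ 2 * |D (L, p)| ≤ 2 + |D (L', p')| := by
    intro L p hL hp hW
    rcases Nat.lt_or_ge K (2 * L) with h | h
    · obtain ⟨a, b, ha, hb, h1, h2, h3⟩ := hB L p h.le hL hp hW
      have d1 := hwK _ (by omega) h1
      have d2 := hwK _ (by omega) h2
      refine ⟨2 * K - 2 * L, a + b, by omega, by omega, h3, ?_⟩
      simp only [hD]
      push_cast [Nat.cast_sub (show 2 * L ≤ 2 * K by omega)]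
      rcases abs_cases (2 * (p : ℤ) - L) with ⟨e1, e2⟩ | ⟨e1, e2⟩ <;>
      rcases abs_cases (2 * ((a : ℤ) + b) - (2 * K - 2 * L)) with ⟨e3, e4⟩ | ⟨e3, e4⟩ <;>
      rw [e1, e3] <;> omega
    · obtain ⟨a, b, ha, hb, h1, h2, h3⟩ := hA L p h hp hW
      have d1 := hwK _ (by omega) h1
      have d3 := hwK _ (by omega) h3
      refine ⟨2 * L, p + b, h, by omega, h2, ?_⟩
      simp only [hD]
      push_cast
      rcases abs_cases (2 * (p : ℤ) - L) with ⟨e1, e2⟩ | ⟨e1, e2⟩ <;>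
      rcases abs_cases (2 * ((p : ℤ) + b) - (2 * L)) with ⟨e3, e4⟩ | ⟨e3, e4⟩ <;>
      rw [e1, e3] <;> omega
  set S : Finset (ℕ × ℕ) := ((range (K + 1)) ×ˢ (range (K + 1))).filter
    (fun q => q.2 ≤ q.1 ∧ ¬ W q.1 q.2) with hS
  have hmem : ∀ L p, L ≤ K → p ≤ L → ¬ W L p → (L, p) ∈ S := by
    intro L p h1 h2 h3
    rw [hS, mem_filter, mem_product, mem_range, mem_range]
    exact ⟨⟨by simp only; omega, by simp only; omega⟩, h2, h3⟩
  intro L p hL hp hW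
  have hne : S.Nonempty := ⟨_, hmem L p hL hp hW⟩
  obtain ⟨⟨L1, p1⟩, hm1, hmax⟩ := exists_max_image S (fun q => |D q|) hne
  rw [hS, mem_filter, mem_product, mem_range, mem_range] at hm1
  simp only at hm1
  have u1 := hmax _ (hmem L p hL hp hW)
  obtain ⟨L', p', a1, a2, a3, a4⟩ := hstep L1 p1 (by omega) hm1.2.1 hm1.2.2
  have u2 := hmax _ (hmem _ _ a1 a2 a3)
  have u3 : |D (L, p)| ≤ 2 := by linarith
  have u4 := abs_le.mp u3
  simp only [hD] at u4
  omega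

end Pool.Agent.Lib.MP_21a058_co.Odd
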