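import Mathlib

/-! Killable sets of colourings of the root bundle (odd sums). -/

namespace Pool.Agent.Lib.MP_21a058_co.Odd

/-- number of red elements of a colouring -/
noncomputable def red {I : Type} (x : I → Bool) : ℕ := Nat.card {i // x i = true}

/-- `Kill K l I A`: some splitting structure over the root bundle `I` has no good colouring
whose restriction to `I` lies in `A`. -/
inductive Kill (K l : ℕ) : (I : Type) → Set (I → Bool) → Prop
  | leaf (I : Type) (A : Set (I → Bool)) (h : ∀ x ∈ A, red x ≠ l ∧ red x ≠ l + 1) : Kill K l I A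
  | node (I J1 J2 : Type) (h1 : Nat.card J1 = K) (h2 : Nat.card J2 = K) (e : I ≃ J1 ⊕ J2)
      (A1 : Set (J1 ⊕ Fin K → Bool)) (A2 : Set (J2 ⊕ Fin K → Bool)) (A : Set (I → Bool))
      (k1 : Kill K l (J1 ⊕ Fin K) A1) (k2 : Kill K l (J2 ⊕ Fin K) A2)
      (h : ∀ x ∈ A, (red x ≠ l ∧ red x ≠ l + 1) ∨ ∀ n : Fin K → Bool,
        Sum.elim (fun j => x (e.symm (Sum.inl j))) n ∈ A1 ∨
        Sum.elim (fun j => x (e.symm (Sum.inr j))) n ∈ A2) : Kill K l I A

/-- `p` red edges among `L` edges which stay alive are refutable. -/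
def W (K l L p : ℕ) : Prop :=
  ∀ (F R : Type) [Finite F] [Finite R], Nat.card F = L → Nat.card F + Nat.card R = 2 * K →
    ∀ T : Set (F → Bool), Kill K l (F ⊕ R) {x | (fun f => x (Sum.inl f)) ∈ T} →
      Kill K l (F ⊕ R) {x | (fun f => x (Sum.inl f)) ∈ T ∨ red (fun f => x (Sum.inl f)) = p}

/-! ### `red` -/

theorem red_sum {I J : Type} [Finite I] [Finite J] (x : I ⊕ J → Bool) :
    red x = red (fun i => x (Sum.inl i)) + red (fun j => x (Sum.inr j)) := by
  unfold red
  rw [← Nat.card_sum]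
  exact Nat.card_congr
    { toFun := fun p => match p with
        | ⟨Sum.inl i, h⟩ => Sum.inl ⟨i, h⟩
        | ⟨Sum.inr j, h⟩ => Sum.inr ⟨j, h⟩
      invFun := fun p => match p with
        | Sum.inl q => ⟨Sum.inl q.1, q.2⟩
        | Sum.inr q => ⟨Sum.inr q.1, q.2⟩
      left_inv := by rintro ⟨i | j, h⟩ <;> rfl
      right_inv := by rintro (⟨i, h⟩ | ⟨j, h⟩) <;> rfl }

theorem red_equiv {I J : Type} (e : I ≃ J) (x : J → Bool) : red (fun i => x (e i)) = red x := by
  unfold red
  exact Nat.card_congr (e.subtypeEquiv fun _ => Iff.rfl)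

theorem red_le {I : Type} [Finite I] (x : I → Bool) : red x ≤ Nat.card I :=
  Nat.card_le_card_of_injective (fun p : {i // x i = true} => p.1) Subtype.val_injective

/-! ### transport -/

theorem Kill.mono {K l : ℕ} {I : Type} {A A' : Set (I → Bool)} (h : Kill K l I A)
    (hA : A' ⊆ A) : Kill K l I A' := by
  cases h with
  | leaf _ _ h => exact Kill.leaf I A' fun x hx => h x (hA hx)
  | node _ J1 J2 h1 h2 e A1 A2 _ k1 k2 h =>
    exact Kill.node I J1 J2 h1 h2 e A1 A2 A' k1 k2 fun x hx => h x (hA hx)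

theorem Kill.transport {K l : ℕ} {I J : Type} {A : Set (I → Bool)} (h : Kill K l I A)
    (e : I ≃ J) : Kill K l J {y | (fun i => y (e i)) ∈ A} := by
  cases h with
  | leaf _ _ h =>
    refine Kill.leaf J _ fun y hy => ?_
    have := h _ hy
    rwa [red_equiv e y] at this
  | node _ J1 J2 h1 h2 e' A1 A2 _ k1 k2 h =>
    refine Kill.node J J1 J2 h1 h2 (e.symm.trans e') A1 A2 _ k1 k2 fun y hy => ?_
    have := h _ hy
    rw [red_equiv e y] at this
    exact this

theorem Kill.empty (K l : ℕ) (I : Type) : Kill K l I ∅ :=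
  Kill.leaf I ∅ fun x hx => absurd hx (Set.notMem_empty x)

end Pool.Agent.Lib.MP_21a058_co.Odd
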