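import Mathlib

namespace Pool.Agent.Lib.MP_21a058_co.Odd

open Finset

/-- windows and the tent map, the middle case -/
theorem arith_mid (K m : ℕ) (hm : 1 ≤ m) (hK : K = 2 * m + 1) (W : ℕ → ℕ → Prop)
    (base : ∀ L p, L ≤ K → p ≤ L → (m + 2 ≤ p ∨ K - m + 1 ≤ L - p) → W L p)
    (r2 : ∀ L p i j, L + i ≤ K → L + j ≤ K → i + j ≤ K → p ≤ L →
      (∀ a b, a ≤ i → b ≤ j → W (L+i) (p+a) ∨ W (L+j) (p+b) ∨ W (i+j) (a+b)) → W L p)
    (mid : (2 ≤ m → W (K - 2) (m - 2)) → W 2 2) : W 0 0 := by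
  classical
  -- windows at K
  have hwK : ∀ p, p ≤ K → ¬ W K p → p = m ∨ p = m + 1 := by
    intro p hp hW
    by_contra hcon
    push Not at hcon
    refine hW (base K p le_rfl hp ?_)
    omega
  -- (A)
  have hA : ∀ L p, 2 * L ≤ K → p ≤ L → ¬ W L p → ∃ a b, a ≤ K - L ∧ b ≤ L ∧
      ¬ W K (p + a) ∧ ¬ W (2 * L) (p + b) ∧ ¬ W K (a + b) := by
    intro L p hL hp hW
    by_contra hcon
    push Not at hcon
    refine hW (r2 L p (K - L) L (by omega) (by omega) (by omega) hp fun a b ha hb => ?_)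
    have e1 : L + (K - L) = K := by omega
    have e2 : L + L = 2 * L := by omega
    have e3 : K - L + L = K := by omega
    rw [e1, e2, e3]
    by_cases h1 : W K (p + a)
    · exact Or.inl h1
    · by_cases h2 : W (2 * L) (p + b)
      · exact Or.inr (Or.inl h2)
      · exact Or.inr (Or.inr (hcon a b ha hb h1 h2))
  -- (B)
  have hB : ∀ L p, K ≤ 2 * L → L ≤ K → p ≤ L → ¬ W L p → ∃ a b, a ≤ K - L ∧ b ≤ K - L ∧
      ¬ W K (p + a) ∧ ¬ W K (p + b) ∧ ¬ W (2 * K - 2 * L) (a + b) := by
    intro L p hL hL2 hp hW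
    by_contra hcon
    push Not at hcon
    refine hW (r2 L p (K - L) (K - L) (by omega) (by omega) (by omega) hp fun a b ha hb => ?_)
    have e1 : L + (K - L) = K := by omega
    have e3 : K - L + (K - L) = 2 * K - 2 * L := by omega
    rw [e1, e3]
    by_cases h1 : W K (p + a)
    · exact Or.inl h1
    · by_cases h2 : W K (p + b)
      · exact Or.inr (Or.inl h2)
      · exact Or.inr (Or.inr (hcon a b ha hb h1 h2))
  -- the potential
  set D : ℕ × ℕ → ℤ := fun q => (K : ℤ) * q.2 - (m + 1) * q.1 with hD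
  have hDK : ∀ p, p ≤ K → ¬ W K p → D (K, p) ≤ 0 ∧ -(K : ℤ) ≤ D (K, p) := by
    intro p hp hW
    rcases hwK p hp hW with h | h <;> subst h <;> simp only [hD] <;> push_cast <;>
      constructor <;> nlinarith
  have hstep : ∀ L p, L ≤ K → p ≤ L → ¬ W L p →
      (∃ p', p' ≤ 2 * L ∧ 2 * L ≤ K ∧ ¬ W (2 * L) p' ∧ 2 * D (L, p) ≤ D (2 * L, p') + K ∧
        D (2 * L, p') - K ≤ 2 * D (L, p)) ∨
      (∃ p', p' ≤ 2 * K - 2 * L ∧ K ≤ 2 * L ∧ ¬ W (2 * K - 2 * L) p' ∧
        2 * D (L, p) ≤ - D (2 * K - 2 * L, p') ∧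
        - D (2 * K - 2 * L, p') - 2 * K ≤ 2 * D (L, p)) := by
    intro L p hL hp hW
    rcases Nat.lt_or_ge K (2 * L) with h | h
    · obtain ⟨a, b, ha, hb, h1, h2, h3⟩ := hB L p h.le hL hp hW
      have d1 := hDK _ (by omega) h1
      have d2 := hDK _ (by omega) h2
      refine Or.inr ⟨a + b, by omega, h.le, h3, ?_, ?_⟩
      · have : 2 * D (L, p) = D (K, p + a) + D (K, p + b) - D (2 * K - 2 * L, a + b) := by
          simp only [hD]
          push_cast [Nat.cast_sub (show 2 * L ≤ 2 * K by omega)]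
          ring
        linarith [d1.1, d2.1]
      · have : 2 * D (L, p) = D (K, p + a) + D (K, p + b) - D (2 * K - 2 * L, a + b) := by
          simp only [hD]
          push_cast [Nat.cast_sub (show 2 * L ≤ 2 * K by omega)]
          ring
        linarith [d1.2, d2.2]
    · obtain ⟨a, b, ha, hb, h1, h2, h3⟩ := hA L p h hp hW
      have d1 := hDK _ (by omega) h1
      have d3 := hDK _ (by omega) h3
      have e : 2 * D (L, p) = D (K, p + a) + D (2 * L, p + b) - D (K, a + b) := by
        simp only [hD]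
        push_cast
        ring
      refine Or.inl ⟨p + b, by omega, h, h2, ?_, ?_⟩
      · linarith [d1.1, d3.2]
      · linarith [d1.2, d3.1]
  -- bounds
  have hbd : ∀ L p, L ≤ K → p ≤ L → ¬ W L p → D (L, p) ≤ K ∧ -(3 * K : ℤ) ≤ 2 * D (L, p) := by
    set S : Finset (ℕ × ℕ) := ((range (K + 1)) ×ˢ (range (K + 1))).filter
      (fun q => q.2 ≤ q.1 ∧ ¬ W q.1 q.2) with hS
    have hmem : ∀ L p, L ≤ K → p ≤ L → ¬ W L p → (L, p) ∈ S := by
      intro L p h1 h2 h3
      rw [hS, mem_filter, mem_product, mem_range, mem_range]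
      exact ⟨⟨by simp only; omega, by simp only; omega⟩, h2, h3⟩
    intro L p hL hp hW
    have hne : S.Nonempty := ⟨_, hmem L p hL hp hW⟩
    obtain ⟨⟨L1, p1⟩, hm1, hmax⟩ := exists_max_image S D hne
    obtain ⟨⟨L2, p2⟩, hm2, hmin⟩ := exists_min_image S D hne
    rw [hS, mem_filter, mem_product, mem_range, mem_range] at hm1 hm2
    simp only at hm1 hm2
    have u1 := hmax _ (hmem L p hL hp hW)
    have u2 := hmin _ (hmem L p hL hp hW)
    have t1 : D (L1, p1) ≤ K ∨ 2 * D (L1, p1) ≤ - D (L2, p2) := by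
      rcases hstep L1 p1 (by omega) hm1.2.1 hm1.2.2 with ⟨p', a1, a2, a3, a4, a5⟩ |
        ⟨p', a1, a2, a3, a4, a5⟩
      · have := hmax _ (hmem _ _ a2 a1 a3)
        exact Or.inl (by linarith)
      · have := hmin _ (hmem _ _ (by omega) a1 a3)
        exact Or.inr (by linarith)
    have t2 : - D (L2, p2) ≤ K ∨ -2 * D (L2, p2) ≤ 2 * K + D (L1, p1) := by
      rcases hstep L2 p2 (by omega) hm2.2.1 hm2.2.2 with ⟨p', a1, a2, a3, a4, a5⟩ |
        ⟨p', a1, a2, a3, a4, a5⟩
      · have := hmin _ (hmem _ _ a2 a1 a3)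
        exact Or.inl (by linarith)
      · have := hmax _ (hmem _ _ (by omega) a1 a3)
        exact Or.inr (by linarith)
    have hK0 : (0 : ℤ) ≤ K := by positivity
    constructor
    · rcases t1 with t1 | t1
      · linarith
      · rcases t2 with t2 | t2 <;> linarith
    · rcases t2 with t2 | t2
      · linarith
      · rcases t1 with t1 | t1 <;> linarith
  -- W 2 2
  have hW22 : W 2 2 := by
    refine mid fun hm2 => ?_
    by_contra hW
    have h1 := (hbd (K - 2) (m - 2) (by omega) (by omega) hW).2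
    simp only [hD] at h1
    push_cast [Nat.cast_sub (show 2 ≤ K by omega), Nat.cast_sub hm2] at h1
    have h2 : (K : ℤ) = 2 * m + 1 := by rw [hK]; push_cast; ring
    have h3 : (2 : ℤ) ≤ m := by exact_mod_cast hm2
    rw [h2] at h1
    nlinarith
  -- the end
  have hend : ∀ n L, K - L ≤ n → L ≤ K → W L 0 := by
    intro n
    induction n with
    | zero =>
      intro L h1 h2
      exact base L 0 h2 (Nat.zero_le _) (Or.inr (by omega))
    | succ n ih =>
      intro L h1 h2
      rcases Nat.eq_or_lt_of_le h2 with h | h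
      · exact base L 0 h2 (Nat.zero_le _) (Or.inr (by omega))
      · refine r2 L 0 1 1 (by omega) (by omega) (by omega) (Nat.zero_le _) fun a b ha hb => ?_
        have h3 := ih (L + 1) (by omega) (by omega)
        rcases Nat.eq_zero_or_pos a with ha0 | ha0
        · subst ha0; exact Or.inl h3
        · rcases Nat.eq_zero_or_pos b with hb0 | hb0
          · subst hb0; exact Or.inr (Or.inl h3)
          · have ha1 : a = 1 := by omega
            have hb1 : b = 1 := by omega
            subst ha1; subst hb1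
            exact Or.inr (Or.inr hW22)
  exact hend K 0 (by omega) (Nat.zero_le _)

end Pool.Agent.Lib.MP_21a058_co.Odd
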