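import Pool.Agent.Lib.MP_21a058_co.Odd.Rule4

/-! Even sums, two even classes: the meeting rule and the end. -/

namespace Pool.Agent.Lib.MP_21a058_co.Odd.EE

open Pool.Agent.Lib.MP_21a058_co.Odd

open Classical in
/-- Refutable values; at level `h + 1` the window of the cut. -/
def Wp (h m L p : ℕ) : Prop := if L ≤ h then W3 h (2 * m) L p else (p ≠ m ∧ p ≠ m + 1)

theorem Wp_le {h m L p : ℕ} (hL : L ≤ h) : Wp h m L p ↔ W3 h (2 * m) L p := by
  unfold Wp
  rw [if_pos hL]

theorem Wp_top {h m p : ℕ} : Wp h m (h + 1) p ↔ (p ≠ m ∧ p ≠ m + 1) := by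
  unfold Wp
  rw [if_neg (by omega)]

theorem red_zero {I : Type} [Finite I] (hI : Nat.card I = 0) (x : I → Bool) : red x = 0 := by
  have := red_le x
  omega

theorem false_false {h l : ℕ} {I : Type} {A : Set (I → Bool)} (hA : ∀ x, x ∉ A) :
    Kill3 h l I A := mono (empty h l I) fun x hx => absurd hx (hA x)

theorem seq0 {h m M : ℕ} (hh : 1 ≤ h) (G R : Type) [Finite G] [Finite R] (hG : Nat.card G = M)
    (hM : M ≤ h + 1) (hR : Nat.card G + Nat.card R = 2 * h + 1) :
    Kill3 h (2 * m) (G ⊕ R) {x | Wp h m M (red (fun g => x (Sum.inl g)))} := by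
  by_cases hc : M ≤ h
  · refine mono (seq' G R hG hR ∅ (false_false fun x hx => hx)) ?_
    intro x hx
    right
    exact (Wp_le hc).mp hx
  · have hM' : M = h + 1 := by omega
    subst hM'
    have k := nodeP (m := m) hh (Fin h) (Fin 1) (Fin 0) (Fin (2 * h)) (Fin (h + 1))
      (by rw [Nat.card_fin]) (by rw [Nat.card_fin]; exact hh) (by rw [Nat.card_fin]; omega)
      (by rw [Nat.card_fin, Nat.card_fin]) ∅ (fun _ => False) (fun _ => False) 1
      (by rw [Nat.card_fin]; rfl)
      (by rw [Nat.card_fin, Nat.card_fin, Nat.card_fin]; omega)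
      (by rw [Nat.card_fin, Nat.card_fin, Nat.card_fin]; omega)
      (false_false fun x hx => hx)
      (false_false fun x hx => by rcases hx with hx | hx <;> exact hx)
    have k' : Kill3 h (2 * m) ((Fin h ⊕ Fin 1) ⊕ (Fin h ⊕ (Fin (1 - Nat.card (Fin 1)) ⊕
        Fin (h + 1 - 1 - Nat.card (Fin h))))) {x | (fun g => x (Sum.inl g)) ∈
          {w : Fin h ⊕ Fin 1 → Bool | Wp h m (h + 1) (red w)}} := by
      refine mono k ?_
      intro x hx
      right; right
      have e0 : red (fun s => x (Sum.inr (Sum.inr s))) = 0 := by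
        apply red_zero
        rw [Nat.card_sum, Nat.card_fin, Nat.card_fin, Nat.card_fin, Nat.card_fin]
        omega
      show red (fun s => x (Sum.inl s)) + red (fun s => x (Sum.inr (Sum.inr s))) ≠ m ∧
        red (fun s => x (Sum.inl s)) + red (fun s => x (Sum.inr (Sum.inr s))) ≠ m + 1
      rw [e0]
      have hx' := Wp_top.mp hx
      simpa using hx'
    obtain ⟨eG⟩ := Finite.card_eq.mp (show Nat.card (Fin h ⊕ Fin 1) = Nat.card G by
      rw [Nat.card_sum, Nat.card_fin, Nat.card_fin, hG])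
    obtain ⟨eR⟩ := Finite.card_eq.mp (show Nat.card (Fin h ⊕ (Fin (1 - Nat.card (Fin 1)) ⊕
        Fin (h + 1 - 1 - Nat.card (Fin h)))) = Nat.card R by
      simp only [Nat.card_sum, Nat.card_fin]
      omega)
    refine mono (trans k' (Equiv.sumCongr eG eR)) ?_
    intro x hx
    have e1 : red (fun g => x (Sum.inl (eG g))) = red (fun g => x (Sum.inl g)) :=
      red_equiv eG (fun g => x (Sum.inl g))
    exact Eq.mpr (congrArg (Wp h m (h + 1)) e1) hx

theorem seqY {h m M : ℕ} (hh : 1 ≤ h) (F Y R : Type) [Finite F] [Finite Y] [Finite R]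
    (hF : Nat.card F ≤ h) (hY : Nat.card Y ≤ h) (hMM : Nat.card F + Nat.card Y = M)
    (hM : M ≤ h + 1) (hR : Nat.card F + Nat.card Y + Nat.card R = 2 * h + 1) (T : Set (F → Bool))
    (k : Kill3 h (2 * m) ((F ⊕ Y) ⊕ R) {x | (fun f => x (Sum.inl (Sum.inl f))) ∈ T}) :
    Kill3 h (2 * m) ((F ⊕ Y) ⊕ R) {x | (fun f => x (Sum.inl (Sum.inl f))) ∈ T ∨
      Wp h m M (red (fun g => x (Sum.inl g)))} := by
  by_cases hc : M ≤ h
  · refine mono (seq' (F ⊕ Y) R (by rw [Nat.card_sum, hMM]) (by rw [Nat.card_sum]; omega)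
      {w | (fun f => w (Sum.inl f)) ∈ T} k) ?_
    intro x hx
    rcases hx with hx | hx
    · exact Or.inl hx
    · exact Or.inr ((Wp_le hc).mp hx)
  · have hM' : M = h + 1 := by omega
    subst hM'
    have k3 : Kill3 h (2 * m) ((F ⊕ Fin 0) ⊕ Fin (2 * h + 1 - Nat.card F))
        {x | (fun f => x (Sum.inl (Sum.inl f))) ∈ T ∨ (fun _ => False) (red (fun g => x (Sum.inl g)))} := by
      have k4 := trans k (Equiv.sumAssoc F Y R)
      have k5 : Kill3 h (2 * m) (F ⊕ (Fin 0 ⊕ Fin (2 * h + 1 - Nat.card F)))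
          {x | (fun f => x (Sum.inl f)) ∈ T} := by
        refine rest ?_ k4
        rw [Nat.card_sum, Nat.card_sum, Nat.card_fin, Nat.card_fin]
        omega
      refine mono (trans k5 (Equiv.sumAssoc F (Fin 0) (Fin (2 * h + 1 - Nat.card F))).symm) ?_
      intro x hx
      rcases hx with hx | hx
      · exact hx
      · exact absurd hx id
    have k' := nodeP (m := m) hh F Y (Fin 0) (Fin (2 * h + 1 - Nat.card Y))
      (Fin (2 * h + 1 - Nat.card F)) hF hY (by rw [Nat.card_fin]; omega) (by omega) T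
      (fun _ => False) (fun _ => False) (max (Nat.card Y) 1) rfl
      (by rw [Nat.card_fin, Nat.card_fin]; omega)
      (by rw [Nat.card_fin, Nat.card_fin]; omega)
      (false_false fun x hx => hx) k3
    have k'' : Kill3 h (2 * m) ((F ⊕ Y) ⊕ (Fin h ⊕ (Fin (max (Nat.card Y) 1 - Nat.card Y) ⊕
        Fin (h + 1 - max (Nat.card Y) 1 - Nat.card F)))) {x | (fun g => x (Sum.inl g)) ∈
          {w : F ⊕ Y → Bool | (fun f => w (Sum.inl f)) ∈ T ∨ Wp h m (h + 1) (red w)}} := by
      refine mono k' ?_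
      intro x hx
      rcases hx with hx | hx
      · exact Or.inl hx
      right; right
      have e0 : red (fun s => x (Sum.inr (Sum.inr s))) = 0 := by
        apply red_zero
        rw [Nat.card_sum, Nat.card_fin, Nat.card_fin]
        omega
      show red (fun s => x (Sum.inl s)) + red (fun s => x (Sum.inr (Sum.inr s))) ≠ m ∧
        red (fun s => x (Sum.inl s)) + red (fun s => x (Sum.inr (Sum.inr s))) ≠ m + 1
      rw [e0]
      have hx' := Wp_top.mp hx
      simpa using hx'
    refine rest ?_ k''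
    rw [Nat.card_sum, Nat.card_sum, Nat.card_fin, Nat.card_fin, Nat.card_fin]
    omega

theorem R2 {h m L p i j : ℕ} (hh : 1 ≤ h) (hL : L ≤ h) (hi : i ≤ h) (hj : j ≤ h)
    (hLi : L + i ≤ h + 1) (hLj : L + j ≤ h + 1) (hij : i + j ≤ h + 1)
    (H : ∀ a b, a ≤ i → b ≤ j → Wp h m (L + i) (p + a) ∨ Wp h m (L + j) (p + b) ∨
      Wp h m (i + j) (a + b)) : W3 h (2 * m) L p := by
  intro F R _ _ hF hR T hT
  have k2 := seq0 (h := h) (m := m) (M := i + j) hh (Fin i ⊕ Fin j) (Fin (2 * h + 1 - (i + j)))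
    (by rw [Nat.card_sum, Nat.card_fin, Nat.card_fin]) hij
    (by rw [Nat.card_sum, Nat.card_fin, Nat.card_fin, Nat.card_fin]; omega)
  have hT1 : Kill3 h (2 * m) (F ⊕ (Fin j ⊕ Fin (2 * h + 1 - (L + j))))
      {x | (fun f => x (Sum.inl f)) ∈ T} := by
    refine rest ?_ hT
    rw [Nat.card_sum, Nat.card_fin, Nat.card_fin]
    omega
  have k3 := seqY (h := h) (m := m) (M := L + j) hh F (Fin j) (Fin (2 * h + 1 - (L + j)))
    (by omega) (by rw [Nat.card_fin]; exact hj) (by rw [Nat.card_fin, hF]) hLj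
    (by rw [Nat.card_fin, Nat.card_fin]; omega) T
    (trans hT1 (Equiv.sumAssoc F (Fin j) (Fin (2 * h + 1 - (L + j)))).symm)
  have kn := nodeP (m := m) hh F (Fin i) (Fin j) (Fin (2 * h + 1 - (i + j)))
    (Fin (2 * h + 1 - (L + j))) (by omega) (by rw [Nat.card_fin]; exact hi)
    (by rw [Nat.card_fin]; exact hj) (by rw [Nat.card_fin]; omega) T (Wp h m (i + j))
    (Wp h m (L + j)) (max (Nat.card (Fin i)) 1) rfl
    (by rw [Nat.card_fin, Nat.card_fin, Nat.card_fin]; omega)
    (by rw [Nat.card_fin, Nat.card_fin]; omega) k2 k3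
  have kf : Kill3 h (2 * m) ((F ⊕ Fin i) ⊕ (Fin h ⊕ (Fin (max (Nat.card (Fin i)) 1 -
      Nat.card (Fin i)) ⊕ Fin (h + 1 - max (Nat.card (Fin i)) 1 - Nat.card F))))
      {x | (fun f => x (Sum.inl (Sum.inl f))) ∈ T ∨ red (fun f => x (Sum.inl (Sum.inl f))) = p} := by
    have hsp : ∀ x : (F ⊕ Fin i) ⊕ (Fin h ⊕ (Fin (max (Nat.card (Fin i)) 1 -
        Nat.card (Fin i)) ⊕ Fin (h + 1 - max (Nat.card (Fin i)) 1 - Nat.card F))) → Bool,
        red (fun g => x (Sum.inl g)) = red (fun f => x (Sum.inl (Sum.inl f))) +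
          red (fun a => x (Sum.inl (Sum.inr a))) := fun x => red_sum (fun g => x (Sum.inl g))
    have hai : ∀ x : (F ⊕ Fin i) ⊕ (Fin h ⊕ (Fin (max (Nat.card (Fin i)) 1 -
        Nat.card (Fin i)) ⊕ Fin (h + 1 - max (Nat.card (Fin i)) 1 - Nat.card F))) → Bool,
        red (fun a => x (Sum.inl (Sum.inr a))) ≤ i := by
      intro x
      exact (red_le (fun a : Fin i => x (Sum.inl (Sum.inr a)))).trans (le_of_eq (Nat.card_fin i))
    -- if the pattern on `F ⊕ X` is not refuted, the node refutes it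
    have key : ∀ x : (F ⊕ Fin i) ⊕ (Fin h ⊕ (Fin (max (Nat.card (Fin i)) 1 -
        Nat.card (Fin i)) ⊕ Fin (h + 1 - max (Nat.card (Fin i)) 1 - Nat.card F))) → Bool,
        red (fun f => x (Sum.inl (Sum.inl f))) = p → ¬ Wp h m (L + i) (red (fun g => x (Sum.inl g))) →
        ∀ b, b ≤ Nat.card (Fin j) → Wp h m (L + j) (red (fun f => x (Sum.inl (Sum.inl f))) + b) ∨
          Wp h m (i + j) (red (fun g => x (Sum.inl (Sum.inr g))) + b) := by
      intro x h1 h2 b hb
      rw [Nat.card_fin] at hb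
      rcases H _ b (hai x) hb with h3 | h3 | h3
      · rw [hsp, h1] at h2
        exact absurd h3 h2
      · rw [h1]
        exact Or.inl h3
      · exact Or.inr h3
    by_cases hc : L + i ≤ h
    · have ks := seq' (l := 2 * m) (L := L + i) (F ⊕ Fin i) (Fin h ⊕ (Fin (max (Nat.card (Fin i)) 1 -
        Nat.card (Fin i)) ⊕ Fin (h + 1 - max (Nat.card (Fin i)) 1 - Nat.card F)))
        (by rw [Nat.card_sum, Nat.card_fin, hF])
        (by simp only [Nat.card_sum, Nat.card_fin]; omega)
        {w | (fun f => w (Sum.inl f)) ∈ T ∨ (red (fun f => w (Sum.inl f)) = p ∧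
          ¬ Wp h m (L + i) (red w))} (mono kn (by
            intro x hx
            rcases hx with hx | ⟨hx1, hx2⟩
            · exact Or.inl hx
            · exact Or.inr (Or.inl (key x hx1 hx2))))
      refine mono ks ?_
      intro x hx
      show ((fun f => x (Sum.inl (Sum.inl f))) ∈ T ∨ (red (fun f => x (Sum.inl (Sum.inl f))) = p ∧
        ¬ Wp h m (L + i) (red (fun g => x (Sum.inl g))))) ∨
        W3 h (2 * m) (L + i) (red (fun g => x (Sum.inl g)))
      rw [← Wp_le hc]
      have hx' : (fun f => x (Sum.inl (Sum.inl f))) ∈ T ∨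
        red (fun f => x (Sum.inl (Sum.inl f))) = p := hx
      tauto
    · refine mono kn ?_
      intro x hx
      rcases hx with hx | hx
      · exact Or.inl hx
      right
      have hLi' : L + i = h + 1 := by omega
      by_cases hw : Wp h m (L + i) (red (fun g => x (Sum.inl g)))
      · right
        have e0 : red (fun s => x (Sum.inr (Sum.inr s))) = 0 := by
          apply red_zero
          rw [Nat.card_sum, Nat.card_fin, Nat.card_fin, Nat.card_fin]
          omega
        show red (fun s => x (Sum.inl s)) + red (fun s => x (Sum.inr (Sum.inr s))) ≠ m ∧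
          red (fun s => x (Sum.inl s)) + red (fun s => x (Sum.inr (Sum.inr s))) ≠ m + 1
        rw [e0]
        rw [hLi'] at hw
        have hx' := Wp_top.mp hw
        simpa using hx'
      · left
        exact key x hx hw
  have kt := trans kf (Equiv.sumAssoc F (Fin i) (Fin h ⊕ (Fin (max (Nat.card (Fin i)) 1 -
      Nat.card (Fin i)) ⊕ Fin (h + 1 - max (Nat.card (Fin i)) 1 - Nat.card F))))
  refine rest (T := {y | y ∈ T ∨ red y = p}) ?_ kt
  simp only [Nat.card_sum, Nat.card_fin]
  omega

theorem base {h m L p : ℕ} (hh : 1 ≤ h) (hL : L ≤ h) (hb : m + 2 ≤ p ∨ h + 2 ≤ L - p + m) :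
    W3 h (2 * m) L p := by
  intro F R _ _ hF hR T hT
  have k3 : Kill3 h (2 * m) ((F ⊕ Fin 0) ⊕ Fin (2 * h + 1 - Nat.card F))
      {x | (fun f => x (Sum.inl (Sum.inl f))) ∈ T ∨ (fun _ => False) (red (fun g => x (Sum.inl g)))} := by
    have k5 : Kill3 h (2 * m) (F ⊕ (Fin 0 ⊕ Fin (2 * h + 1 - Nat.card F)))
        {x | (fun f => x (Sum.inl f)) ∈ T} := by
      refine rest ?_ hT
      rw [Nat.card_sum, Nat.card_fin, Nat.card_fin]
      omega
    refine mono (trans k5 (Equiv.sumAssoc F (Fin 0) (Fin (2 * h + 1 - Nat.card F))).symm) ?_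
    intro x hx
    rcases hx with hx | hx
    · exact hx
    · exact absurd hx id
  have k' := nodeP (m := m) hh F (Fin 0) (Fin 0) (Fin (2 * h + 1))
    (Fin (2 * h + 1 - Nat.card F)) (by omega) (by rw [Nat.card_fin]; omega)
    (by rw [Nat.card_fin]; omega) (by rw [Nat.card_fin]; omega) T
    (fun _ => False) (fun _ => False) 1 (by rw [Nat.card_fin]; rfl)
    (by rw [Nat.card_fin, Nat.card_fin]; omega)
    (by rw [Nat.card_fin, Nat.card_fin]; omega)
    (false_false fun x hx => hx) k3
  have kf := mono k' (A' := {x | (fun f => x (Sum.inl (Sum.inl f))) ∈ T ∨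
      red (fun f => x (Sum.inl (Sum.inl f))) = p}) (by
    intro x hx
    rcases hx with hx | hx
    · exact Or.inl hx
    right; right
    have e1 : red (fun g => x (Sum.inl g)) = red (fun f => x (Sum.inl (Sum.inl f))) +
      red (fun a => x (Sum.inl (Sum.inr a))) := red_sum (fun g => x (Sum.inl g))
    have e2 : red (fun s => x (Sum.inr (Sum.inr s))) ≤ h + 1 - L := by
      have := red_le (fun s => x (Sum.inr (Sum.inr s)))
      simp only [Nat.card_sum, Nat.card_fin] at this
      omega
    have e3 : red (fun a => x (Sum.inl (Sum.inr a))) = 0 := red_zero (Nat.card_fin 0) _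
    have e4 : red (fun f => x (Sum.inl (Sum.inl f))) ≤ L := by
      have := red_le (fun f => x (Sum.inl (Sum.inl f)))
      omega
    have e5 : red (fun f => x (Sum.inl (Sum.inl f))) = p := hx
    show red (fun s => x (Sum.inl s)) + red (fun s => x (Sum.inr (Sum.inr s))) ≠ m ∧
        red (fun s => x (Sum.inl s)) + red (fun s => x (Sum.inr (Sum.inr s))) ≠ m + 1
    omega)
  have kt := trans kf (Equiv.sumAssoc F (Fin 0) (Fin h ⊕ (Fin (1 -
      Nat.card (Fin 0)) ⊕ Fin (h + 1 - 1 - Nat.card F))))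
  refine rest (T := {y | y ∈ T ∨ red y = p}) ?_ kt
  simp only [Nat.card_sum, Nat.card_fin]
  omega

theorem W_zero {h m : ℕ} (hm : 1 ≤ m) (hh : 2 * m + 2 ≤ h + 1) : W3 h (2 * m) 0 0 := by
  by_contra hcon
  have hcon' : ¬ Wp h m 0 0 := fun hw => hcon ((Wp_le (Nat.zero_le h)).mp hw)
  apply hcon'
  apply arith (h + 1) m hm hh (Wp h m)
  · intro L p hL hp hb
    by_cases hc : L ≤ h
    · rw [Wp_le hc]
      apply base (by omega) hc
      rcases hb with hb | hb
      · exact Or.inl hb
      · right; omega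
    · have hL' : L = h + 1 := by omega
      subst hL'
      rw [Wp_top]
      omega
  · intro L p i j hi hj hij hp H
    by_cases hc : L ≤ h
    · by_cases hi' : i ≤ h
      · by_cases hj' : j ≤ h
        · rw [Wp_le hc]
          exact R2 (by omega) hc hi' hj' hi hj hij H
        · have hj1 : j = h + 1 := by omega
          have hL0 : L = 0 := by omega
          have hi0 : i = 0 := by omega
          subst hj1; subst hL0; subst hi0
          have hp0 : p = 0 := by omega
          subst hp0
          exfalso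
          rcases H 0 m le_rfl (by omega) with h1 | h1 | h1
          · exact hcon' h1
          · rw [Nat.zero_add] at h1
            exact (Wp_top.mp h1).1 (by omega)
          · rw [Nat.zero_add] at h1
            exact (Wp_top.mp h1).1 (by omega)
      · have hi1 : i = h + 1 := by omega
        have hL0 : L = 0 := by omega
        have hj0 : j = 0 := by omega
        subst hi1; subst hL0; subst hj0
        have hp0 : p = 0 := by omega
        subst hp0
        exfalso
        rcases H m 0 (by omega) le_rfl with h1 | h1 | h1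
        · rw [Nat.zero_add] at h1
          exact (Wp_top.mp h1).1 (by omega)
        · exact hcon' h1
        · exact (Wp_top.mp h1).1 (by omega)
    · have hL' : L = h + 1 := by omega
      have hi0 : i = 0 := by omega
      have hj0 : j = 0 := by omega
      subst hL'; subst hi0; subst hj0
      rcases H 0 0 le_rfl le_rfl with h1 | h1 | h1
      · exact h1
      · exact h1
      · exact absurd h1 hcon'

/-- For `l = 2m`, `m ≥ 1` and `2m + 2 ≤ h + 1` everything is killable. -/
theorem kill_univ {h m : ℕ} (hm : 1 ≤ m) (hh : 2 * m + 2 ≤ h + 1) :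
    Kill3 h (2 * m) (Fin 0 ⊕ Fin (2 * h + 1)) Set.univ := by
  have h1 := W_zero hm hh (Fin 0) (Fin (2 * h + 1)) (Nat.card_fin 0)
    (by rw [Nat.card_fin, Nat.card_fin]; omega) ∅ (false_false fun x hx => hx)
  refine mono h1 ?_
  intro x _
  right
  exact red_zero (Nat.card_fin 0) _

end Pool.Agent.Lib.MP_21a058_co.Odd.EE
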