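import Pool.Agent.Lib.MP_21a058_co.Odd.Rule3
import Pool.Agent.Lib.MP_21a058_co.Odd.Rule5
import Pool.Agent.Lib.MP_21a058_co.Odd.Bnd
import Pool.Agent.Lib.MP_21a058_co.Odd.MidArith
import Pool.Agent.Lib.MP_21a058_co.Odd.Gad3

/-! Two equal even classes `l = l' = 2m = h`, `m ≥ 2`. -/

namespace Pool.Agent.Lib.MP_21a058_co.Odd.E4

open Pool.Agent.Lib.MP_21a058_co.Odd Pool.Agent.Lib.MP_21a058_co.Odd.EE

theorem red1 (x : Fin 1 → Bool) : red x ≤ 1 := by
  have := red_le x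
  rwa [Nat.card_fin] at this

/-- `(P ⊕ B) ⊕ J ≃ J ⊕ (B ⊕ P)` -/
def e0 (P B J : Type) : (P ⊕ B) ⊕ J ≃ J ⊕ (B ⊕ P) where
  toFun p := match p with
    | Sum.inl (Sum.inl p) => Sum.inr (Sum.inr p)
    | Sum.inl (Sum.inr b) => Sum.inr (Sum.inl b)
    | Sum.inr j => Sum.inl j
  invFun p := match p with
    | Sum.inr (Sum.inr p) => Sum.inl (Sum.inl p)
    | Sum.inr (Sum.inl b) => Sum.inl (Sum.inr b)
    | Sum.inl j => Sum.inr j
  left_inv := by rintro ((p | b) | j) <;> rfl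
  right_inv := by rintro (j | (b | p)) <;> rfl

/-- `(J ⊕ C) ⊕ (C' ⊕ N) ≃ J ⊕ ((C ⊕ C') ⊕ N)` -/
def e1 (J C C' N : Type) : (J ⊕ C) ⊕ (C' ⊕ N) ≃ J ⊕ ((C ⊕ C') ⊕ N) where
  toFun p := match p with
    | Sum.inl (Sum.inl j) => Sum.inl j
    | Sum.inl (Sum.inr c) => Sum.inr (Sum.inl (Sum.inl c))
    | Sum.inr (Sum.inl c) => Sum.inr (Sum.inl (Sum.inr c))
    | Sum.inr (Sum.inr n) => Sum.inr (Sum.inr n)
  invFun p := match p with
    | Sum.inl j => Sum.inl (Sum.inl j)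
    | Sum.inr (Sum.inl (Sum.inl c)) => Sum.inl (Sum.inr c)
    | Sum.inr (Sum.inl (Sum.inr c)) => Sum.inr (Sum.inl c)
    | Sum.inr (Sum.inr n) => Sum.inr (Sum.inr n)
  left_inv := by rintro ((j | c) | (c | n)) <;> rfl
  right_inv := by rintro (j | ((c | c) | n)) <;> rfl

/-- `(P ⊕ C) ⊕ (N ⊕ C') ≃ P ⊕ (N ⊕ (C ⊕ C'))` -/
def e3 (P C N C' : Type) : (P ⊕ C) ⊕ (N ⊕ C') ≃ P ⊕ (N ⊕ (C ⊕ C')) where
  toFun p := match p with
    | Sum.inl (Sum.inl p) => Sum.inl p
    | Sum.inl (Sum.inr c) => Sum.inr (Sum.inr (Sum.inl c))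
    | Sum.inr (Sum.inl n) => Sum.inr (Sum.inl n)
    | Sum.inr (Sum.inr c) => Sum.inr (Sum.inr (Sum.inr c))
  invFun p := match p with
    | Sum.inl p => Sum.inl (Sum.inl p)
    | Sum.inr (Sum.inr (Sum.inl c)) => Sum.inl (Sum.inr c)
    | Sum.inr (Sum.inl n) => Sum.inr (Sum.inl n)
    | Sum.inr (Sum.inr (Sum.inr c)) => Sum.inr (Sum.inr c)
  left_inv := by rintro ((p | c) | (n | c)) <;> rfl
  right_inv := by rintro (p | (n | (c | c))) <;> rfl

/-- What is known about the windows. -/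
structure Win (h m : ℕ) : Prop where
  w3 : ∀ p, p ≤ 3 → ¬ Wp h m 3 p → p = 1 ∨ p = 2
  wb : ∀ p, p ≤ h - 1 → ¬ Wp h m (h - 1) p → p = m - 1 ∨ p = m
  wt : ∀ p, ¬ Wp h m (h + 1) p → p = m ∨ p = m + 1

theorem F2 {h m : ℕ} (hh : h = 2 * m) (hm : 2 ≤ m) (w : Win h m) (P B J : Type) [Finite P]
    [Finite B] [Finite J] (hP : Nat.card P = 2) (hB : Nat.card B = h - 1) (hJ : Nat.card J = h) :
    Kill3 h (2 * m) ((P ⊕ B) ⊕ J) {x | red (fun p => x (Sum.inl (Sum.inl p))) = 0 ∧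
      ¬ (red (fun b => x (Sum.inl (Sum.inr b))) = m ∧ red x = h)} := by
  have k1 := ((seq0 (h := h) (m := m) (M := h + 1) (by omega) (J ⊕ Fin 1) (Fin (h - 2) ⊕ Fin 2)
    (by rw [Nat.card_sum, Nat.card_fin, hJ]) le_rfl
    (by simp only [Nat.card_sum, Nat.card_fin]; omega)).transport
    (e1 J (Fin 1) (Fin (h - 2)) (Fin 2))).addBase
  have k2 := seq0 (h := h) (m := m) (M := h - 1) (by omega) B (Fin h ⊕ Fin 2) hB (by omega)
    (by simp only [Nat.card_sum, Nat.card_fin]; omega)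
  have k3 := (seq0 (h := h) (m := m) (M := 3) (by omega) (P ⊕ Fin 1) (Fin h ⊕ Fin (h - 2))
    (by rw [Nat.card_sum, Nat.card_fin, hP]) (by omega)
    (by simp only [Nat.card_sum, Nat.card_fin]; omega)).transport
    (e3 P (Fin 1) (Fin h) (Fin (h - 2)))
  refine Kill3.node _ J B P (Fin h) (Fin 1 ⊕ Fin (h - 2)) (Fin 2) (h - 1) ?_ ?_ hJ hB ?_ ?_ ?_ ?_
    (e0 P B J) _ _ _ _ k1 k2 k3 ?_
  · omega
  · omega
  · omega
  · exact Nat.card_fin h
  · rw [Nat.card_sum, Nat.card_fin, Nat.card_fin]; omega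
  · rw [Nat.card_fin]; omega
  · intro x hx
    by_cases hb : red x ≠ 2 * m ∧ red x ≠ 2 * m + 1
    · exact Or.inl hb
    right
    intro n1 n2 n3
    by_contra hcon
    push Not at hcon
    obtain ⟨g1, g2, g3, g4, g5⟩ := hcon
    obtain ⟨hx1, hx2⟩ := hx
    have E0 : red x = (red (fun p => x (Sum.inl (Sum.inl p))) +
        red (fun b => x (Sum.inl (Sum.inr b)))) + red (fun j => x (Sum.inr j)) := by
      rw [red_sum x, red_sum (fun s => x (Sum.inl s))]
    have En2 : red n2 = red (fun c => n2 (Sum.inl c)) + red (fun c => n2 (Sum.inr c)) := red_sum n2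
    -- v1
    have g1a : ¬ Wp h m (h + 1) (red (fun j => x (Sum.inr j)) + red (fun c => n2 (Sum.inl c))) := by
      intro hw
      apply g1
      left
      have e : ∀ y : J ⊕ Fin 1 → Bool, red y = red (fun f => y (Sum.inl f)) +
          red (fun f => y (Sum.inr f)) := fun y => red_sum y
      exact Eq.mpr (congrArg (Wp h m (h + 1)) (e _)) hw
    have g1b : ¬ (red (fun j => x (Sum.inr j)) + (red n2 + red n3) ≠ 2 * m ∧
        red (fun j => x (Sum.inr j)) + (red n2 + red n3) ≠ 2 * m + 1) := by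
      intro hw
      apply g1
      right
      have e : ∀ y : J ⊕ ((Fin 1 ⊕ Fin (h - 2)) ⊕ Fin 2) → Bool, red y =
          red (fun f => y (Sum.inl f)) + (red (fun f => y (Sum.inr (Sum.inl f))) +
            red (fun f => y (Sum.inr (Sum.inr f)))) := by
        intro y
        rw [red_sum y, red_sum (fun s => y (Sum.inr s))]
      exact ⟨fun hq => hw.1 ((e _).symm.trans hq), fun hq => hw.2 ((e _).symm.trans hq)⟩
    have g2a : ¬ Wp h m (h - 1) (red (fun b => x (Sum.inl (Sum.inr b)))) := g2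
    have g3a : ¬ Wp h m 3 (red (fun p => x (Sum.inl (Sum.inl p))) +
        red (fun c => n2 (Sum.inl c))) := by
      intro hw
      apply g3
      have e : ∀ y : P ⊕ Fin 1 → Bool, red y = red (fun f => y (Sum.inl f)) +
          red (fun f => y (Sum.inr f)) := fun y => red_sum y
      exact Eq.mpr (congrArg (Wp h m 3) (e _)) hw
    have E4 : red (fun j => x ((e0 P B J).symm (Sum.inr j))) =
        red (fun b => x (Sum.inl (Sum.inr b))) + red (fun p => x (Sum.inl (Sum.inl p))) :=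
      red_sum (fun j => x ((e0 P B J).symm (Sum.inr j)))
    rw [E4] at g4 g5
    have t1 := w.wt _ g1a
    have t2 := w.wb _ (by rw [← hB]; exact red_le _) g2a
    have c1 := red1 (fun c => n2 (Sum.inl c))
    have t3 := w.w3 _ (by omega) g3a
    apply hx2
    omega

/-- `F ⊕ ((D ⊕ W) ⊕ C) ≃ (C ⊕ W) ⊕ (D ⊕ F)` -/
def e4 (F D W C : Type) : F ⊕ ((D ⊕ W) ⊕ C) ≃ (C ⊕ W) ⊕ (D ⊕ F) where
  toFun p := match p with
    | Sum.inl f => Sum.inr (Sum.inr f)
    | Sum.inr (Sum.inl (Sum.inl d)) => Sum.inr (Sum.inl d)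
    | Sum.inr (Sum.inl (Sum.inr w)) => Sum.inl (Sum.inr w)
    | Sum.inr (Sum.inr c) => Sum.inl (Sum.inl c)
  invFun p := match p with
    | Sum.inr (Sum.inr f) => Sum.inl f
    | Sum.inr (Sum.inl d) => Sum.inr (Sum.inl (Sum.inl d))
    | Sum.inl (Sum.inr w) => Sum.inr (Sum.inl (Sum.inr w))
    | Sum.inl (Sum.inl c) => Sum.inr (Sum.inr c)
  left_inv := by rintro (f | ((d | w) | c)) <;> rfl
  right_inv := by rintro ((c | w) | (d | f)) <;> rfl

/-- `((C ⊕ N) ⊕ X) ⊕ (W ⊕ Y) ≃ (C ⊕ W) ⊕ (N ⊕ (Y ⊕ X))` -/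
def e5 (C N X W Y : Type) : ((C ⊕ N) ⊕ X) ⊕ (W ⊕ Y) ≃ (C ⊕ W) ⊕ (N ⊕ (Y ⊕ X)) where
  toFun p := match p with
    | Sum.inl (Sum.inl (Sum.inl c)) => Sum.inl (Sum.inl c)
    | Sum.inl (Sum.inl (Sum.inr n)) => Sum.inr (Sum.inl n)
    | Sum.inl (Sum.inr x) => Sum.inr (Sum.inr (Sum.inr x))
    | Sum.inr (Sum.inl w) => Sum.inl (Sum.inr w)
    | Sum.inr (Sum.inr y) => Sum.inr (Sum.inr (Sum.inl y))
  invFun p := match p with
    | Sum.inl (Sum.inl c) => Sum.inl (Sum.inl (Sum.inl c))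
    | Sum.inr (Sum.inl n) => Sum.inl (Sum.inl (Sum.inr n))
    | Sum.inr (Sum.inr (Sum.inr x)) => Sum.inl (Sum.inr x)
    | Sum.inl (Sum.inr w) => Sum.inr (Sum.inl w)
    | Sum.inr (Sum.inr (Sum.inl y)) => Sum.inr (Sum.inr y)
  left_inv := by rintro (((c | n) | x) | (w | y)) <;> rfl
  right_inv := by rintro ((c | w) | (n | (y | x))) <;> rfl

/-- `((D ⊕ E) ⊕ Y) ⊕ (W ⊕ X) ≃ D ⊕ ((E ⊕ W) ⊕ (Y ⊕ X))` -/
def e6 (D E Y W X : Type) : ((D ⊕ E) ⊕ Y) ⊕ (W ⊕ X) ≃ D ⊕ ((E ⊕ W) ⊕ (Y ⊕ X)) where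
  toFun p := match p with
    | Sum.inl (Sum.inl (Sum.inl d)) => Sum.inl d
    | Sum.inl (Sum.inl (Sum.inr e)) => Sum.inr (Sum.inl (Sum.inl e))
    | Sum.inl (Sum.inr y) => Sum.inr (Sum.inr (Sum.inl y))
    | Sum.inr (Sum.inl w) => Sum.inr (Sum.inl (Sum.inr w))
    | Sum.inr (Sum.inr x) => Sum.inr (Sum.inr (Sum.inr x))
  invFun p := match p with
    | Sum.inl d => Sum.inl (Sum.inl (Sum.inl d))
    | Sum.inr (Sum.inl (Sum.inl e)) => Sum.inl (Sum.inl (Sum.inr e))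
    | Sum.inr (Sum.inr (Sum.inl y)) => Sum.inl (Sum.inr y)
    | Sum.inr (Sum.inl (Sum.inr w)) => Sum.inr (Sum.inl w)
    | Sum.inr (Sum.inr (Sum.inr x)) => Sum.inr (Sum.inr x)
  left_inv := by rintro (((d | e) | y) | (w | x)) <;> rfl
  right_inv := by rintro (d | ((e | w) | (y | x))) <;> rfl

theorem arith2 {f d v c d' v' y z n1 n2 n3 r m h : ℕ} (hh : h = 2 * m)
    (E0 : r = f + ((d + v) + c)) (En1 : n1 = d' + v') (En3 : n3 = y + z)
    (hb : ¬ (r ≠ 2 * m ∧ r ≠ 2 * m + 1))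
    (g1b : ¬ ((c + v) + (n2 + n3) ≠ 2 * m ∧ (c + v) + (n2 + n3) ≠ 2 * m + 1))
    (g1a : ¬ (c + n2 = 0 ∧ ¬ (z = m ∧ (c + v) + (n2 + n3) = h)))
    (g2b : ¬ (d + (n1 + n3) ≠ 2 * m ∧ d + (n1 + n3) ≠ 2 * m + 1))
    (g3b : ¬ (f + (n1 + n2) ≠ 2 * m ∧ f + (n1 + n2) ≠ 2 * m + 1))
    (g4 : ¬ ((d + f) + n2 + n3 < 2 * m)) (g5 : ¬ (2 * m + 2 < (d + f) + n2 + n3))
    (hx1 : f = m + 1) (hx2 : d ≠ 0 ∨ (c = 0 ∧ v = m)) (c1 : d' ≤ 1) (c2 : n2 ≤ 1) (c3 : y ≤ 1)
    (c4 : d ≤ 1) (c5 : c ≤ 1) (t1 : f + d' = m ∨ f + d' = m + 1)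
    (t2 : (d + d') + y = 1 ∨ (d + d') + y = 2) : False := by omega

theorem node2 {h m : ℕ} (hh : h = 2 * m) (hm : 2 ≤ m) (w : Win h m) (F R0 : Type) [Finite F]
    [Finite R0] (hF : Nat.card F = h) (hR0 : Nat.card R0 = h + 1) (T : Set (F → Bool))
    (kT : Kill3 h (2 * m) (F ⊕ R0) {x | (fun f => x (Sum.inl f)) ∈ T}) :
    Kill3 h (2 * m) (F ⊕ ((Fin 1 ⊕ Fin (h - 1)) ⊕ Fin 1)) {x | (fun f => x (Sum.inl f)) ∈ T ∨
      (red (fun f => x (Sum.inl f)) = m + 1 ∧
        (red (fun d => x (Sum.inr (Sum.inl (Sum.inl d)))) ≠ 0 ∨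
          (red (fun c => x (Sum.inr (Sum.inr c))) = 0 ∧
            red (fun v => x (Sum.inr (Sum.inl (Sum.inr v)))) = m)))} := by
  have k1 := ((F2 hh hm w (Fin 1 ⊕ Fin 1) (Fin (h - 1)) (Fin (h - 1) ⊕ Fin 1)
    (by simp only [Nat.card_sum, Nat.card_fin]) (Nat.card_fin _)
    (by simp only [Nat.card_sum, Nat.card_fin]; omega)).transport
    (e5 (Fin 1) (Fin 1) (Fin (h - 1)) (Fin (h - 1)) (Fin 1))).addBase
  have k2 := ((seq0 (h := h) (m := m) (M := 3) (by omega) ((Fin 1 ⊕ Fin 1) ⊕ Fin 1)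
    (Fin (h - 1) ⊕ Fin (h - 1)) (by simp only [Nat.card_sum, Nat.card_fin]) (by omega)
    (by simp only [Nat.card_sum, Nat.card_fin]; omega)).transport
    (e6 (Fin 1) (Fin 1) (Fin 1) (Fin (h - 1)) (Fin (h - 1)))).addBase
  have kT1 : Kill3 h (2 * m) (F ⊕ (Fin 1 ⊕ (Fin (h - 1) ⊕ Fin 1)))
      {x | (fun f => x (Sum.inl f)) ∈ T} := by
    refine rest ?_ kT
    simp only [Nat.card_sum, Nat.card_fin]
    omega
  have k3 := ((seqY (h := h) (m := m) (M := h + 1) (by omega) F (Fin 1) (Fin (h - 1) ⊕ Fin 1)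
    (by omega) (by rw [Nat.card_fin]; omega) (by rw [Nat.card_fin, hF]) le_rfl
    (by simp only [Nat.card_sum, Nat.card_fin]; omega) T
    (kT1.transport (Equiv.sumAssoc F (Fin 1) (Fin (h - 1) ⊕ Fin 1)).symm)).transport
    (e1 F (Fin 1) (Fin (h - 1)) (Fin 1))).addBase
  refine Kill3.node _ (Fin 1 ⊕ Fin (h - 1)) (Fin 1) F (Fin 1 ⊕ Fin (h - 1)) (Fin 1)
    (Fin 1 ⊕ Fin (h - 1)) 1 ?_ ?_ ?_ ?_ ?_ ?_ ?_ ?_
    (e4 F (Fin 1) (Fin (h - 1)) (Fin 1)) _ _ _ _ k1 k2 k3 ?_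
  · omega
  · omega
  · simp only [Nat.card_sum, Nat.card_fin]; omega
  · exact Nat.card_fin 1
  · omega
  · simp only [Nat.card_sum, Nat.card_fin]; omega
  · exact Nat.card_fin 1
  · simp only [Nat.card_sum, Nat.card_fin]; omega
  · intro x hx
    by_cases hb : red x ≠ 2 * m ∧ red x ≠ 2 * m + 1
    · exact Or.inl hb
    right
    intro n1 n2 n3
    by_contra hcon
    obtain ⟨g1, hcon⟩ := not_or.mp hcon
    obtain ⟨g2, hcon⟩ := not_or.mp hcon
    obtain ⟨g3, hcon⟩ := not_or.mp hcon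
    obtain ⟨g4, g5⟩ := not_or.mp hcon
    have E0 : red x = red (fun f => x (Sum.inl f)) +
        ((red (fun d => x (Sum.inr (Sum.inl (Sum.inl d)))) +
          red (fun v => x (Sum.inr (Sum.inl (Sum.inr v))))) +
          red (fun c => x (Sum.inr (Sum.inr c)))) := by
      rw [red_sum x, red_sum (fun s => x (Sum.inr s)), red_sum (fun s => x (Sum.inr (Sum.inl s)))]
    have En1 : red n1 = red (fun c => n1 (Sum.inl c)) + red (fun c => n1 (Sum.inr c)) := red_sum n1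
    have En3 : red n3 = red (fun c => n3 (Sum.inl c)) + red (fun c => n3 (Sum.inr c)) := red_sum n3
    have EJ : red (fun j => x ((e4 F (Fin 1) (Fin (h - 1)) (Fin 1)).symm (Sum.inl j))) =
        red (fun c => x (Sum.inr (Sum.inr c))) +
        red (fun v => x (Sum.inr (Sum.inl (Sum.inr v)))) :=
      red_sum (fun j => x ((e4 F (Fin 1) (Fin (h - 1)) (Fin 1)).symm (Sum.inl j)))
    have E4' : red (fun j => x ((e4 F (Fin 1) (Fin (h - 1)) (Fin 1)).symm (Sum.inr j))) =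
        red (fun d => x (Sum.inr (Sum.inl (Sum.inl d)))) + red (fun f => x (Sum.inl f)) :=
      red_sum (fun j => x ((e4 F (Fin 1) (Fin (h - 1)) (Fin 1)).symm (Sum.inr j)))
    rw [E4'] at g4 g5
    -- v1
    have V1 : red (Sum.elim (fun j => x ((e4 F (Fin 1) (Fin (h - 1)) (Fin 1)).symm (Sum.inl j)))
        (Sum.elim n2 n3) : (Fin 1 ⊕ Fin (h - 1)) ⊕ (Fin 1 ⊕ (Fin 1 ⊕ Fin (h - 1))) → Bool) =
        red (fun j => x ((e4 F (Fin 1) (Fin (h - 1)) (Fin 1)).symm (Sum.inl j))) +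
          (red n2 + red n3) := by
      rw [red_sum, red_sum (fun s : Fin 1 ⊕ (Fin 1 ⊕ Fin (h - 1)) => _)]
      rfl
    have g1b : ¬ (red (fun j => x ((e4 F (Fin 1) (Fin (h - 1)) (Fin 1)).symm (Sum.inl j))) +
        (red n2 + red n3) ≠ 2 * m ∧
        red (fun j => x ((e4 F (Fin 1) (Fin (h - 1)) (Fin 1)).symm (Sum.inl j))) +
        (red n2 + red n3) ≠ 2 * m + 1) := by
      intro hw
      apply g1
      right
      rw [← V1] at hw
      exact hw
    have g1a : ¬ (red (fun c => x (Sum.inr (Sum.inr c))) + red n2 = 0 ∧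
        ¬ (red (fun c => n3 (Sum.inr c)) = m ∧
          red (fun j => x ((e4 F (Fin 1) (Fin (h - 1)) (Fin 1)).symm (Sum.inl j))) +
          (red n2 + red n3) = h)) := by
      rintro ⟨q1, q2⟩
      apply g1
      left
      have e : ∀ y : Fin 1 ⊕ Fin 1 → Bool, red y = red (fun f => y (Sum.inl f)) +
          red (fun f => y (Sum.inr f)) := fun y => red_sum y
      refine ⟨(e _).trans q1, fun q3 => q2 ⟨q3.1, ?_⟩⟩
      exact V1.symm.trans ((red_equiv (e5 (Fin 1) (Fin 1) (Fin (h - 1)) (Fin (h - 1)) (Fin 1))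
        _).symm.trans q3.2)
    -- v2
    have g2a : ¬ Wp h m 3 ((red (fun d => x (Sum.inr (Sum.inl (Sum.inl d)))) +
        red (fun c => n1 (Sum.inl c))) + red (fun c => n3 (Sum.inl c))) := by
      intro hw
      apply g2
      left
      have e : ∀ y : (Fin 1 ⊕ Fin 1) ⊕ Fin 1 → Bool, red y = (red (fun f => y (Sum.inl (Sum.inl f))) +
          red (fun f => y (Sum.inl (Sum.inr f)))) + red (fun f => y (Sum.inr f)) := by
        intro y
        rw [red_sum y, red_sum (fun s => y (Sum.inl s))]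
      exact Eq.mpr (congrArg (Wp h m 3) (e _)) hw
    have g2b : ¬ (red (fun d => x (Sum.inr (Sum.inl (Sum.inl d)))) + (red n1 + red n3) ≠ 2 * m ∧
        red (fun d => x (Sum.inr (Sum.inl (Sum.inl d)))) + (red n1 + red n3) ≠ 2 * m + 1) := by
      intro hw
      apply g2
      right
      have e : ∀ y : Fin 1 ⊕ ((Fin 1 ⊕ Fin (h - 1)) ⊕ (Fin 1 ⊕ Fin (h - 1))) → Bool, red y =
          red (fun f => y (Sum.inl f)) + (red (fun f => y (Sum.inr (Sum.inl f))) +
            red (fun f => y (Sum.inr (Sum.inr f)))) := by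
        intro y
        rw [red_sum y, red_sum (fun s => y (Sum.inr s))]
      exact ⟨fun hq => hw.1 ((e _).symm.trans hq), fun hq => hw.2 ((e _).symm.trans hq)⟩
    -- v3
    have g3T : (fun f => x (Sum.inl f)) ∉ T := fun hT => g3 (Or.inl (Or.inl hT))
    have g3a : ¬ Wp h m (h + 1) (red (fun f => x (Sum.inl f)) + red (fun c => n1 (Sum.inl c))) := by
      intro hw
      apply g3
      left
      right
      have e : ∀ y : F ⊕ Fin 1 → Bool, red y = red (fun f => y (Sum.inl f)) +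
          red (fun f => y (Sum.inr f)) := fun y => red_sum y
      exact Eq.mpr (congrArg (Wp h m (h + 1)) (e _)) hw
    have g3b : ¬ (red (fun f => x (Sum.inl f)) + (red n1 + red n2) ≠ 2 * m ∧
        red (fun f => x (Sum.inl f)) + (red n1 + red n2) ≠ 2 * m + 1) := by
      intro hw
      apply g3
      right
      have e : ∀ y : F ⊕ ((Fin 1 ⊕ Fin (h - 1)) ⊕ Fin 1) → Bool, red y =
          red (fun f => y (Sum.inl f)) + (red (fun f => y (Sum.inr (Sum.inl f))) +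
            red (fun f => y (Sum.inr (Sum.inr f)))) := by
        intro y
        rw [red_sum y, red_sum (fun s => y (Sum.inr s))]
      exact ⟨fun hq => hw.1 ((e _).symm.trans hq), fun hq => hw.2 ((e _).symm.trans hq)⟩
    rcases hx with hx | ⟨hx1, hx2⟩
    · exact g3T hx
    have c1 := red1 (fun c => n1 (Sum.inl c))
    have c2 := red1 n2
    have c3 := red1 (fun c => n3 (Sum.inl c))
    have c4 := red1 (fun d => x (Sum.inr (Sum.inl (Sum.inl d))))
    have c5 := red1 (fun c => x (Sum.inr (Sum.inr c)))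
    have t1 := w.wt _ g3a
    have t2 := w.w3 _ (by omega) g2a
    rw [EJ] at g1a g1b
    exact arith2 hh E0 En1 En3 hb g1b g1a g2b g3b g4 g5 hx1 hx2 c1 c2 c3 c4 c5 t1 t2

/-- `F ⊕ (J ⊕ B) ≃ J ⊕ (B ⊕ F)` -/
def e7 (F J B : Type) : F ⊕ (J ⊕ B) ≃ J ⊕ (B ⊕ F) where
  toFun p := match p with
    | Sum.inl f => Sum.inr (Sum.inr f)
    | Sum.inr (Sum.inl j) => Sum.inl j
    | Sum.inr (Sum.inr b) => Sum.inr (Sum.inl b)
  invFun p := match p with
    | Sum.inr (Sum.inr f) => Sum.inl f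
    | Sum.inl j => Sum.inr (Sum.inl j)
    | Sum.inr (Sum.inl b) => Sum.inr (Sum.inr b)
  left_inv := by rintro (f | (j | b)) <;> rfl
  right_inv := by rintro (j | (b | f)) <;> rfl

/-- `((B ⊕ D) ⊕ W) ⊕ X ≃ B ⊕ ((D ⊕ W) ⊕ X)` -/
def e8 (B D W X : Type) : ((B ⊕ D) ⊕ W) ⊕ X ≃ B ⊕ ((D ⊕ W) ⊕ X) where
  toFun p := match p with
    | Sum.inl (Sum.inl (Sum.inl b)) => Sum.inl b
    | Sum.inl (Sum.inl (Sum.inr d)) => Sum.inr (Sum.inl (Sum.inl d))
    | Sum.inl (Sum.inr w) => Sum.inr (Sum.inl (Sum.inr w))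
    | Sum.inr x => Sum.inr (Sum.inr x)
  invFun p := match p with
    | Sum.inl b => Sum.inl (Sum.inl (Sum.inl b))
    | Sum.inr (Sum.inl (Sum.inl d)) => Sum.inl (Sum.inl (Sum.inr d))
    | Sum.inr (Sum.inl (Sum.inr w)) => Sum.inl (Sum.inr w)
    | Sum.inr (Sum.inr x) => Sum.inr x
  left_inv := by rintro (((b | d) | w) | x) <;> rfl
  right_inv := by rintro (b | ((d | w) | x)) <;> rfl

theorem arith1 {f b j c d v n1 n2 n3 r m h : ℕ} (hh : h = 2 * m)
    (E0 : r = f + (j + b)) (En1 : n1 = d + v)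
    (hb : ¬ (r ≠ 2 * m ∧ r ≠ 2 * m + 1)) (hc : n2 = c)
    (g1b : ¬ (j + (n2 + n3) ≠ 2 * m ∧ j + (n2 + n3) ≠ 2 * m + 1))
    (g2a : ¬ (b + d = 0 ∧ ¬ (v = m ∧ b + (n1 + n3) = h)))
    (g2b : ¬ (b + (n1 + n3) ≠ 2 * m ∧ b + (n1 + n3) ≠ 2 * m + 1))
    (g3a : ¬ (f = m + 1 ∧ (d ≠ 0 ∨ (c = 0 ∧ v = m))))
    (g3b : ¬ (f + (n1 + n2) ≠ 2 * m ∧ f + (n1 + n2) ≠ 2 * m + 1))
    (g4 : ¬ ((b + f) + n2 + n3 < 2 * m)) (g5 : ¬ (2 * m + 2 < (b + f) + n2 + n3))
    (hx1 : f = m + 1) : False := by omega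

theorem W_h {h m : ℕ} (hh : h = 2 * m) (hm : 2 ≤ m) (w : Win h m) :
    W3 h (2 * m) h (m + 1) := by
  intro F R _ _ hF hR T hT
  have k1 : Kill3 h (2 * m) (Fin h ⊕ (Fin 1 ⊕ Fin h)) {y | red y ≠ 2 * m ∧ red y ≠ 2 * m + 1} :=
    Kill3.leaf _ _ fun x hx => hx
  have k2 := ((F2 hh hm w (Fin 1 ⊕ Fin 1) (Fin (h - 1)) (Fin h)
    (by simp only [Nat.card_sum, Nat.card_fin]) (Nat.card_fin _) (Nat.card_fin _)).transport
    (e8 (Fin 1) (Fin 1) (Fin (h - 1)) (Fin h))).addBase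
  have k3 := (node2 hh hm w F R hF (by omega) T hT).addBase
  have kn : Kill3 h (2 * m) (F ⊕ (Fin h ⊕ Fin 1)) {x | (fun f => x (Sum.inl f)) ∈
      {y : F → Bool | y ∈ T ∨ red y = m + 1}} := by
    refine Kill3.node _ (Fin h) (Fin 1) F (Fin 1 ⊕ Fin (h - 1)) (Fin 1)
      (Fin h) 1 ?_ ?_ ?_ ?_ ?_ ?_ ?_ ?_ (e7 F (Fin h) (Fin 1)) _ _ _ _ k1 k2 k3 ?_
    · omega
    · omega
    · exact Nat.card_fin h
    · exact Nat.card_fin 1
    · omega
    · simp only [Nat.card_sum, Nat.card_fin]; omega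
    · exact Nat.card_fin 1
    · rw [Nat.card_fin]; omega
    · intro x hx
      by_cases hb : red x ≠ 2 * m ∧ red x ≠ 2 * m + 1
      · exact Or.inl hb
      right
      intro n1 n2 n3
      by_contra hcon
      obtain ⟨g1, hcon⟩ := not_or.mp hcon
      obtain ⟨g2, hcon⟩ := not_or.mp hcon
      obtain ⟨g3, hcon⟩ := not_or.mp hcon
      obtain ⟨g4, g5⟩ := not_or.mp hcon
      have E0 : red x = red (fun f => x (Sum.inl f)) +
          (red (fun j => x (Sum.inr (Sum.inl j))) + red (fun b => x (Sum.inr (Sum.inr b)))) := by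
        rw [red_sum x, red_sum (fun s => x (Sum.inr s))]
      have En1 : red n1 = red (fun c => n1 (Sum.inl c)) + red (fun c => n1 (Sum.inr c)) :=
        red_sum n1
      have E4' : red (fun j => x ((e7 F (Fin h) (Fin 1)).symm (Sum.inr j))) =
          red (fun b => x (Sum.inr (Sum.inr b))) + red (fun f => x (Sum.inl f)) :=
        red_sum (fun j => x ((e7 F (Fin h) (Fin 1)).symm (Sum.inr j)))
      rw [E4'] at g4 g5
      have g1b : ¬ (red (fun j => x (Sum.inr (Sum.inl j))) + (red n2 + red n3) ≠ 2 * m ∧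
          red (fun j => x (Sum.inr (Sum.inl j))) + (red n2 + red n3) ≠ 2 * m + 1) := by
        intro hw
        apply g1
        have e : ∀ y : Fin h ⊕ (Fin 1 ⊕ Fin h) → Bool, red y =
            red (fun f => y (Sum.inl f)) + (red (fun f => y (Sum.inr (Sum.inl f))) +
              red (fun f => y (Sum.inr (Sum.inr f)))) := by
          intro y
          rw [red_sum y, red_sum (fun s => y (Sum.inr s))]
        exact ⟨fun hq => hw.1 ((e _).symm.trans hq), fun hq => hw.2 ((e _).symm.trans hq)⟩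
      have V2 : red (Sum.elim (fun j => x ((e7 F (Fin h) (Fin 1)).symm (Sum.inr (Sum.inl j))))
          (Sum.elim n1 n3) : Fin 1 ⊕ ((Fin 1 ⊕ Fin (h - 1)) ⊕ Fin h) → Bool) =
          red (fun b => x (Sum.inr (Sum.inr b))) + (red n1 + red n3) := by
        rw [red_sum, red_sum (fun s : (Fin 1 ⊕ Fin (h - 1)) ⊕ Fin h => _)]
        rfl
      have g2b : ¬ (red (fun b => x (Sum.inr (Sum.inr b))) + (red n1 + red n3) ≠ 2 * m ∧
          red (fun b => x (Sum.inr (Sum.inr b))) + (red n1 + red n3) ≠ 2 * m + 1) := by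
        intro hw
        apply g2
        right
        exact ⟨fun hq => hw.1 (V2.symm.trans hq), fun hq => hw.2 (V2.symm.trans hq)⟩
      have g2a : ¬ (red (fun b => x (Sum.inr (Sum.inr b))) + red (fun c => n1 (Sum.inl c)) = 0 ∧
          ¬ (red (fun c => n1 (Sum.inr c)) = m ∧
            red (fun b => x (Sum.inr (Sum.inr b))) + (red n1 + red n3) = h)) := by
        rintro ⟨q1, q2⟩
        apply g2
        left
        have e : ∀ y : Fin 1 ⊕ Fin 1 → Bool, red y = red (fun f => y (Sum.inl f)) +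
            red (fun f => y (Sum.inr f)) := fun y => red_sum y
        refine ⟨(e _).trans q1, fun q3 => q2 ⟨q3.1, ?_⟩⟩
        exact V2.symm.trans ((red_equiv (e8 (Fin 1) (Fin 1) (Fin (h - 1)) (Fin h))
          _).symm.trans q3.2)
      have g3a : ¬ (red (fun f => x (Sum.inl f)) = m + 1 ∧ (red (fun c => n1 (Sum.inl c)) ≠ 0 ∨
          (red n2 = 0 ∧ red (fun c => n1 (Sum.inr c)) = m))) :=
        fun hw => g3 (Or.inl (Or.inr hw))
      have g3T : (fun f => x (Sum.inl f)) ∉ T := fun hT => g3 (Or.inl (Or.inl hT))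
      have g3b : ¬ (red (fun f => x (Sum.inl f)) + (red n1 + red n2) ≠ 2 * m ∧
          red (fun f => x (Sum.inl f)) + (red n1 + red n2) ≠ 2 * m + 1) := by
        intro hw
        apply g3
        right
        have e : ∀ y : F ⊕ ((Fin 1 ⊕ Fin (h - 1)) ⊕ Fin 1) → Bool, red y =
            red (fun f => y (Sum.inl f)) + (red (fun f => y (Sum.inr (Sum.inl f))) +
              red (fun f => y (Sum.inr (Sum.inr f)))) := by
          intro y
          rw [red_sum y, red_sum (fun s => y (Sum.inr s))]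
        exact ⟨fun hq => hw.1 ((e _).symm.trans hq), fun hq => hw.2 ((e _).symm.trans hq)⟩
      rcases hx with hx | hx
      · exact g3T hx
      exact arith1 hh E0 En1 hb rfl g1b g2a g2b g3a g3b g4 g5 hx
  refine rest (T := {y : F → Bool | y ∈ T ∨ red y = m + 1}) ?_ kn
  simp only [Nat.card_sum, Nat.card_fin]
  omega

/-- The middle case for `l = l' = 2m = h`, `m ≥ 2`. -/
theorem W_zero {h m : ℕ} (hh : h = 2 * m) (hm : 2 ≤ m) : W3 h (2 * m) 0 0 := by
  by_contra hcon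
  have hcon' : ¬ Wp h m 0 0 := fun hw => hcon ((Wp_le (Nat.zero_le h)).mp hw)
  have hb : ∀ L p, L ≤ h + 1 → p ≤ L → (m + 2 ≤ p ∨ h + 1 - m + 1 ≤ L - p) → Wp h m L p := by
    intro L p hL hp hb
    by_cases hc : L ≤ h
    · rw [Wp_le hc]
      apply base (by omega) hc
      rcases hb with hb | hb
      · exact Or.inl hb
      · right; omega
    · have hL' : L = h + 1 := by omega
      subst hL'
      rw [Wp_top]
      omega
  have hr : ∀ L p i j, L + i ≤ h + 1 → L + j ≤ h + 1 → i + j ≤ h + 1 → p ≤ L →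
      (∀ a b, a ≤ i → b ≤ j → Wp h m (L + i) (p + a) ∨ Wp h m (L + j) (p + b) ∨
        Wp h m (i + j) (a + b)) → Wp h m L p := by
    intro L p i j hi hj hij hp H
    by_cases hc : L ≤ h
    · by_cases hi' : i ≤ h
      · by_cases hj' : j ≤ h
        · rw [Wp_le hc]
          exact R2 (by omega) hc hi' hj' hi hj hij H
        · have hj1 : j = h + 1 := by omega
          have hL0 : L = 0 := by omega
          have hi0 : i = 0 := by omega
          subst hj1; subst hL0; subst hi0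
          have hp0 : p = 0 := by omega
          subst hp0
          exfalso
          rcases H 0 m le_rfl (by omega) with h1 | h1 | h1
          · exact hcon' h1
          · rw [Nat.zero_add] at h1
            exact (Wp_top.mp h1).1 (by omega)
          · rw [Nat.zero_add] at h1
            exact (Wp_top.mp h1).1 (by omega)
      · have hi1 : i = h + 1 := by omega
        have hL0 : L = 0 := by omega
        have hj0 : j = 0 := by omega
        subst hi1; subst hL0; subst hj0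
        have hp0 : p = 0 := by omega
        subst hp0
        exfalso
        rcases H m 0 (by omega) le_rfl with h1 | h1 | h1
        · rw [Nat.zero_add] at h1
          exact (Wp_top.mp h1).1 (by omega)
        · exact hcon' h1
        · exact (Wp_top.mp h1).1 (by omega)
    · have hL' : L = h + 1 := by omega
      have hi0 : i = 0 := by omega
      have hj0 : j = 0 := by omega
      subst hL'; subst hi0; subst hj0
      rcases H 0 0 le_rfl le_rfl with h1 | h1 | h1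
      · exact h1
      · exact h1
      · exact absurd h1 hcon'
  have hbn := bnd (h + 1) m (by omega) (Wp h m) hb hr
  have w : Win h m := by
    refine ⟨?_, ?_, ?_⟩
    · intro p hp hW
      have := hbn 3 p (by omega) hp hW
      omega
    · intro p hp hW
      have := hbn (h - 1) p (by omega) hp hW
      omega
    · intro p hW
      rw [Wp_top] at hW
      omega
  have hWh : Wp h m h (m + 1) := (Wp_le le_rfl).mpr (W_h hh hm w)
  apply hcon'
  refine arith_mid (h + 1) m (by omega) (by omega) (Wp h m) hb hr fun _ => ?_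
  refine hr 2 2 (h - 2) 1 (by omega) (by omega) (by omega) le_rfl fun a b ha hb' => ?_
  have e1 : 2 + (h - 2) = h := by omega
  have e2 : h - 2 + 1 = h - 1 := by omega
  rw [e1, e2]
  by_contra hn
  obtain ⟨n1, hn⟩ := not_or.mp hn
  obtain ⟨n2, n3⟩ := not_or.mp hn
  have t1 := hbn h (2 + a) (by omega) (by omega) n1
  have t2 := w.w3 _ (by omega) n2
  have t3 := w.wb _ (by omega) n3
  have t4 : 2 + a ≠ m + 1 := fun hq => n1 (hq ▸ hWh)
  omega

end Pool.Agent.Lib.MP_21a058_co.Odd.E4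

namespace Pool.Agent.Lib.MP_21a058_co.Odd

open Finset Pool.Agent.Lib.MP_21a058_co

theorem eq_even {m r : ℕ} (hm : 2 ≤ m) (ks : Fin r → ℕ) (J : Finset (Fin r))
    (hJ : ∑ i ∈ J, ks i = 2 * m) (hJ' : ∑ i ∈ Jᶜ, ks i = 2 * m) :
    ¬ Arrow (4 * m + 1) ks := by
  have h1 := E4.W_zero (h := 2 * m) rfl hm (Fin 0) (Fin (2 * (2 * m) + 1)) (Nat.card_fin 0)
    (by rw [Nat.card_fin, Nat.card_fin]; omega) ∅ (EE.false_false fun x hx => hx)
  have h2 : Kill3 (2 * m) (2 * m) (Fin 0 ⊕ Fin (2 * (2 * m) + 1)) Set.univ := by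
    refine EE.mono h1 ?_
    intro x _
    right
    exact EE.red_zero (Nat.card_fin 0) _
  have h3 := Kill3.false_of_univ (h := 2 * m) (l := 2 * m) (l' := 2 * m) (by ring) h2
    (by rw [Nat.card_sum, Nat.card_fin, Nat.card_fin]; omega) ks J hJ hJ'
  have e : 2 * (2 * m) + 1 = 4 * m + 1 := by ring
  rwa [e] at h3

end Pool.Agent.Lib.MP_21a058_co.Odd
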