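import Pool.Agent.Lib.MP_21a058_co.Odd.Rule3
import Pool.Agent.Lib.MP_21a058_co.Odd.Arith

/-! Two classes with different odd sums: everything is killable. -/

set_option autoImplicit false

namespace Pool.Agent.Lib.MP_21a058_co.Odd

theorem kill3_of_W3 {h l : ℕ} (H : W3 h l 0 0) :
    Kill3 h l (Fin 0 ⊕ Fin (2 * h + 1)) Set.univ := by
  have h1 := H (Fin 0) (Fin (2 * h + 1)) (Nat.card_fin 0)
    (by rw [Nat.card_fin, Nat.card_fin]; omega) ∅
    ((Kill3.empty h l _).mono (by intro x hx; exact absurd hx (Set.notMem_empty _)))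
  refine h1.mono ?_
  intro x _
  right
  have := red_le (fun f : Fin 0 => x (Sum.inl f))
  rw [Nat.card_fin] at this
  omega

theorem W3_zero {h l : ℕ} (hl : 3 ≤ l) (hl2 : l % 2 = 1) (hh : 2 * (l / 2) + 2 ≤ h) :
    W3 h l 0 0 := by
  apply arith h (l / 2) (by omega) hh (W3 h l)
  · intro L p hL hp H
    apply W3_base (by omega) hl2 hL
    rcases H with H | H
    · exact Or.inl H
    · right; omega
  · intro L p i j hi hj hij _ H
    exact W3_R2 (by omega) hi hj hij H

theorem kill3_univ {h l : ℕ} (hl : 3 ≤ l) (hl2 : l % 2 = 1) (hh : 2 * (l / 2) + 2 ≤ h) :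
    Kill3 h l (Fin 0 ⊕ Fin (2 * h + 1)) Set.univ :=
  kill3_of_W3 (W3_zero hl hl2 hh)

end Pool.Agent.Lib.MP_21a058_co.Odd
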