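import Pool.Agent.Lib.MP_21a058_co.Odd.EqOdd
import Pool.Agent.Lib.MP_21a058_co.Odd.EqArith
import Pool.Agent.Lib.MP_21a058_co.Odd.Zero3
import Pool.Agent.Lib.MP_21a058_co.Odd.Gad3

/-! Two classes with equal odd sums. -/

set_option autoImplicit false

namespace Pool.Agent.Lib.MP_21a058_co.Odd

theorem W3_eq_odd {h m : ℕ} (hm : 1 ≤ m) (hh : h = 2 * m + 1) : W3 h h 0 0 := by
  have base : ∀ L p, L ≤ h → p ≤ L → (m + 2 ≤ p ∨ h - m + 1 ≤ L - p) → W3 h h L p := by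
    intro L p hL hp H
    apply W3_base (by omega) (by omega) hL
    rcases H with H | H
    · left; omega
    · right; omega
  have r2 : ∀ L p i j, L + i ≤ h → L + j ≤ h → i + j ≤ h → p ≤ L →
      (∀ a b, a ≤ i → b ≤ j → W3 h h (L+i) (p+a) ∨ W3 h h (L+j) (p+b) ∨ W3 h h (i+j) (a+b)) →
      W3 h h L p := fun L p i j hi hj hij _ H => W3_R2 (by omega) hi hj hij H
  refine eq_zero h m hm hh (W3 h h) base r2 ?_
  have h1 := weq hm hh (eq_three h m hm hh (W3 h h) base r2)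
  have e : h - 1 = 2 * m := by omega
  rwa [e] at h1

/-- **Two classes with equal odd sums `2 m + 1 ≥ 3`.** -/
theorem eq_odd_cut {m r : ℕ} (hm : 1 ≤ m) (ks : Fin r → ℕ) (J : Finset (Fin r))
    (hJ : ∑ i ∈ J, ks i = 2 * m + 1) (hJ' : ∑ i ∈ Jᶜ, ks i = 2 * m + 1) :
    ¬ Arrow (4 * m + 3) ks := by
  have h1 := Kill3.false_of_univ (h := 2 * m + 1) (l := 2 * m + 1) (l' := 2 * m + 1) (by omega)
    (kill3_of_W3 (W3_eq_odd hm rfl))
    (by rw [Nat.card_sum, Nat.card_fin, Nat.card_fin]; omega) ks J hJ hJ'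
  have e : 2 * (2 * m + 1) + 1 = 4 * m + 3 := by ring
  rwa [e] at h1

end Pool.Agent.Lib.MP_21a058_co.Odd
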