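import Pool.Agent.Lib.MP_21a058_co.Odd.Rule3
import Pool.Agent.Lib.MP_21a058_co.Odd.Gad

/-! Two equal odd parts `h = 2 m + 1`, edge-connectivity `2 h + 1`: an alive set of `h - 1` edges with
`m + 1` red edges is refutable. -/

set_option autoImplicit false

namespace Pool.Agent.Lib.MP_21a058_co.Odd

/-- The node rule in numbers. -/
theorem Kill3.num {h l : ℕ} {I J1 J2 J3 N1 N2 N3 : Type} [Finite J1] [Finite J2]
    [Finite J3] [Finite N1] [Finite N2] [Finite N3] {q : ℕ} (hq : 1 ≤ q) (hq' : q ≤ h)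
    (c1 : Nat.card J1 = h) (c2 : Nat.card J2 = q) (c3 : Nat.card J3 = h + 1 - q)
    (d1 : Nat.card N1 = h) (d2 : Nat.card N2 = q) (d3 : Nat.card N3 = h + 1 - q)
    (e : I ≃ J1 ⊕ (J2 ⊕ J3)) {B1 : (J1 ⊕ (N2 ⊕ N3) → Bool) → Prop}
    {B2 : (J2 ⊕ (N1 ⊕ N3) → Bool) → Prop} {B3 : (J3 ⊕ (N1 ⊕ N2) → Bool) → Prop}
    (k1 : Kill3 h l (J1 ⊕ (N2 ⊕ N3)) {x | ¬ B1 x}) (k2 : Kill3 h l (J2 ⊕ (N1 ⊕ N3)) {x | ¬ B2 x})
    (k3 : Kill3 h l (J3 ⊕ (N1 ⊕ N2)) {x | ¬ B3 x}) :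
    Kill3 h l I {x | ¬ ∃ (n1 : N1 → Bool) (n2 : N2 → Bool) (n3 : N3 → Bool),
      (l ≤ red (fun j => x (e.symm (Sum.inl j))) + (red (fun j => x (e.symm (Sum.inr (Sum.inl j)))) +
          red (fun j => x (e.symm (Sum.inr (Sum.inr j))))) ∧
        red (fun j => x (e.symm (Sum.inl j))) + (red (fun j => x (e.symm (Sum.inr (Sum.inl j)))) +
          red (fun j => x (e.symm (Sum.inr (Sum.inr j))))) ≤ l + 1) ∧
      (l ≤ red (fun j => x (e.symm (Sum.inl j))) + (red n2 + red n3) ∧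
        red (fun j => x (e.symm (Sum.inl j))) + (red n2 + red n3) ≤ l + 1) ∧
      (l ≤ red (fun j => x (e.symm (Sum.inr (Sum.inl j)))) + (red n1 + red n3) ∧
        red (fun j => x (e.symm (Sum.inr (Sum.inl j)))) + (red n1 + red n3) ≤ l + 1) ∧
      (l ≤ red (fun j => x (e.symm (Sum.inr (Sum.inr j)))) + (red n1 + red n2) ∧
        red (fun j => x (e.symm (Sum.inr (Sum.inr j)))) + (red n1 + red n2) ≤ l + 1) ∧
      (l ≤ red (fun j => x (e.symm (Sum.inr (Sum.inl j)))) +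
          red (fun j => x (e.symm (Sum.inr (Sum.inr j)))) + red n2 + red n3 ∧
        red (fun j => x (e.symm (Sum.inr (Sum.inl j)))) +
          red (fun j => x (e.symm (Sum.inr (Sum.inr j)))) + red n2 + red n3 ≤ l + 2) ∧
      B1 (Sum.elim (fun j => x (e.symm (Sum.inl j))) (Sum.elim n2 n3)) ∧
      B2 (Sum.elim (fun j => x (e.symm (Sum.inr (Sum.inl j)))) (Sum.elim n1 n3)) ∧
      B3 (Sum.elim (fun j => x (e.symm (Sum.inr (Sum.inr j)))) (Sum.elim n1 n2))} := by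
  refine Kill3.node I J1 J2 J3 N1 N2 N3 q hq hq' c1 c2 c3 d1 d2 d3 e _ _ _ _ k1.addBase k2.addBase
    k3.addBase fun x hx => ?_
  have f0 : red x = red (fun j => x (e.symm (Sum.inl j))) +
      (red (fun j => x (e.symm (Sum.inr (Sum.inl j)))) +
        red (fun j => x (e.symm (Sum.inr (Sum.inr j))))) :=
    (red_equiv e.symm x).symm.trans ((red_sum _).trans (congrArg _ (red_sum _)))
  by_cases h0 : red x = l ∨ red x = l + 1
  · right
    intro n1 n2 n3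
    by_contra hcon
    push Not at hcon
    obtain ⟨g1, g2, g3, g4, g5⟩ := hcon
    obtain ⟨g1, g1'⟩ := not_or.1 g1
    obtain ⟨g2, g2'⟩ := not_or.1 g2
    obtain ⟨g3, g3'⟩ := not_or.1 g3
    have f1 : red (Sum.elim (fun j => x (e.symm (Sum.inl j))) (Sum.elim n2 n3)) =
        red (fun j => x (e.symm (Sum.inl j))) + (red n2 + red n3) :=
      (red_sum _).trans (congrArg _ (red_sum _))
    have f2 : red (Sum.elim (fun j => x (e.symm (Sum.inr (Sum.inl j)))) (Sum.elim n1 n3)) =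
        red (fun j => x (e.symm (Sum.inr (Sum.inl j)))) + (red n1 + red n3) :=
      (red_sum _).trans (congrArg _ (red_sum _))
    have f3 : red (Sum.elim (fun j => x (e.symm (Sum.inr (Sum.inr j)))) (Sum.elim n1 n2)) =
        red (fun j => x (e.symm (Sum.inr (Sum.inr j)))) + (red n1 + red n2) :=
      (red_sum _).trans (congrArg _ (red_sum _))
    have f4 : red (fun j => x (e.symm (Sum.inr j))) =
        red (fun j => x (e.symm (Sum.inr (Sum.inl j)))) +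
        red (fun j => x (e.symm (Sum.inr (Sum.inr j)))) := red_sum _
    rw [f4] at g4 g5
    refine hx ⟨n1, n2, n3, by omega, ?_, ?_, ?_, ⟨g4, g5⟩, Classical.not_not.1 g1,
      Classical.not_not.1 g2, Classical.not_not.1 g3⟩
    · omega
    · omega
    · omega
  · exact Or.inl (not_or.1 h0)

theorem Kill3.triv (h l : ℕ) (I : Type) : Kill3 h l I {_x | ¬ True} :=
  (Kill3.empty h l I).mono fun _ hx => absurd trivial hx

theorem red_u (x : Unit → Bool) : red x = (x ()).toNat := by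
  rw [red_eq]
  unfold cn
  rw [Fintype.sum_unique]
  cases x default <;> simp

/-- The edges of an O-set `Q`: two of them are named. -/
abbrev QQ (Y : Type) : Type := Y ⊕ (Unit ⊕ Unit)

/-- The bundle: `A`, the edge over the vertex, the edge ending at the vertex, `Q`. -/
abbrev DD (A Y : Type) : Type := (A ⊕ Unit) ⊕ (Unit ⊕ QQ Y)

/-- Some structure over the bundle forces `G`. -/
def FD (h : ℕ) (A Y : Type) (G : (A → Bool) → Bool → Bool → (Y → Bool) → Bool → Bool → Prop) :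
    Prop :=
  Kill3 h h (DD A Y) {x | ¬ G (fun i => x (Sum.inl (Sum.inl i))) (x (Sum.inl (Sum.inr ())))
    (x (Sum.inr (Sum.inl ()))) (fun i => x (Sum.inr (Sum.inr (Sum.inl i))))
    (x (Sum.inr (Sum.inr (Sum.inr (Sum.inl ()))))) (x (Sum.inr (Sum.inr (Sum.inr (Sum.inr ())))))}

theorem FD.mono {h : ℕ} {A Y : Type}
    {G G' : (A → Bool) → Bool → Bool → (Y → Bool) → Bool → Bool → Prop}
    (hG : FD h A Y G) (hGG : ∀ a e e' y u v, G a e e' y u v → G' a e e' y u v) : FD h A Y G' :=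
  Kill3.mono hG fun _ hx hh => hx (hGG _ _ _ _ _ _ hh)

def e1 (A Y : Type) : DD A Y ≃ (A ⊕ Unit) ⊕ (Unit ⊕ (Unit ⊕ (Y ⊕ Unit))) where
  toFun p := match p with
    | Sum.inl (Sum.inl a) => Sum.inl (Sum.inl a)
    | Sum.inl (Sum.inr u) => Sum.inr (Sum.inr (Sum.inl u))
    | Sum.inr (Sum.inl u) => Sum.inl (Sum.inr u)
    | Sum.inr (Sum.inr (Sum.inl y)) => Sum.inr (Sum.inr (Sum.inr (Sum.inl y)))
    | Sum.inr (Sum.inr (Sum.inr (Sum.inl u))) => Sum.inr (Sum.inr (Sum.inr (Sum.inr u)))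
    | Sum.inr (Sum.inr (Sum.inr (Sum.inr u))) => Sum.inr (Sum.inl u)
  invFun p := match p with
    | Sum.inl (Sum.inl a) => Sum.inl (Sum.inl a)
    | Sum.inr (Sum.inr (Sum.inl u)) => Sum.inl (Sum.inr u)
    | Sum.inl (Sum.inr u) => Sum.inr (Sum.inl u)
    | Sum.inr (Sum.inr (Sum.inr (Sum.inl y))) => Sum.inr (Sum.inr (Sum.inl y))
    | Sum.inr (Sum.inr (Sum.inr (Sum.inr u))) => Sum.inr (Sum.inr (Sum.inr (Sum.inl u)))
    | Sum.inr (Sum.inl u) => Sum.inr (Sum.inr (Sum.inr (Sum.inr u)))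
  left_inv := by rintro ((a | u) | (u | (y | (u | u)))) <;> rfl
  right_inv := by rintro ((a | u) | (u | (u | (y | u)))) <;> rfl

def e2 (A Y : Type) : DD A Y ≃ (A ⊕ Unit) ⊕ (QQ Y ⊕ Unit) where
  toFun p := match p with
    | Sum.inl (Sum.inl a) => Sum.inl (Sum.inl a)
    | Sum.inl (Sum.inr u) => Sum.inr (Sum.inr u)
    | Sum.inr (Sum.inl u) => Sum.inl (Sum.inr u)
    | Sum.inr (Sum.inr y) => Sum.inr (Sum.inl y)
  invFun p := match p with
    | Sum.inl (Sum.inl a) => Sum.inl (Sum.inl a)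
    | Sum.inr (Sum.inr u) => Sum.inl (Sum.inr u)
    | Sum.inl (Sum.inr u) => Sum.inr (Sum.inl u)
    | Sum.inr (Sum.inl y) => Sum.inr (Sum.inr y)
  left_inv := by rintro ((a | u) | (u | y)) <;> rfl
  right_inv := by rintro ((a | u) | (y | u)) <;> rfl

def e3 (A Y : Type) : DD A Y ≃ (A ⊕ Unit) ⊕ ((Unit ⊕ (Y ⊕ Unit)) ⊕ Unit) where
  toFun p := match p with
    | Sum.inl a => Sum.inl a
    | Sum.inr (Sum.inl u) => Sum.inr (Sum.inl (Sum.inl u))
    | Sum.inr (Sum.inr (Sum.inl y)) => Sum.inr (Sum.inl (Sum.inr (Sum.inl y)))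
    | Sum.inr (Sum.inr (Sum.inr (Sum.inl u))) => Sum.inr (Sum.inr u)
    | Sum.inr (Sum.inr (Sum.inr (Sum.inr u))) => Sum.inr (Sum.inl (Sum.inr (Sum.inr u)))
  invFun p := match p with
    | Sum.inl a => Sum.inl a
    | Sum.inr (Sum.inl (Sum.inl u)) => Sum.inr (Sum.inl u)
    | Sum.inr (Sum.inl (Sum.inr (Sum.inl y))) => Sum.inr (Sum.inr (Sum.inl y))
    | Sum.inr (Sum.inr u) => Sum.inr (Sum.inr (Sum.inr (Sum.inl u)))
    | Sum.inr (Sum.inl (Sum.inr (Sum.inr u))) => Sum.inr (Sum.inr (Sum.inr (Sum.inr u)))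
  left_inv := by rintro (a | (u | (y | (u | u)))) <;> rfl
  right_inv := by rintro (a | ((u | (y | u)) | u)) <;> rfl

section

variable {h : ℕ} {A Y : Type} [Finite A] [Finite Y]

/-- The node with `q = 1`. -/
theorem FD.node1 (hA : Nat.card A + 1 = h) (hY : Nat.card Y + 2 = h)
    {G : (A → Bool) → Bool → Bool → (Y → Bool) → Bool → Bool → Prop} (hG : FD h A Y G)
    {B : Bool → Bool → Bool → Prop}
    (hB : Kill3 h h (Unit ⊕ (Fin h ⊕ (Unit ⊕ (Y ⊕ Unit)))) {x | ¬ B (x (Sum.inl ()))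
      (x (Sum.inr (Sum.inr (Sum.inl ())))) (x (Sum.inr (Sum.inr (Sum.inr (Sum.inr ())))))}) :
    FD h A Y (fun a e e' y u v => ∃ (f : Bool) (y' : Y → Bool) (u' v' : Bool) (r : ℕ),
      (h ≤ (red a + e.toNat) + (e'.toNat + (red y + (u.toNat + v.toNat))) ∧
        (red a + e.toNat) + (e'.toNat + (red y + (u.toNat + v.toNat))) ≤ h + 1) ∧
      (h ≤ (red a + e.toNat) + (v'.toNat + (f.toNat + (red y' + u'.toNat))) ∧
        (red a + e.toNat) + (v'.toNat + (f.toNat + (red y' + u'.toNat))) ≤ h + 1) ∧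
      (h ≤ e'.toNat + (r + (f.toNat + (red y' + u'.toNat))) ∧
        e'.toNat + (r + (f.toNat + (red y' + u'.toNat))) ≤ h + 1) ∧
      (h ≤ (red y + (u.toNat + v.toNat)) + (r + v'.toNat) ∧
        (red y + (u.toNat + v.toNat)) + (r + v'.toNat) ≤ h + 1) ∧
      (h ≤ e'.toNat + (red y + (u.toNat + v.toNat)) + v'.toNat + (f.toNat + (red y' + u'.toNat)) ∧
        e'.toNat + (red y + (u.toNat + v.toNat)) + v'.toNat + (f.toNat + (red y' + u'.toNat)) ≤
          h + 2) ∧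
      G a f e y' u' v' ∧ B e' f u') := by
  have hu : Nat.card Unit = 1 := Nat.card_unique
  have hh := Kill3.num (h := h) (l := h) (q := 1) (J1 := A ⊕ Unit) (J2 := Unit) (J3 := QQ Y)
    (N1 := Fin h) (N2 := Unit) (N3 := Unit ⊕ (Y ⊕ Unit)) le_rfl (by omega)
    (by rw [Nat.card_sum, hu, hA]) hu (by rw [Nat.card_sum, Nat.card_sum, hu]; omega)
    (Nat.card_fin h) hu (by rw [Nat.card_sum, Nat.card_sum, hu]; omega)
    (Equiv.refl (DD A Y)) (hG.transport (e1 A Y)) hB (Kill3.triv h h _)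
  refine Kill3.mono hh fun x hx hcon => hx ?_
  obtain ⟨n1, n2, n3, g0, g1, g2, g3, g4, b1, b2, -⟩ := hcon
  refine ⟨n3 (Sum.inl ()), fun i => n3 (Sum.inr (Sum.inl i)), n3 (Sum.inr (Sum.inr ())), n2 (),
    red n1, ?_⟩
  have r2 : red n2 = (n2 ()).toNat := red_u n2
  have r3 : red n3 = (n3 (Sum.inl ())).toNat + (red (fun i => n3 (Sum.inr (Sum.inl i))) +
      (n3 (Sum.inr (Sum.inr ()))).toNat) := by
    rw [red_sum, red_sum, red_u, red_u]
  have s1 : red (fun j : A ⊕ Unit => x ((Equiv.refl (DD A Y)).symm (Sum.inl j))) =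
      red (fun i => x (Sum.inl (Sum.inl i))) + (x (Sum.inl (Sum.inr ()))).toNat := by
    rw [red_sum, red_u]
    rfl
  have s2 : red (fun j : Unit => x ((Equiv.refl (DD A Y)).symm (Sum.inr (Sum.inl j)))) =
      (x (Sum.inr (Sum.inl ()))).toNat := red_u _
  have s3 : red (fun j : QQ Y => x ((Equiv.refl (DD A Y)).symm (Sum.inr (Sum.inr j)))) =
      red (fun i => x (Sum.inr (Sum.inr (Sum.inl i)))) +
        ((x (Sum.inr (Sum.inr (Sum.inr (Sum.inl ()))))).toNat +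
          (x (Sum.inr (Sum.inr (Sum.inr (Sum.inr ()))))).toNat) := by
    rw [red_sum, red_sum, red_u, red_u]
    rfl
  rw [s1, s2, s3] at g0
  rw [s1, r2, r3] at g1
  rw [s2, r3] at g2
  rw [s3, r2] at g3
  rw [s2, s3, r2, r3] at g4
  exact ⟨g0, g1, g2, g3, g4, b1, b2⟩

/-- The node with `q = h`. -/
theorem FD.nodeh (hA : Nat.card A + 1 = h) (hY : Nat.card Y + 2 = h)
    {G : (A → Bool) → Bool → Bool → (Y → Bool) → Bool → Bool → Prop} (hG : FD h A Y G)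
    {B : Bool → Bool → Bool → Prop}
    (hB : Kill3 h h ((Unit ⊕ (Y ⊕ Unit)) ⊕ (Fin h ⊕ Unit)) {x | ¬ B (x (Sum.inl (Sum.inl ())))
      (x (Sum.inr (Sum.inr ()))) (x (Sum.inl (Sum.inr (Sum.inr ()))))}) :
    FD h A Y (fun a e e' y u v => ∃ (f : Bool) (y' : Y → Bool) (u' v' : Bool) (r : ℕ),
      (h ≤ (red a + e.toNat) + ((e'.toNat + (red y + v.toNat)) + u.toNat) ∧
        (red a + e.toNat) + ((e'.toNat + (red y + v.toNat)) + u.toNat) ≤ h + 1) ∧
      (h ≤ (red a + e.toNat) + ((red y' + (u'.toNat + v'.toNat)) + f.toNat) ∧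
        (red a + e.toNat) + ((red y' + (u'.toNat + v'.toNat)) + f.toNat) ≤ h + 1) ∧
      (h ≤ (e'.toNat + (red y + v.toNat)) + (r + f.toNat) ∧
        (e'.toNat + (red y + v.toNat)) + (r + f.toNat) ≤ h + 1) ∧
      (h ≤ u.toNat + (r + (red y' + (u'.toNat + v'.toNat))) ∧
        u.toNat + (r + (red y' + (u'.toNat + v'.toNat))) ≤ h + 1) ∧
      (h ≤ (e'.toNat + (red y + v.toNat)) + u.toNat + (red y' + (u'.toNat + v'.toNat)) + f.toNat ∧
        (e'.toNat + (red y + v.toNat)) + u.toNat + (red y' + (u'.toNat + v'.toNat)) + f.toNat ≤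
          h + 2) ∧
      G a f e y' u' v' ∧ B e' f v) := by
  have hu : Nat.card Unit = 1 := Nat.card_unique
  have hh := Kill3.num (h := h) (l := h) (q := h) (J1 := A ⊕ Unit) (J2 := Unit ⊕ (Y ⊕ Unit))
    (J3 := Unit) (N1 := Fin h) (N2 := QQ Y) (N3 := Unit) (by omega) le_rfl
    (by rw [Nat.card_sum, hu, hA]) (by rw [Nat.card_sum, Nat.card_sum, hu]; omega)
    (by rw [hu]; omega) (Nat.card_fin h) (by rw [Nat.card_sum, Nat.card_sum, hu]; omega)
    (by rw [hu]; omega) (e3 A Y) (hG.transport (e2 A Y)) hB (Kill3.triv h h _)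
  refine Kill3.mono hh fun x hx hcon => hx ?_
  obtain ⟨n1, n2, n3, g0, g1, g2, g3, g4, b1, b2, -⟩ := hcon
  refine ⟨n3 (), fun i => n2 (Sum.inl i), n2 (Sum.inr (Sum.inl ())), n2 (Sum.inr (Sum.inr ())),
    red n1, ?_⟩
  have r3 : red n3 = (n3 ()).toNat := red_u n3
  have r2 : red n2 = red (fun i => n2 (Sum.inl i)) + ((n2 (Sum.inr (Sum.inl ()))).toNat +
      (n2 (Sum.inr (Sum.inr ()))).toNat) := by
    rw [red_sum, red_sum, red_u, red_u]
  have s1 : red (fun j : A ⊕ Unit => x ((e3 A Y).symm (Sum.inl j))) =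
      red (fun i => x (Sum.inl (Sum.inl i))) + (x (Sum.inl (Sum.inr ()))).toNat := by
    rw [red_sum, red_u]
    rfl
  have s2 : red (fun j : Unit ⊕ (Y ⊕ Unit) => x ((e3 A Y).symm (Sum.inr (Sum.inl j)))) =
      (x (Sum.inr (Sum.inl ()))).toNat + (red (fun i => x (Sum.inr (Sum.inr (Sum.inl i)))) +
        (x (Sum.inr (Sum.inr (Sum.inr (Sum.inr ()))))).toNat) := by
    rw [red_sum, red_sum, red_u, red_u]
    rfl
  have s3 : red (fun j : Unit => x ((e3 A Y).symm (Sum.inr (Sum.inr j)))) =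
      (x (Sum.inr (Sum.inr (Sum.inr (Sum.inl ()))))).toNat := red_u _
  rw [s1, s2, s3] at g0
  rw [s1, r2, r3] at g1
  rw [s2, r3] at g2
  rw [s3, r2] at g3
  rw [s2, s3, r2, r3] at g4
  exact ⟨g0, g1, g2, g3, g4, b1, b2⟩

end

def eT1 (h : ℕ) (Y : Type) : (Unit ⊕ (Unit ⊕ Unit)) ⊕ (Fin h ⊕ Y) ≃
    Unit ⊕ (Fin h ⊕ (Unit ⊕ (Y ⊕ Unit))) where
  toFun p := match p with
    | Sum.inl (Sum.inl u) => Sum.inl u
    | Sum.inl (Sum.inr (Sum.inl u)) => Sum.inr (Sum.inr (Sum.inl u))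
    | Sum.inl (Sum.inr (Sum.inr u)) => Sum.inr (Sum.inr (Sum.inr (Sum.inr u)))
    | Sum.inr (Sum.inl i) => Sum.inr (Sum.inl i)
    | Sum.inr (Sum.inr y) => Sum.inr (Sum.inr (Sum.inr (Sum.inl y)))
  invFun p := match p with
    | Sum.inl u => Sum.inl (Sum.inl u)
    | Sum.inr (Sum.inr (Sum.inl u)) => Sum.inl (Sum.inr (Sum.inl u))
    | Sum.inr (Sum.inr (Sum.inr (Sum.inr u))) => Sum.inl (Sum.inr (Sum.inr u))
    | Sum.inr (Sum.inl i) => Sum.inr (Sum.inl i)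
    | Sum.inr (Sum.inr (Sum.inr (Sum.inl y))) => Sum.inr (Sum.inr y)
  left_inv := by rintro ((u | (u | u)) | (i | y)) <;> rfl
  right_inv := by rintro (u | (i | (u | (y | u)))) <;> rfl

def eT2 (h : ℕ) (Y : Type) : (Unit ⊕ (Unit ⊕ Unit)) ⊕ (Fin h ⊕ Y) ≃
    (Unit ⊕ (Y ⊕ Unit)) ⊕ (Fin h ⊕ Unit) where
  toFun p := match p with
    | Sum.inl (Sum.inl u) => Sum.inl (Sum.inl u)
    | Sum.inl (Sum.inr (Sum.inl u)) => Sum.inr (Sum.inr u)
    | Sum.inl (Sum.inr (Sum.inr u)) => Sum.inl (Sum.inr (Sum.inr u))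
    | Sum.inr (Sum.inl i) => Sum.inr (Sum.inl i)
    | Sum.inr (Sum.inr y) => Sum.inl (Sum.inr (Sum.inl y))
  invFun p := match p with
    | Sum.inl (Sum.inl u) => Sum.inl (Sum.inl u)
    | Sum.inr (Sum.inr u) => Sum.inl (Sum.inr (Sum.inl u))
    | Sum.inl (Sum.inr (Sum.inr u)) => Sum.inl (Sum.inr (Sum.inr u))
    | Sum.inr (Sum.inl i) => Sum.inr (Sum.inl i)
    | Sum.inl (Sum.inr (Sum.inl y)) => Sum.inr (Sum.inr y)
  left_inv := by rintro ((u | (u | u)) | (i | y)) <;> rfl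
  right_inv := by rintro ((u | (y | u)) | (i | u)) <;> rfl

/-- Three alive edges are not all blue. -/
theorem triple {h : ℕ} {Y : Type} [Finite Y] (hY : Nat.card Y + 2 = h) (h3 : W3 h h 3 0) :
    Kill3 h h ((Unit ⊕ (Unit ⊕ Unit)) ⊕ (Fin h ⊕ Y)) {x | ¬ 1 ≤ (x (Sum.inl (Sum.inl ()))).toNat +
      ((x (Sum.inl (Sum.inr (Sum.inl ())))).toNat + (x (Sum.inl (Sum.inr (Sum.inr ())))).toNat)} := by
  have hu : Nat.card Unit = 1 := Nat.card_unique
  have h1 := h3 (Unit ⊕ (Unit ⊕ Unit)) (Fin h ⊕ Y) (by rw [Nat.card_sum, Nat.card_sum, hu])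
    (by rw [Nat.card_sum, Nat.card_sum, Nat.card_sum, hu, Nat.card_fin]; omega) ∅
    (Kill3.mono (Kill3.empty h h _) fun x hx => absurd hx (Set.notMem_empty _))
  refine Kill3.mono h1 fun x hx => Or.inr ?_
  rw [red_sum, red_sum, red_u, red_u, red_u]
  have hx1 : ¬ 1 ≤ (x (Sum.inl (Sum.inl ()))).toNat +
      ((x (Sum.inl (Sum.inr (Sum.inl ())))).toNat + (x (Sum.inl (Sum.inr (Sum.inr ())))).toNat) := hx
  omega

/-- **The chain.** -/
theorem weq {h m : ℕ} (hm : 1 ≤ m) (hh : h = 2 * m + 1) (h3 : W3 h h 3 0) :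
    W3 h h (h - 1) (m + 1) := by
  intro A R _ _ hA hR T hT
  have hu : Nat.card Unit = 1 := Nat.card_unique
  set Y := Fin (h - 2) with hYd
  have hA1 : Nat.card A + 1 = h := by omega
  have hY : Nat.card Y + 2 = h := by
    rw [hYd, Nat.card_fin]
    omega
  -- the tests
  have t1 := (triple (Y := Y) hY h3).transport (eT1 h Y)
  have t2 := (triple (Y := Y) hY h3).transport (eT2 h Y)
  have B1 : Kill3 h h (Unit ⊕ (Fin h ⊕ (Unit ⊕ (Y ⊕ Unit)))) {x | ¬ (fun a b c : Bool =>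
      1 ≤ a.toNat + (b.toNat + c.toNat)) (x (Sum.inl ()))
      (x (Sum.inr (Sum.inr (Sum.inl ())))) (x (Sum.inr (Sum.inr (Sum.inr (Sum.inr ())))))} := t1
  have B2 : Kill3 h h ((Unit ⊕ (Y ⊕ Unit)) ⊕ (Fin h ⊕ Unit)) {x | ¬ (fun a b c : Bool =>
      1 ≤ a.toNat + (b.toNat + c.toNat)) (x (Sum.inl (Sum.inl ())))
      (x (Sum.inr (Sum.inr ()))) (x (Sum.inl (Sum.inr (Sum.inr ()))))} := t2
  have L1 : Kill3 h h (Unit ⊕ (Fin h ⊕ (Unit ⊕ (Y ⊕ Unit)))) {x | ¬ (fun _ _ _ : Bool =>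
      True) (x (Sum.inl ()))
      (x (Sum.inr (Sum.inr (Sum.inl ())))) (x (Sum.inr (Sum.inr (Sum.inr (Sum.inr ())))))} :=
    Kill3.triv h h _
  have L2 : Kill3 h h ((Unit ⊕ (Y ⊕ Unit)) ⊕ (Fin h ⊕ Unit)) {x | ¬ (fun _ _ _ : Bool =>
      True) (x (Sum.inl (Sum.inl ())))
      (x (Sum.inr (Sum.inr ()))) (x (Sum.inl (Sum.inr (Sum.inr ()))))} :=
    Kill3.triv h h _
  -- the last vertex
  have g6 : FD h A Y (fun a _ _ _ _ _ => a ∉ T) := by
    obtain ⟨e⟩ : Nonempty (R ≃ Unit ⊕ (Unit ⊕ QQ Y)) := by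
      refine Finite.card_eq.1 ?_
      rw [Nat.card_sum, Nat.card_sum, Nat.card_sum, Nat.card_sum, hu]
      omega
    refine Kill3.mono (hT.transport ((Equiv.sumCongr (Equiv.refl A) e).trans
      (Equiv.sumAssoc A Unit (Unit ⊕ QQ Y)).symm)) fun x hx => ?_
    exact Classical.not_not.1 hx
  have g5 : FD h A Y (fun a e _ _ _ _ => a ∉ T ∧ (red a = m + 1 → e.toNat = 0)) := by
    refine (FD.node1 hA1 hY g6 (B := fun _ _ _ => True) L1).mono ?_
    rintro a e e' y u v ⟨f, y', u', v', r, i0, i1, i2, i3, i4, b1, -⟩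
    have := e.toNat_le
    exact ⟨b1, fun ha => by omega⟩
  have g4 : FD h A Y (fun a e e' _ _ v => a ∉ T ∧ (red a = m + 1 → e.toNat = 0 ∧
      (e'.toNat = 0 → v.toNat = 1))) := by
    refine (FD.nodeh hA1 hY g5
      (B := fun a b c => 1 ≤ a.toNat + (b.toNat + c.toNat)) B2).mono ?_
    rintro a e e' y u v ⟨f, y', u', v', r, i0, i1, i2, i3, i4, ⟨b1, b2⟩, c⟩
    have := e.toNat_le
    have := v.toNat_le
    refine ⟨b1, fun ha => ?_⟩
    have b3 := b2 ha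
    omega
  have g3 : FD h A Y (fun a e e' y u v => a ∉ T ∧ (red a = m + 1 → e.toNat = 0 ∧
      (e'.toNat = 0 → red y + (u.toNat + v.toNat) = m))) := by
    refine (FD.node1 hA1 hY g4 (B := fun _ _ _ => True) L1).mono ?_
    rintro a e e' y u v ⟨f, y', u', v', r, i0, i1, i2, i3, i4, ⟨b1, b2⟩, -⟩
    have := e.toNat_le
    refine ⟨b1, fun ha => ?_⟩
    have b3 := b2 ha
    omega
  have g2 : FD h A Y (fun a e e' y u v => a ∉ T ∧ (red a = m + 1 → e.toNat = 0 ∧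
      (e'.toNat = 0 → red y + (u.toNat + v.toNat) = m + 1))) := by
    refine (FD.node1 hA1 hY g3 (B := fun _ _ _ => True) L1).mono ?_
    rintro a e e' y u v ⟨f, y', u', v', r, i0, i1, i2, i3, i4, ⟨b1, b2⟩, -⟩
    have := e.toNat_le
    refine ⟨b1, fun ha => ?_⟩
    have b3 := b2 ha
    omega
  have g1 : FD h A Y (fun a e e' _ u _ => a ∉ T ∧ (red a = m + 1 → e.toNat = 0 ∧
      (e'.toNat = 0 → u.toNat = 0))) := by
    refine (FD.nodeh hA1 hY g2 (B := fun _ _ _ => True) L2).mono ?_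
    rintro a e e' y u v ⟨f, y', u', v', r, i0, i1, i2, i3, i4, ⟨b1, b2⟩, -⟩
    have := e.toNat_le
    have := u.toNat_le
    refine ⟨b1, fun ha => ?_⟩
    have b3 := b2 ha
    omega
  have g0 : FD h A Y (fun a e e' _ _ _ => a ∉ T ∧ (red a = m + 1 → e.toNat = 0 ∧
      e'.toNat = 1)) := by
    refine (FD.node1 hA1 hY g1
      (B := fun a b c => 1 ≤ a.toNat + (b.toNat + c.toNat)) B1).mono ?_
    rintro a e e' y u v ⟨f, y', u', v', r, i0, i1, i2, i3, i4, ⟨b1, b2⟩, c⟩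
    have := e.toNat_le
    have := e'.toNat_le
    refine ⟨b1, fun ha => ?_⟩
    have b3 := b2 ha
    omega
  have gm : FD h A Y (fun a _ _ _ _ _ => a ∉ T ∧ red a ≠ m + 1) := by
    refine (FD.node1 hA1 hY g0 (B := fun _ _ _ => True) L1).mono ?_
    rintro a e e' y u v ⟨f, y', u', v', r, i0, i1, i2, i3, i4, ⟨b1, b2⟩, -⟩
    have := e.toNat_le
    refine ⟨b1, fun ha => ?_⟩
    have b3 := b2 ha
    omega
  obtain ⟨e⟩ : Nonempty (R ≃ Unit ⊕ (Unit ⊕ QQ Y)) := by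
    refine Finite.card_eq.1 ?_
    rw [Nat.card_sum, Nat.card_sum, Nat.card_sum, Nat.card_sum, hu]
    omega
  refine Kill3.mono (Kill3.transport gm (((Equiv.sumCongr (Equiv.refl A) e).trans
    (Equiv.sumAssoc A Unit (Unit ⊕ QQ Y)).symm).symm)) fun x hx => ?_
  intro hcon
  rcases hx with hx | hx
  · exact hcon.1 hx
  · exact hcon.2 hx

end Pool.Agent.Lib.MP_21a058_co.Odd
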