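import Pool.Agent.Lib.MP_21a058_co.Odd.Rule
import Pool.Agent.Lib.MP_21a058_co.Odd.Arith
import Pool.Agent.Lib.MP_21a058_co.Odd.Gad

/-! Two classes with an odd sum: everything is killable, so `2K ↦ (l, l')` fails. -/

namespace Pool.Agent.Lib.MP_21a058_co.Odd

open Finset Pool.Agent.Lib.MP_21a058_co

theorem kill_of_W {K l : ℕ} (h : W K l 0 0) : Kill K l (Fin 0 ⊕ Fin (2 * K)) Set.univ := by
  have h1 := h (Fin 0) (Fin (2 * K)) (Nat.card_fin 0) (by rw [Nat.card_fin, Nat.card_fin]; omega) ∅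
    ((Kill.empty K l _).mono (by intro x hx; exact absurd hx (Set.notMem_empty _)))
  refine h1.mono ?_
  intro x _
  right
  have := red_le (fun f : Fin 0 => x (Sum.inl f))
  rw [Nat.card_fin] at this
  omega

theorem kill_univ {K l : ℕ} (hl : 2 ≤ l) (hK : 2 * (l / 2) + 2 ≤ K) :
    Kill K l (Fin 0 ⊕ Fin (2 * K)) Set.univ := by
  apply kill_of_W
  apply arith K (l / 2) (by omega) hK (W K l)
  · intro L p hL hp h
    apply W_base hL
    rcases h with h | h
    · exact Or.inl h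
    · right; omega
  · intro L p i j hi hj hij _ h
    exact W_R2 hi hj hij h

/-- From a kill to the failure of the arrow. -/
theorem not_arrow_of_W {K l l' r : ℕ} (hK : 1 ≤ K) (hl : l + l' + 1 = 2 * K) (hW : W K l 0 0)
    (ks : Fin r → ℕ) (J : Finset (Fin r)) (hJ : ∑ i ∈ J, ks i = l) (hJ' : ∑ i ∈ Jᶜ, ks i = l') :
    ¬ Arrow (2 * K) ks :=
  Kill.false_of_univ hK hl (kill_of_W hW)
    (by rw [Nat.card_sum, Nat.card_fin, Nat.card_fin]; omega) ks J hJ hJ'

theorem odd_cut {K l l' r : ℕ} (hl2 : 2 ≤ l) (hll : l < l') (hl : l + l' + 1 = 2 * K)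
    (hodd : Odd l ∨ l + 3 ≤ l') (ks : Fin r → ℕ) (J : Finset (Fin r)) (hJ : ∑ i ∈ J, ks i = l)
    (hJ' : ∑ i ∈ Jᶜ, ks i = l') : ¬ Arrow (2 * K) ks := by
  refine Kill.false_of_univ (by omega) hl (kill_univ hl2 ?_)
    (by rw [Nat.card_sum, Nat.card_fin, Nat.card_fin]; omega) ks J hJ hJ'
  rcases hodd with h | h
  · obtain ⟨q, hq⟩ := h
    omega
  · omega

end Pool.Agent.Lib.MP_21a058_co.Odd
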