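import Pool.Agent.Lib.MP_21a058_co.Odd.Rule5
import Pool.Agent.Lib.MP_21a058_co.Odd.Gad3

/-! Even sums, two even classes. -/

namespace Pool.Agent.Lib.MP_21a058_co.Odd

open Finset Pool.Agent.Lib.MP_21a058_co

theorem ee_cut {m m' r : ℕ} (hm : 1 ≤ m) (hmm : m < m') (ks : Fin r → ℕ) (J : Finset (Fin r))
    (hJ : ∑ i ∈ J, ks i = 2 * m) (hJ' : ∑ i ∈ Jᶜ, ks i = 2 * m') :
    ¬ Arrow (2 * (m + m') + 1) ks :=
  Kill3.false_of_univ (h := m + m') (l := 2 * m) (l' := 2 * m') (by ring)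
    (EE.kill_univ hm (by omega)) (by rw [Nat.card_sum, Nat.card_fin, Nat.card_fin]; omega)
    ks J hJ hJ'

end Pool.Agent.Lib.MP_21a058_co.Odd
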