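import Pool.Agent.Lib.MP_21a058_co.Odd.Group

/-! From two classes with different sums to all tuples but `(l, l)`. -/

set_option autoImplicit false

namespace Pool.Agent.Lib.MP_21a058_co.Odd

open Finset Pool.Agent.Lib.MP_21a058_co

/-- One part against the rest, if they differ. -/
theorem single_ne (r : ℕ) (ks : Fin r → ℕ)
    (cut : ∀ J : Finset (Fin r), 3 ≤ ∑ l ∈ J, ks l → ∑ l ∈ J, ks l < ∑ l ∈ Jᶜ, ks l →
      ¬ Arrow (∑ l, ks l + 1) ks)
    (l : Fin r) (h3 : 3 ≤ ks l) (h4 : ks l + 3 ≤ ∑ m, ks m) (hne : 2 * ks l ≠ ∑ m, ks m) :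
    ¬ Arrow (∑ m, ks m + 1) ks := by
  classical
  have e1 : ∑ m ∈ ({l} : Finset (Fin r)), ks m = ks l := sum_singleton _ _
  have e2 := sum_add_sum_compl ({l} : Finset (Fin r)) ks
  have e3 : ∑ m ∈ (({l} : Finset (Fin r))ᶜ)ᶜ, ks m = ks l := by rw [compl_compl, e1]
  rw [e1] at e2
  rcases Nat.lt_or_ge (ks l) (∑ m ∈ ({l} : Finset (Fin r))ᶜ, ks m) with h | h
  · exact cut {l} (by rw [e1]; exact h3) (by rw [e1]; exact h)
  · exact cut ({l} : Finset (Fin r))ᶜ (by omega) (by rw [e3]; omega)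

/-- All tuples with two positive parts, unless these are all the positive parts and equal. -/
theorem group_ne (r : ℕ) (ks : Fin r → ℕ)
    (cut : ∀ J : Finset (Fin r), 3 ≤ ∑ l ∈ J, ks l → ∑ l ∈ J, ks l < ∑ l ∈ Jᶜ, ks l →
      ¬ Arrow (∑ l, ks l + 1) ks)
    (k : ℕ) (i j : Fin r) (hij : i ≠ j) (hi : 1 ≤ ks i) (hj : 1 ≤ ks j)
    (hex : ¬ (3 ≤ ks i ∧ ks i = ks j ∧ ks i + ks j = ∑ l, ks l)) (h : Arrow k ks) :
    ∑ l, ks l + 2 ≤ k := by
  classical
  rcases Nat.lt_or_ge 2 (ks i) with hi3 | hi3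
  · rcases Nat.lt_or_ge 2 (ks j) with hj3 | hj3
    · by_contra hlt
      push Not at hlt
      have hA : Arrow (∑ l, ks l + 1) ks := arrow_mono (by omega) h
      have hp : ks i + ks j ≤ ∑ l, ks l := by
        have := sum_le_sum_of_subset (f := ks) (subset_univ ({i, j} : Finset (Fin r)))
        rwa [sum_pair hij] at this
      by_cases h1 : 2 * ks i = ∑ l, ks l
      · by_cases h2 : 2 * ks j = ∑ l, ks l
        · exact hex ⟨hi3, by omega, by omega⟩
        · exact single_ne r ks cut j hj3 (by omega) h2 hA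
      · exact single_ne r ks cut i hi3 (by omega) h1 hA
    · exact small_part k r ks j i hij.symm hj hj3 hi h
  · exact small_part k r ks i j hij hi hi3 hj h

end Pool.Agent.Lib.MP_21a058_co.Odd
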