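import Pool.Agent.Lib.MP_21a058_co.Odd.Def

/-! The middle case `K = 2m + 1`: two red edges that stay alive are refutable. -/

set_option autoImplicit false

namespace Pool.Agent.Lib.MP_21a058_co.Odd

/-- Some structure over `I` forces `A` on every good colouring. -/
def Fo (K l : ℕ) (I : Type) (A : (I → Bool) → Prop) : Prop := Kill K l I {x | ¬ A x}

theorem Fo.mono {K l : ℕ} {I : Type} {A B : (I → Bool) → Prop} (h : Fo K l I A)
    (hAB : ∀ x, A x → B x) : Fo K l I B :=
  Kill.mono h fun _ hx hA => hx (hAB _ hA)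

theorem Fo.transport {K l : ℕ} {I J : Type} {A : (I → Bool) → Prop} (h : Fo K l I A)
    (e : I ≃ J) : Fo K l J (fun y => A (fun i => y (e i))) :=
  Kill.transport h e

theorem Fo.leaf (K l : ℕ) (I : Type) : Fo K l I (fun x => red x = l ∨ red x = l + 1) :=
  Kill.leaf I _ fun _ hx => not_or.1 hx

theorem Fo.info {K l : ℕ} {I : Type} {A : (I → Bool) → Prop} (h : Fo K l I A) :
    Fo K l I (fun x => (red x = l ∨ red x = l + 1) ∧ A x) := by
  unfold Fo at h ⊢
  cases h with
  | leaf _ _ h =>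
    refine Kill.leaf I _ fun x hx => ?_
    by_cases hA : A x
    · exact not_or.1 fun h1 => hx ⟨h1, hA⟩
    · exact h x hA
  | node _ J1 J2 h1 h2 e A1 A2 _ k1 k2 h =>
    refine Kill.node I J1 J2 h1 h2 e A1 A2 _ k1 k2 fun x hx => ?_
    by_cases hA : A x
    · exact Or.inl (not_or.1 fun h1 => hx ⟨h1, hA⟩)
    · exact h x hA

theorem Fo.node {K l : ℕ} {I J1 J2 N : Type} [Finite N] (h1 : Nat.card J1 = K)
    (h2 : Nat.card J2 = K) (h3 : Nat.card N = K) (e : I ≃ J1 ⊕ J2)
    {A : (J1 ⊕ N → Bool) → Prop} {B : (J2 ⊕ N → Bool) → Prop}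
    (hA : Fo K l (J1 ⊕ N) A) (hB : Fo K l (J2 ⊕ N) B) :
    Fo K l I (fun x => (red x = l ∨ red x = l + 1) ∧ ∃ n : N → Bool,
      ((red (Sum.elim (fun j => x (e.symm (Sum.inl j))) n) = l ∨
        red (Sum.elim (fun j => x (e.symm (Sum.inl j))) n) = l + 1) ∧
        A (Sum.elim (fun j => x (e.symm (Sum.inl j))) n)) ∧
      ((red (Sum.elim (fun j => x (e.symm (Sum.inr j))) n) = l ∨
        red (Sum.elim (fun j => x (e.symm (Sum.inr j))) n) = l + 1) ∧
        B (Sum.elim (fun j => x (e.symm (Sum.inr j))) n))) := by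
  obtain ⟨eN⟩ : Nonempty (N ≃ Fin K) := ⟨Finite.equivFinOfCardEq h3⟩
  have kA := hA.info.transport (Equiv.sumCongr (Equiv.refl J1) eN)
  have kB := hB.info.transport (Equiv.sumCongr (Equiv.refl J2) eN)
  refine Kill.node I J1 J2 h1 h2 e _ _ _ kA kB fun x hx => ?_
  by_cases hg : red x = l ∨ red x = l + 1
  · right
    intro n
    by_contra hcon
    obtain ⟨c1, c2⟩ := not_or.1 hcon
    refine hx ⟨hg, fun i => n (eN i), ?_, ?_⟩
    · have c3 := Classical.not_not.1 c1
      have : (fun i => (Sum.elim (fun j => x (e.symm (Sum.inl j))) n : J1 ⊕ Fin K → Bool)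
          ((Equiv.sumCongr (Equiv.refl J1) eN) i)) =
          Sum.elim (fun j => x (e.symm (Sum.inl j))) fun i => n (eN i) := by
        funext i
        rcases i with i | i <;> rfl
      beta_reduce at c3
      rw [this] at c3
      exact c3
    · have c3 := Classical.not_not.1 c2
      have : (fun i => (Sum.elim (fun j => x (e.symm (Sum.inr j))) n : J2 ⊕ Fin K → Bool)
          ((Equiv.sumCongr (Equiv.refl J2) eN) i)) =
          Sum.elim (fun j => x (e.symm (Sum.inr j))) fun i => n (eN i) := by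
        funext i
        rcases i with i | i <;> rfl
      beta_reduce at c3
      rw [this] at c3
      exact c3
  · exact Or.inl (not_or.1 hg)

/-- The node rule in numbers. -/
theorem Fo.num {K m : ℕ} {I J1 J2 N : Type} [Finite I] [Finite J1] [Finite J2] [Finite N]
    (h1 : Nat.card J1 = K)
    (h2 : Nat.card J2 = K) (h3 : Nat.card N = K) (e : I ≃ J1 ⊕ J2)
    {A : (J1 ⊕ N → Bool) → Prop} {B : (J2 ⊕ N → Bool) → Prop}
    (hA : Fo K (2 * m) (J1 ⊕ N) A) (hB : Fo K (2 * m) (J2 ⊕ N) B) :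
    Fo K (2 * m) I (fun x => ∃ n : N → Bool,
      (2 * m ≤ red (fun j => x (e.symm (Sum.inl j))) + red (fun j => x (e.symm (Sum.inr j))) ∧
        red (fun j => x (e.symm (Sum.inl j))) + red (fun j => x (e.symm (Sum.inr j))) ≤
          2 * m + 1) ∧
      (2 * m ≤ red (fun j => x (e.symm (Sum.inl j))) + red n ∧
        red (fun j => x (e.symm (Sum.inl j))) + red n ≤ 2 * m + 1) ∧
      (2 * m ≤ red (fun j => x (e.symm (Sum.inr j))) + red n ∧
        red (fun j => x (e.symm (Sum.inr j))) + red n ≤ 2 * m + 1) ∧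
      A (Sum.elim (fun j => x (e.symm (Sum.inl j))) n) ∧
      B (Sum.elim (fun j => x (e.symm (Sum.inr j))) n)) := by
  refine (Fo.node h1 h2 h3 e hA hB).mono ?_
  rintro x ⟨g0, n, ⟨g1, hA'⟩, g2, hB'⟩
  have r0 : red x = red (fun j => x (e.symm (Sum.inl j))) +
      red (fun j => x (e.symm (Sum.inr j))) :=
    (red_equiv e.symm x).symm.trans (red_sum _)
  have r1 : red (Sum.elim (fun j => x (e.symm (Sum.inl j))) n) =
      red (fun j => x (e.symm (Sum.inl j))) + red n := red_sum _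
  have r2 : red (Sum.elim (fun j => x (e.symm (Sum.inr j))) n) =
      red (fun j => x (e.symm (Sum.inr j))) + red n := red_sum _
  exact ⟨n, by omega, by omega, by omega, hA', hB'⟩

/-- Bundles. -/
abbrev Q2 : Type := Unit ⊕ Unit
abbrev EE (E : Type) : Type := E ⊕ Unit
abbrev NN (E : Type) : Type := EE E ⊕ Q2

theorem red_unit (x : Unit → Bool) : red x ≤ 1 := by
  have := red_le x
  rwa [Nat.card_eq_fintype_card, Fintype.card_unit] at this

def eA (E : Type) : NN E ⊕ NN E ≃ NN E ⊕ NN E where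
  toFun p := match p with
    | Sum.inl (Sum.inl (Sum.inl i)) => Sum.inr (Sum.inl (Sum.inl i))
    | Sum.inl (Sum.inl (Sum.inr i)) => Sum.inl (Sum.inr (Sum.inl i))
    | Sum.inl (Sum.inr (Sum.inl i)) => Sum.inl (Sum.inr (Sum.inr i))
    | Sum.inl (Sum.inr (Sum.inr i)) => Sum.inr (Sum.inl (Sum.inr i))
    | Sum.inr (Sum.inl i) => Sum.inl (Sum.inl i)
    | Sum.inr (Sum.inr i) => Sum.inr (Sum.inr i)
  invFun p := match p with
    | Sum.inr (Sum.inl (Sum.inl i)) => Sum.inl (Sum.inl (Sum.inl i))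
    | Sum.inl (Sum.inr (Sum.inl i)) => Sum.inl (Sum.inl (Sum.inr i))
    | Sum.inl (Sum.inr (Sum.inr i)) => Sum.inl (Sum.inr (Sum.inl i))
    | Sum.inr (Sum.inl (Sum.inr i)) => Sum.inl (Sum.inr (Sum.inr i))
    | Sum.inl (Sum.inl i) => Sum.inr (Sum.inl i)
    | Sum.inr (Sum.inr i) => Sum.inr (Sum.inr i)
  left_inv := by rintro (((i | i) | (i | i)) | (i | i)) <;> rfl
  right_inv := by rintro ((i | (i | i)) | ((i | i) | i)) <;> rfl

def eB (E : Type) : NN E ⊕ NN E ≃ NN E ⊕ NN E where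
  toFun p := match p with
    | Sum.inl (Sum.inl i) => Sum.inr (Sum.inl i)
    | Sum.inl (Sum.inr (Sum.inl i)) => Sum.inl (Sum.inr (Sum.inl i))
    | Sum.inl (Sum.inr (Sum.inr i)) => Sum.inr (Sum.inr (Sum.inl i))
    | Sum.inr (Sum.inl i) => Sum.inl (Sum.inl i)
    | Sum.inr (Sum.inr (Sum.inl i)) => Sum.inl (Sum.inr (Sum.inr i))
    | Sum.inr (Sum.inr (Sum.inr i)) => Sum.inr (Sum.inr (Sum.inr i))
  invFun p := match p with
    | Sum.inr (Sum.inl i) => Sum.inl (Sum.inl i)
    | Sum.inl (Sum.inr (Sum.inl i)) => Sum.inl (Sum.inr (Sum.inl i))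
    | Sum.inr (Sum.inr (Sum.inl i)) => Sum.inl (Sum.inr (Sum.inr i))
    | Sum.inl (Sum.inl i) => Sum.inr (Sum.inl i)
    | Sum.inl (Sum.inr (Sum.inr i)) => Sum.inr (Sum.inr (Sum.inl i))
    | Sum.inr (Sum.inr (Sum.inr i)) => Sum.inr (Sum.inr (Sum.inr i))
  left_inv := by rintro ((i | (i | i)) | (i | (i | i))) <;> rfl
  right_inv := by rintro ((i | (i | i)) | (i | (i | i))) <;> rfl

def eR (E F : Type) : (EE E ⊕ F) ⊕ NN E ≃ NN E ⊕ (EE E ⊕ F) where
  toFun p := match p with
    | Sum.inl (Sum.inl i) => Sum.inl (Sum.inl i)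
    | Sum.inl (Sum.inr i) => Sum.inr (Sum.inr i)
    | Sum.inr (Sum.inl i) => Sum.inr (Sum.inl i)
    | Sum.inr (Sum.inr i) => Sum.inl (Sum.inr i)
  invFun p := match p with
    | Sum.inl (Sum.inl i) => Sum.inl (Sum.inl i)
    | Sum.inr (Sum.inr i) => Sum.inl (Sum.inr i)
    | Sum.inr (Sum.inl i) => Sum.inr (Sum.inl i)
    | Sum.inl (Sum.inr i) => Sum.inr (Sum.inr i)
  left_inv := by rintro ((i | i) | (i | i)) <;> rfl
  right_inv := by rintro ((i | i) | (i | i)) <;> rfl

section

variable {K m : ℕ} {E F : Type} [Finite E] [Finite F]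

omit [Finite F] in
theorem card_NN (hE : Nat.card E + 3 = K) : Nat.card (NN E) = K := by
  have hu : Nat.card Unit = 1 := Nat.card_unique
  simp only [NN, EE, Q2, Nat.card_sum, hu]
  omega

theorem card_EF (hE : Nat.card E + 3 = K) (hF : Nat.card F = 2) :
    Nat.card (EE E ⊕ F) = K := by
  have hu : Nat.card Unit = 1 := Nat.card_unique
  simp only [EE, Nat.card_sum, hu]
  omega

theorem alive (hE : Nat.card E + 3 = K) (hW : 2 ≤ m → W K (2 * m) (K - 2) (m - 2)) :
    Fo K (2 * m) (NN E ⊕ NN E) (fun x => red (fun i => x (Sum.inl (Sum.inl i))) + 2 ≠ m) := by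
  rcases Nat.lt_or_ge m 2 with h | h
  · refine Kill.mono (Kill.empty K (2 * m) _) fun x hx => ?_
    exact absurd hx (by
      intro h1
      exact h1 (by omega))
  · have h1 := hW h (EE E) (Q2 ⊕ NN E)
      (by
        have hu : Nat.card Unit = 1 := Nat.card_unique
        simp only [EE, Nat.card_sum, hu]
        omega)
      (by
        have hu : Nat.card Unit = 1 := Nat.card_unique
        simp only [NN, EE, Q2, Nat.card_sum, hu]
        omega) ∅
      (Kill.mono (Kill.empty K (2 * m) _) fun x hx => absurd hx (Set.notMem_empty _))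
    have h2 := h1.transport (Equiv.sumAssoc (EE E) Q2 (NN E)).symm
    refine Kill.mono h2 fun x hx => Or.inr ?_
    have hx1 := Classical.not_not.1 hx
    show red (fun i : EE E => x (Sum.inl (Sum.inl i))) = m - 2
    beta_reduce at hx1
    omega

theorem testA (hE : Nat.card E + 3 = K) (hW : 2 ≤ m → W K (2 * m) (K - 2) (m - 2)) :
    Fo K (2 * m) (NN E ⊕ NN E) (fun x =>
      (m ≤ red (fun i => x (Sum.inr (Sum.inl i))) + (red (fun i => x (Sum.inl (Sum.inl (Sum.inr i))))
        + red (fun i => x (Sum.inl (Sum.inr (Sum.inl i))))) ∧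
      red (fun i => x (Sum.inr (Sum.inl i))) + (red (fun i => x (Sum.inl (Sum.inl (Sum.inr i))))
        + red (fun i => x (Sum.inl (Sum.inr (Sum.inl i))))) ≤ m + 1) ∧
      (m ≤ red (fun i => x (Sum.inl (Sum.inl (Sum.inl i)))) +
        red (fun i => x (Sum.inl (Sum.inr (Sum.inr i)))) + red (fun i => x (Sum.inr (Sum.inr i))) ∧
      red (fun i => x (Sum.inl (Sum.inl (Sum.inl i)))) +
        red (fun i => x (Sum.inl (Sum.inr (Sum.inr i)))) + red (fun i => x (Sum.inr (Sum.inr i)))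
        ≤ m + 1) ∧
      red (fun i => x (Sum.inr (Sum.inl i))) + 2 ≠ m) := by
  refine (Fo.num (card_NN hE) (card_NN hE) (card_NN hE) (eA E) (alive hE hW)
    (Fo.leaf K (2 * m) (NN E ⊕ NN E))).mono ?_
  rintro x ⟨n, g1, g2, g3, hA, -⟩
  have r1 : red (fun j => x ((eA E).symm (Sum.inl j))) = red (fun i => x (Sum.inr (Sum.inl i))) +
      (red (fun i => x (Sum.inl (Sum.inl (Sum.inr i)))) +
        red (fun i => x (Sum.inl (Sum.inr (Sum.inl i))))) :=
    (red_sum _).trans (congrArg _ (red_sum _))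
  have r2 : red (fun j => x ((eA E).symm (Sum.inr j))) =
      red (fun i => x (Sum.inl (Sum.inl (Sum.inl i)))) +
        red (fun i => x (Sum.inl (Sum.inr (Sum.inr i)))) + red (fun i => x (Sum.inr (Sum.inr i))) :=
    (red_sum _).trans (congrArg (· + _) (red_sum _))
  have h1 : red (fun i => x (Sum.inr (Sum.inl i))) + 2 ≠ m := hA
  exact ⟨by omega, by omega, h1⟩

theorem testB (hE : Nat.card E + 3 = K) (hW : 2 ≤ m → W K (2 * m) (K - 2) (m - 2)) :
    Fo K (2 * m) (NN E ⊕ NN E) (fun x =>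
      (m ≤ red (fun i => x (Sum.inr (Sum.inl i))) + (red (fun i => x (Sum.inl (Sum.inr (Sum.inl i))))
        + red (fun i => x (Sum.inr (Sum.inr (Sum.inl i))))) ∧
      red (fun i => x (Sum.inr (Sum.inl i))) + (red (fun i => x (Sum.inl (Sum.inr (Sum.inl i))))
        + red (fun i => x (Sum.inr (Sum.inr (Sum.inl i))))) ≤ m + 1) ∧
      (m ≤ red (fun i => x (Sum.inl (Sum.inl i))) + (red (fun i => x (Sum.inl (Sum.inr (Sum.inr i))))
        + red (fun i => x (Sum.inr (Sum.inr (Sum.inr i))))) ∧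
      red (fun i => x (Sum.inl (Sum.inl i))) + (red (fun i => x (Sum.inl (Sum.inr (Sum.inr i))))
        + red (fun i => x (Sum.inr (Sum.inr (Sum.inr i))))) ≤ m + 1) ∧
      red (fun i => x (Sum.inr (Sum.inl i))) + 2 ≠ m ∧
      red (fun i => x (Sum.inl (Sum.inl i))) + 2 ≠ m) := by
  refine (Fo.num (card_NN hE) (card_NN hE) (card_NN hE) (eB E) (alive hE hW)
    (alive hE hW)).mono ?_
  rintro x ⟨n, g1, g2, g3, hA, hB⟩
  have r1 : red (fun j => x ((eB E).symm (Sum.inl j))) = red (fun i => x (Sum.inr (Sum.inl i))) +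
      (red (fun i => x (Sum.inl (Sum.inr (Sum.inl i)))) +
        red (fun i => x (Sum.inr (Sum.inr (Sum.inl i))))) :=
    (red_sum _).trans (congrArg _ (red_sum _))
  have r2 : red (fun j => x ((eB E).symm (Sum.inr j))) =
      red (fun i => x (Sum.inl (Sum.inl i))) + (red (fun i => x (Sum.inl (Sum.inr (Sum.inr i)))) +
        red (fun i => x (Sum.inr (Sum.inr (Sum.inr i))))) :=
    (red_sum _).trans (congrArg _ (red_sum _))
  have h1 : red (fun i => x (Sum.inr (Sum.inl i))) + 2 ≠ m := hA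
  have h2 : red (fun i => x (Sum.inl (Sum.inl i))) + 2 ≠ m := hB
  exact ⟨by omega, by omega, h1, h2⟩

theorem w22 (hm : 1 ≤ m) (hK : K = 2 * m + 1)
    (hW : 2 ≤ m → W K (2 * m) (K - 2) (m - 2)) : W K (2 * m) 2 2 := by
  intro F R _ _ hF hR T hT
  set E := Fin (K - 3) with hEd
  have hE : Nat.card E + 3 = K := by
    rw [hEd, Nat.card_fin]
    omega
  have cN := card_NN hE
  have cF := card_EF hE hF
  -- the last vertex
  have h4 : Fo K (2 * m) ((EE E ⊕ F) ⊕ NN E) (fun x => (fun i => x (Sum.inl (Sum.inr i))) ∉ T) := by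
    obtain ⟨e⟩ : Nonempty (R ≃ EE E ⊕ NN E) := by
      refine Finite.card_eq.1 ?_
      have hu : Nat.card Unit = 1 := Nat.card_unique
      simp only [NN, EE, Q2, Nat.card_sum, hu]
      omega
    refine Kill.mono (hT.transport ((Equiv.sumCongr (Equiv.refl F) e).trans
      ((Equiv.sumAssoc F (EE E) (NN E)).symm.trans
        (Equiv.sumCongr (Equiv.sumComm F (EE E)) (Equiv.refl (NN E)))))) fun x hx => ?_
    exact Classical.not_not.1 hx
  -- R 3
  have h3 : Fo K (2 * m) ((EE E ⊕ F) ⊕ NN E) (fun x => (fun i => x (Sum.inl (Sum.inr i))) ∉ T ∧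
      m ≤ red (fun i => x (Sum.inr (Sum.inl i))) + red (fun i => x (Sum.inl (Sum.inr i))) ∧
      red (fun i => x (Sum.inr (Sum.inl i))) + red (fun i => x (Sum.inl (Sum.inr i))) ≤ m + 1) := by
    refine (Fo.num cN cF cN (eR E F) (Fo.leaf K (2 * m) (NN E ⊕ NN E)) h4).mono ?_
    rintro x ⟨n, g1, g2, g3, -, hB⟩
    have r2 : red (fun j => x ((eR E F).symm (Sum.inr j))) =
        red (fun i => x (Sum.inr (Sum.inl i))) + red (fun i => x (Sum.inl (Sum.inr i))) :=
      red_sum _
    exact ⟨hB, by omega, by omega⟩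
  -- R 2
  have h2 : Fo K (2 * m) ((EE E ⊕ F) ⊕ NN E) (fun x => (fun i => x (Sum.inl (Sum.inr i))) ∉ T ∧
      (red (fun i => x (Sum.inl (Sum.inr i))) = 2 → red (fun i => x (Sum.inr (Sum.inl i))) + 2 = m ∨
        (red (fun i => x (Sum.inr (Sum.inl i))) + 1 = m ∧
          red (fun i => x (Sum.inl (Sum.inl (Sum.inl i)))) +
          red (fun i => x (Sum.inl (Sum.inl (Sum.inr i)))) +
          red (fun i => x (Sum.inr (Sum.inr (Sum.inl i)))) +
          red (fun i => x (Sum.inr (Sum.inr (Sum.inr i)))) = m ∧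
          red (fun i => x (Sum.inl (Sum.inl (Sum.inr i)))) +
          red (fun i => x (Sum.inr (Sum.inr (Sum.inl i)))) = 1))) := by
    refine (Fo.num cN cF cN (eR E F) (testA hE hW) h3).mono ?_
    rintro x ⟨n, g1, g2, g3, ⟨⟨a1, a2⟩, ⟨a3, a4⟩, a5⟩, b1, b2, b3⟩
    have r1 : red (fun j => x ((eR E F).symm (Sum.inl j))) =
        (red (fun i => x (Sum.inl (Sum.inl (Sum.inl i)))) +
          red (fun i => x (Sum.inl (Sum.inl (Sum.inr i))))) +
        (red (fun i => x (Sum.inr (Sum.inr (Sum.inl i)))) +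
          red (fun i => x (Sum.inr (Sum.inr (Sum.inr i))))) :=
      (red_sum _).trans (congrArg₂ (· + ·) (red_sum _) (red_sum _))
    have r2 : red (fun j => x ((eR E F).symm (Sum.inr j))) =
        red (fun i => x (Sum.inr (Sum.inl i))) + red (fun i => x (Sum.inl (Sum.inr i))) :=
      red_sum _
    have rn : red n = red (fun i => n (Sum.inl i)) + red (fun i => n (Sum.inr i)) := red_sum _
    have a1' : m ≤ red (fun i => n (Sum.inl i)) + (red (fun i => x (Sum.inl (Sum.inl (Sum.inr i)))) +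
      red (fun i => x (Sum.inr (Sum.inr (Sum.inl i))))) := a1
    have a2' : red (fun i => n (Sum.inl i)) + (red (fun i => x (Sum.inl (Sum.inl (Sum.inr i)))) +
      red (fun i => x (Sum.inr (Sum.inr (Sum.inl i))))) ≤ m + 1 := a2
    have a3' : m ≤ red (fun i => x (Sum.inl (Sum.inl (Sum.inl i)))) +
      red (fun i => x (Sum.inr (Sum.inr (Sum.inr i)))) + red (fun i => n (Sum.inr i)) := a3
    have a4' : red (fun i => x (Sum.inl (Sum.inl (Sum.inl i)))) +
      red (fun i => x (Sum.inr (Sum.inr (Sum.inr i)))) + red (fun i => n (Sum.inr i)) ≤ m + 1 := a4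
    have a5' : red (fun i => n (Sum.inl i)) + 2 ≠ m := a5
    have b2' : m ≤ red (fun i => n (Sum.inl i)) + red (fun i => x (Sum.inl (Sum.inr i))) := b2
    have b3' : red (fun i => n (Sum.inl i)) + red (fun i => x (Sum.inl (Sum.inr i))) ≤ m + 1 := b3
    refine ⟨b1, fun hp => ?_⟩
    omega
  -- R 1
  have h1 : Fo K (2 * m) ((EE E ⊕ F) ⊕ NN E) (fun x => (fun i => x (Sum.inl (Sum.inr i))) ∉ T ∧
      (red (fun i => x (Sum.inl (Sum.inr i))) = 2 → red (fun i => x (Sum.inl (Sum.inl i))) + 2 ≠ m ∧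
        ((red (fun i => x (Sum.inr (Sum.inl (Sum.inl i)))) +
            red (fun i => x (Sum.inr (Sum.inl (Sum.inr i)))) + 1 = m ∧
            red (fun i => x (Sum.inr (Sum.inl (Sum.inr i)))) =
            red (fun i => x (Sum.inr (Sum.inr (Sum.inl i))))) ∨
          (red (fun i => x (Sum.inr (Sum.inl (Sum.inl i)))) +
            red (fun i => x (Sum.inr (Sum.inl (Sum.inr i)))) + 2 = m ∧
            red (fun i => x (Sum.inl (Sum.inl i))) +
            red (fun i => x (Sum.inr (Sum.inr (Sum.inl i)))) +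
            red (fun i => x (Sum.inr (Sum.inr (Sum.inr i)))) = m)))) := by
    refine (Fo.num cN cF cN (eR E F) (testB hE hW) h2).mono ?_
    rintro x ⟨n, g1, g2, g3, ⟨⟨a1, a2⟩, ⟨a3, a4⟩, a5, a6⟩, b1, b2⟩
    have r1 : red (fun j => x ((eR E F).symm (Sum.inl j))) =
        red (fun i => x (Sum.inl (Sum.inl i))) +
        (red (fun i => x (Sum.inr (Sum.inr (Sum.inl i)))) +
          red (fun i => x (Sum.inr (Sum.inr (Sum.inr i))))) :=
      (red_sum _).trans (congrArg _ (red_sum _))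
    have r2 : red (fun j => x ((eR E F).symm (Sum.inr j))) =
        (red (fun i => x (Sum.inr (Sum.inl (Sum.inl i)))) +
          red (fun i => x (Sum.inr (Sum.inl (Sum.inr i))))) +
        red (fun i => x (Sum.inl (Sum.inr i))) :=
      (red_sum _).trans (congrArg (· + _) (red_sum _))
    have rn : red n = red (fun i => n (Sum.inl i)) + (red (fun i => n (Sum.inr (Sum.inl i))) +
      red (fun i => n (Sum.inr (Sum.inr i)))) := (red_sum _).trans (congrArg _ (red_sum _))
    have u1 := red_unit (fun i => x (Sum.inr (Sum.inl (Sum.inr i))))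
    have u2 := red_unit (fun i => x (Sum.inr (Sum.inr (Sum.inl i))))
    have u3 := red_unit (fun i => x (Sum.inr (Sum.inr (Sum.inr i))))
    have u4 := red_unit (fun i => n (Sum.inr (Sum.inl i)))
    have u5 := red_unit (fun i => n (Sum.inr (Sum.inr i)))
    have a1' : m ≤ red (fun i => n (Sum.inl i)) + (red (fun i => x (Sum.inr (Sum.inr (Sum.inl i)))) +
      red (fun i => n (Sum.inr (Sum.inl i)))) := a1
    have a2' : red (fun i => n (Sum.inl i)) + (red (fun i => x (Sum.inr (Sum.inr (Sum.inl i)))) +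
      red (fun i => n (Sum.inr (Sum.inl i)))) ≤ m + 1 := a2
    have a3' : m ≤ red (fun i => x (Sum.inl (Sum.inl i))) +
      (red (fun i => x (Sum.inr (Sum.inr (Sum.inr i)))) + red (fun i => n (Sum.inr (Sum.inr i)))) :=
      a3
    have a4' : red (fun i => x (Sum.inl (Sum.inl i))) +
      (red (fun i => x (Sum.inr (Sum.inr (Sum.inr i)))) + red (fun i => n (Sum.inr (Sum.inr i)))) ≤
      m + 1 := a4
    have a5' : red (fun i => n (Sum.inl i)) + 2 ≠ m := a5
    have a6' : red (fun i => x (Sum.inl (Sum.inl i))) + 2 ≠ m := a6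
    refine ⟨b1, fun hp => ⟨a6', ?_⟩⟩
    have b2' : red (fun i => n (Sum.inl i)) + 2 = m ∨
        (red (fun i => n (Sum.inl i)) + 1 = m ∧
          red (fun i => x (Sum.inr (Sum.inl (Sum.inl i)))) +
          red (fun i => x (Sum.inr (Sum.inl (Sum.inr i)))) +
          red (fun i => n (Sum.inr (Sum.inl i))) +
          red (fun i => n (Sum.inr (Sum.inr i))) = m ∧
          red (fun i => x (Sum.inr (Sum.inl (Sum.inr i)))) +
          red (fun i => n (Sum.inr (Sum.inl i))) = 1) := b2 hp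
    omega
  -- R 0
  have h0 : Fo K (2 * m) ((EE E ⊕ F) ⊕ NN E) (fun x => (fun i => x (Sum.inl (Sum.inr i))) ∉ T ∧
      (red (fun i => x (Sum.inl (Sum.inr i))) = 2 → red (fun i => x (Sum.inl (Sum.inl i))) = m)) := by
    refine (Fo.num cN cF cN (eR E F) ((testA hE hW).transport (Equiv.sumComm (NN E) (NN E)))
      h1).mono ?_
    rintro x ⟨n, g1, g2, g3, ⟨⟨a1, a2⟩, ⟨a3, a4⟩, a5⟩, b1, b2⟩
    have r1 : red (fun j => x ((eR E F).symm (Sum.inl j))) =
        red (fun i => x (Sum.inl (Sum.inl i))) + red (fun i => x (Sum.inr (Sum.inr i))) :=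
      red_sum _
    have r2 : red (fun j => x ((eR E F).symm (Sum.inr j))) =
        red (fun i => x (Sum.inr (Sum.inl i))) + red (fun i => x (Sum.inl (Sum.inr i))) :=
      red_sum _
    have rn : red n = (red (fun i => n (Sum.inl (Sum.inl i))) +
      red (fun i => n (Sum.inl (Sum.inr i)))) + (red (fun i => n (Sum.inr (Sum.inl i))) +
      red (fun i => n (Sum.inr (Sum.inr i)))) :=
      (red_sum _).trans (congrArg₂ (· + ·) (red_sum _) (red_sum _))
    have u1 := red_unit (fun i => n (Sum.inl (Sum.inr i)))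
    have u2 := red_unit (fun i => n (Sum.inr (Sum.inl i)))
    have u3 := red_unit (fun i => n (Sum.inr (Sum.inr i)))
    have a1' : m ≤ red (fun i => x (Sum.inl (Sum.inl i))) +
      (red (fun i => n (Sum.inl (Sum.inr i))) + red (fun i => n (Sum.inr (Sum.inl i)))) := a1
    have a2' : red (fun i => x (Sum.inl (Sum.inl i))) +
      (red (fun i => n (Sum.inl (Sum.inr i))) + red (fun i => n (Sum.inr (Sum.inl i)))) ≤ m + 1 :=
      a2
    have a3' : m ≤ red (fun i => n (Sum.inl (Sum.inl i))) +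
      red (fun i => n (Sum.inr (Sum.inr i))) + red (fun i => x (Sum.inr (Sum.inr i))) := a3
    have a4' : red (fun i => n (Sum.inl (Sum.inl i))) +
      red (fun i => n (Sum.inr (Sum.inr i))) + red (fun i => x (Sum.inr (Sum.inr i))) ≤ m + 1 := a4
    have a5' : red (fun i => x (Sum.inl (Sum.inl i))) + 2 ≠ m := a5
    refine ⟨b1, fun hp => ?_⟩
    obtain ⟨c1, c2⟩ := b2 hp
    have c1' : red (fun i => x (Sum.inr (Sum.inl i))) + 2 ≠ m := c1
    have c2' : (red (fun i => n (Sum.inl (Sum.inl i))) +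
            red (fun i => n (Sum.inl (Sum.inr i))) + 1 = m ∧
            red (fun i => n (Sum.inl (Sum.inr i))) =
            red (fun i => n (Sum.inr (Sum.inl i)))) ∨
          (red (fun i => n (Sum.inl (Sum.inl i))) +
            red (fun i => n (Sum.inl (Sum.inr i))) + 2 = m ∧
            red (fun i => x (Sum.inr (Sum.inl i))) +
            red (fun i => n (Sum.inr (Sum.inl i))) +
            red (fun i => n (Sum.inr (Sum.inr i))) = m) := c2
    omega
  -- the root
  have hr : Fo K (2 * m) (NN E ⊕ (EE E ⊕ F)) (fun x => (fun i => x (Sum.inr (Sum.inr i))) ∉ T ∧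
      red (fun i => x (Sum.inr (Sum.inr i))) ≠ 2) := by
    refine (Fo.num cN cF cN (Equiv.refl _) (Fo.leaf K (2 * m) (NN E ⊕ NN E)) h0).mono ?_
    rintro x ⟨n, g1, g2, g3, -, b1, b2⟩
    have r2 : red (fun j => x ((Equiv.refl (NN E ⊕ (EE E ⊕ F))).symm (Sum.inr j))) =
        red (fun i => x (Sum.inr (Sum.inl i))) + red (fun i => x (Sum.inr (Sum.inr i))) :=
      red_sum _
    refine ⟨b1, fun hp => ?_⟩
    have b2' : red (fun i => x (Sum.inr (Sum.inl i))) = m := b2 hp
    omega
  obtain ⟨e⟩ : Nonempty (NN E ⊕ EE E ≃ R) := by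
    refine Finite.card_eq.1 ?_
    have hu : Nat.card Unit = 1 := Nat.card_unique
    simp only [NN, EE, Q2, Nat.card_sum, hu]
    omega
  refine Kill.mono (Fo.transport hr ((Equiv.sumAssoc (NN E) (EE E) F).symm.trans
    ((Equiv.sumCongr e (Equiv.refl F)).trans (Equiv.sumComm R F)))) fun x hx => ?_
  intro hc
  rcases hx with hx | hx
  · exact hc.1 hx
  · exact hc.2 hx

end

end Pool.Agent.Lib.MP_21a058_co.Odd
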