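import Pool.Agent.Lib.MP_21a058_co.Odd.Mid
import Pool.Agent.Lib.MP_21a058_co.Odd.MidArith
import Pool.Agent.Lib.MP_21a058_co.Odd.Final

/-! Two classes with sums `2m` and `2m + 1`: `4m + 2 ↦ (2m, 2m + 1)` fails. -/

set_option autoImplicit false

namespace Pool.Agent.Lib.MP_21a058_co.Odd

open Finset Pool.Agent.Lib.MP_21a058_co

theorem W_mid {K m : ℕ} (hm : 1 ≤ m) (hK : K = 2 * m + 1) : W K (2 * m) 0 0 := by
  apply arith_mid K m hm hK (W K (2 * m))
  · intro L p hL hp h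
    apply W_base hL
    rcases h with h | h
    · left; omega
    · right; omega
  · intro L p i j hi hj hij _ h
    exact W_R2 hi hj hij h
  · intro h
    exact w22 hm hK h

theorem mid_cut {m r : ℕ} (hm : 1 ≤ m) (ks : Fin r → ℕ) (J : Finset (Fin r))
    (hJ : ∑ i ∈ J, ks i = 2 * m) (hJ' : ∑ i ∈ Jᶜ, ks i = 2 * m + 1) :
    ¬ Arrow (4 * m + 2) ks := by
  have h := not_arrow_of_W (K := 2 * m + 1) (l := 2 * m) (l' := 2 * m + 1) (by omega) (by omega)
    (W_mid hm rfl) ks J hJ hJ'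
  have e : 2 * (2 * m + 1) = 4 * m + 2 := by ring
  rwa [e] at h

/-- Both cases together. -/
theorem odd_cut_all {K l l' r : ℕ} (hl2 : 2 ≤ l) (hll : l < l') (hl : l + l' + 1 = 2 * K)
    (ks : Fin r → ℕ) (J : Finset (Fin r)) (hJ : ∑ i ∈ J, ks i = l)
    (hJ' : ∑ i ∈ Jᶜ, ks i = l') : ¬ Arrow (2 * K) ks := by
  by_cases hodd : Odd l ∨ l + 3 ≤ l'
  · exact odd_cut hl2 hll hl hodd ks J hJ hJ'
  · obtain ⟨h1, h2⟩ := not_or.1 hodd
    rw [Nat.not_odd_iff_even] at h1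
    obtain ⟨m, hm⟩ := h1
    have e : 2 * K = 4 * m + 2 := by omega
    rw [e]
    exact mid_cut (m := m) (by omega) ks J (by omega) (by omega)

end Pool.Agent.Lib.MP_21a058_co.Odd
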