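import Pool.Agent.Lib.MP_21a058_co.Odd.Def

/-! The rules of the calculus: base patterns and the meeting rule. -/

namespace Pool.Agent.Lib.MP_21a058_co.Odd

/-- Change the type of the complement of the designated edges. -/
theorem kill_rest {K l : ℕ} {F R R' : Type} [Finite R] [Finite R'] (hc : Nat.card R = Nat.card R')
    {T : Set (F → Bool)} (h : Kill K l (F ⊕ R) {x | (fun f => x (Sum.inl f)) ∈ T}) :
    Kill K l (F ⊕ R') {x | (fun f => x (Sum.inl f)) ∈ T} := by
  obtain ⟨e⟩ := Finite.card_eq.mp hc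
  exact h.transport (Equiv.sumCongr (Equiv.refl F) e)

/-- Sequential composition. -/
theorem W_seq {K l L : ℕ} (C : Finset ℕ) (hC : ∀ p ∈ C, W K l L p) (F R : Type) [Finite F]
    [Finite R] (hF : Nat.card F = L) (hR : Nat.card F + Nat.card R = 2 * K) (T : Set (F → Bool))
    (h : Kill K l (F ⊕ R) {x | (fun f => x (Sum.inl f)) ∈ T}) :
    Kill K l (F ⊕ R) {x | (fun f => x (Sum.inl f)) ∈ T ∨ red (fun f => x (Sum.inl f)) ∈ C} := by
  classical
  induction C using Finset.induction_on with
  | empty => simpa using h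
  | insert p C hp ih =>
    have h1 := ih fun q hq => hC q (Finset.mem_insert_of_mem hq)
    have h2 := hC p (Finset.mem_insert_self p C) F R hF hR
      {y | y ∈ T ∨ red y ∈ C} h1
    refine h2.mono ?_
    intro x hx
    simp only [Set.mem_ofPred_eq, Finset.mem_insert] at hx ⊢
    tauto

open Classical in
/-- The refutable values at level `L`, as a finite set. -/
noncomputable def CW (K l L : ℕ) : Finset ℕ := (Finset.range (2 * K + 1)).filter fun p => W K l L p

theorem mem_CW {K l L p : ℕ} : p ∈ CW K l L ↔ p < 2 * K + 1 ∧ W K l L p := by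
  simp [CW]

theorem W_seq' {K l L : ℕ} (F R : Type) [Finite F]
    [Finite R] (hF : Nat.card F = L) (hR : Nat.card F + Nat.card R = 2 * K) (T : Set (F → Bool))
    (h : Kill K l (F ⊕ R) {x | (fun f => x (Sum.inl f)) ∈ T}) :
    Kill K l (F ⊕ R) {x | (fun f => x (Sum.inl f)) ∈ T ∨ W K l L (red (fun f => x (Sum.inl f)))} := by
  refine (W_seq (CW K l L) (fun p hp => (mem_CW.mp hp).2) F R hF hR T h).mono ?_
  intro x hx
  rcases hx with hx | hx
  · exact Or.inl hx
  · refine Or.inr (mem_CW.mpr ⟨?_, hx⟩)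
    have := red_le (fun f => x (Sum.inl f))
    omega

/-- The splitting of the bundle. -/
def eI (F X R1 R2 : Type) : (F ⊕ X) ⊕ (R1 ⊕ R2) ≃ (X ⊕ R1) ⊕ (F ⊕ R2) where
  toFun p := match p with
    | Sum.inl (Sum.inl f) => Sum.inr (Sum.inl f)
    | Sum.inl (Sum.inr x) => Sum.inl (Sum.inl x)
    | Sum.inr (Sum.inl r) => Sum.inl (Sum.inr r)
    | Sum.inr (Sum.inr r) => Sum.inr (Sum.inr r)
  invFun p := match p with
    | Sum.inl (Sum.inl x) => Sum.inl (Sum.inr x)
    | Sum.inl (Sum.inr r) => Sum.inr (Sum.inl r)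
    | Sum.inr (Sum.inl f) => Sum.inl (Sum.inl f)
    | Sum.inr (Sum.inr r) => Sum.inr (Sum.inr r)
  left_inv := by rintro ((f | x) | (r | r)) <;> rfl
  right_inv := by rintro ((x | r) | (f | r)) <;> rfl

theorem W_R2 {K l L p i j : ℕ} (hi : L + i ≤ K) (hj : L + j ≤ K) (hij : i + j ≤ K)
    (h : ∀ a b, a ≤ i → b ≤ j → W K l (L + i) (p + a) ∨ W K l (L + j) (p + b) ∨
      W K l (i + j) (a + b)) : W K l L p := by
  intro F R _ _ hF hR T hT
  -- designated new edges and the remaining ones
  have hRc : Nat.card R = Nat.card (Fin i ⊕ (Fin (K - i) ⊕ Fin (K - L))) := by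
    rw [Nat.card_sum, Nat.card_sum, Nat.card_fin, Nat.card_fin, Nat.card_fin]
    omega
  have hNc : Nat.card (Fin K) = Nat.card (Fin j ⊕ Fin (K - j)) := by
    rw [Nat.card_sum, Nat.card_fin, Nat.card_fin, Nat.card_fin]
    omega
  obtain ⟨eN⟩ := Finite.card_eq.mp hNc
  -- the vertex split off
  have kz1 := W_seq' (K := K) (l := l) (L := i + j) (Fin i ⊕ Fin j) (Fin (K - i) ⊕ Fin (K - j))
    (by rw [Nat.card_sum, Nat.card_fin, Nat.card_fin])
    (by rw [Nat.card_sum, Nat.card_sum, Nat.card_fin, Nat.card_fin, Nat.card_fin, Nat.card_fin]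
        omega) ∅
    ((Kill.empty K l _).mono (by intro x hx; exact absurd hx (Set.notMem_empty _)))
  have kz2 := kz1.transport ((Equiv.sumSumSumComm (Fin i) (Fin j) (Fin (K - i)) (Fin (K - j))).trans
    (Equiv.sumCongr (Equiv.refl _) eN.symm))
  -- the vertex which keeps the designated edges
  have hT1 : Kill K l (F ⊕ (Fin j ⊕ (Fin (K - L) ⊕ Fin (K - j))))
      {x | (fun f => x (Sum.inl f)) ∈ T} := by
    refine kill_rest ?_ hT
    rw [Nat.card_sum, Nat.card_sum, Nat.card_fin, Nat.card_fin, Nat.card_fin]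
    omega
  have kv0 := hT1.transport (Equiv.sumAssoc F (Fin j) (Fin (K - L) ⊕ Fin (K - j))).symm
  have kv1 := W_seq' (K := K) (l := l) (L := L + j) (F ⊕ Fin j) (Fin (K - L) ⊕ Fin (K - j))
    (by rw [Nat.card_sum, Nat.card_fin, hF])
    (by rw [Nat.card_sum, Nat.card_sum, Nat.card_fin, Nat.card_fin, Nat.card_fin]; omega)
    {w | (fun f => w (Sum.inl f)) ∈ T} kv0
  have kv2 := kv1.transport ((Equiv.sumSumSumComm F (Fin j) (Fin (K - L)) (Fin (K - j))).trans
    (Equiv.sumCongr (Equiv.refl _) eN.symm))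
  -- the node
  have kn : Kill K l ((F ⊕ Fin i) ⊕ (Fin (K - i) ⊕ Fin (K - L)))
      {x | (fun f => x (Sum.inl f)) ∈ {w : F ⊕ Fin i → Bool | (fun f => w (Sum.inl f)) ∈ T ∨
        (red (fun f => w (Sum.inl f)) = p ∧ ¬ W K l (L + i) (red w))}} := by
    refine Kill.node _ (Fin i ⊕ Fin (K - i)) (F ⊕ Fin (K - L)) ?_ ?_
      (eI F (Fin i) (Fin (K - i)) (Fin (K - L))) _ _ _ kz2 kv2 ?_
    · rw [Nat.card_sum, Nat.card_fin, Nat.card_fin]; omega
    · rw [Nat.card_sum, Nat.card_fin, hF]; omega
    · intro x hx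
      right
      intro n
      rcases hx with hx | ⟨hx1, hx2⟩
      · right
        exact Or.inl hx
      · have e1 : red (fun f => x (Sum.inl f)) = p + red (fun a : Fin i => x (Sum.inl (Sum.inr a))) := by
          rw [red_sum (fun f : F ⊕ Fin i => x (Sum.inl f))]
          rw [← hx1]
        have ha : red (fun a : Fin i => x (Sum.inl (Sum.inr a))) ≤ i := by
          have := red_le (fun a : Fin i => x (Sum.inl (Sum.inr a)))
          rwa [Nat.card_fin] at this
        have hb : red (fun b : Fin j => n (eN.symm (Sum.inl b))) ≤ j := by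
          have := red_le (fun b : Fin j => n (eN.symm (Sum.inl b)))
          rwa [Nat.card_fin] at this
        rcases h _ _ ha hb with h1 | h1 | h1
        · exact absurd (e1 ▸ h1) hx2
        · right
          refine Or.inr ?_
          have e2 : red (fun q : F ⊕ Fin j => (Sum.elim (fun c => x ((eI F (Fin i) (Fin (K - i))
              (Fin (K - L))).symm (Sum.inr c))) n : (F ⊕ Fin (K - L)) ⊕ Fin K → Bool)
              (((Equiv.sumSumSumComm F (Fin j) (Fin (K - L)) (Fin (K - j))).trans
              (Equiv.sumCongr (Equiv.refl _) eN.symm)) (Sum.inl q))) =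
              p + red (fun b : Fin j => n (eN.symm (Sum.inl b))) := by
            rw [red_sum, ← hx1]
            rfl
          rw [← e2] at h1
          exact h1
        · left
          refine Or.inr ?_
          have e2 : red (fun q : Fin i ⊕ Fin j => (Sum.elim (fun c => x ((eI F (Fin i) (Fin (K - i))
              (Fin (K - L))).symm (Sum.inl c))) n : (Fin i ⊕ Fin (K - i)) ⊕ Fin K → Bool)
              (((Equiv.sumSumSumComm (Fin i) (Fin j) (Fin (K - i)) (Fin (K - j))).trans
              (Equiv.sumCongr (Equiv.refl _) eN.symm)) (Sum.inl q))) =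
              red (fun a : Fin i => x (Sum.inl (Sum.inr a))) +
              red (fun b : Fin j => n (eN.symm (Sum.inl b))) := by
            rw [red_sum]
            rfl
          rw [← e2] at h1
          exact h1
  have ks := W_seq' (K := K) (l := l) (L := L + i) (F ⊕ Fin i) (Fin (K - i) ⊕ Fin (K - L))
    (by rw [Nat.card_sum, Nat.card_fin, hF])
    (by rw [Nat.card_sum, Nat.card_sum, Nat.card_fin, Nat.card_fin, Nat.card_fin]; omega)
    _ kn
  have kt := ks.transport (Equiv.sumAssoc F (Fin i) (Fin (K - i) ⊕ Fin (K - L)))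
  have ku : Kill K l (F ⊕ (Fin i ⊕ (Fin (K - i) ⊕ Fin (K - L))))
      {x | (fun f => x (Sum.inl f)) ∈ {y : F → Bool | y ∈ T ∨ red y = p}} := by
    refine kt.mono ?_
    intro x hx
    show ((fun f => x (Sum.inl f)) ∈ T ∨ (red (fun f => x (Sum.inl f)) = p ∧
      ¬ W K l (L + i) (red (fun q : F ⊕ Fin i => x (Equiv.sumAssoc F (Fin i)
        (Fin (K - i) ⊕ Fin (K - L)) (Sum.inl q)))))) ∨
      W K l (L + i) (red (fun q : F ⊕ Fin i => x (Equiv.sumAssoc F (Fin i)
        (Fin (K - i) ⊕ Fin (K - L)) (Sum.inl q))))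
    have hx' : (fun f => x (Sum.inl f)) ∈ T ∨ red (fun f => x (Sum.inl f)) = p := hx
    tauto
  exact kill_rest hRc.symm ku

theorem Kill.addBase {K l : ℕ} {I : Type} {A : Set (I → Bool)} (h : Kill K l I A) :
    Kill K l I {x | x ∈ A ∨ (red x ≠ l ∧ red x ≠ l + 1)} := by
  cases h with
  | leaf _ _ h =>
    refine Kill.leaf I _ fun x hx => ?_
    rcases hx with hx | hx
    · exact h x hx
    · exact hx
  | node _ J1 J2 h1 h2 e A1 A2 _ k1 k2 h =>
    refine Kill.node I J1 J2 h1 h2 e A1 A2 _ k1 k2 fun x hx => ?_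
    rcases hx with hx | hx
    · exact h x hx
    · exact Or.inl hx

theorem W_base {K l L p : ℕ} (hL : L ≤ K) (h : l / 2 + 2 ≤ p ∨ K + 1 ≤ L - p + l / 2) :
    W K l L p := by
  intro F R _ _ hF hR T hT
  have hRc : Nat.card R = Nat.card (Fin K ⊕ Fin (K - L)) := by
    rw [Nat.card_sum, Nat.card_fin, Nat.card_fin]
    omega
  have kz : Kill K l (Fin K ⊕ Fin K) {y | red y ≠ l ∧ red y ≠ l + 1} :=
    Kill.leaf _ _ fun x hx => hx
  have hT1 : Kill K l (F ⊕ (Fin (K - L) ⊕ Fin K)) {x | (fun f => x (Sum.inl f)) ∈ T} := by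
    refine kill_rest ?_ hT
    rw [Nat.card_sum, Nat.card_fin, Nat.card_fin]
    omega
  have kv := (hT1.transport (Equiv.sumAssoc F (Fin (K - L)) (Fin K)).symm).addBase
  have kn : Kill K l (F ⊕ (Fin K ⊕ Fin (K - L)))
      {x | (fun f => x (Sum.inl f)) ∈ {y : F → Bool | y ∈ T ∨ red y = p}} := by
    refine Kill.node _ (Fin K) (F ⊕ Fin (K - L)) (Nat.card_fin K) ?_
      ((Equiv.sumAssoc F (Fin K) (Fin (K - L))).symm.trans ((Equiv.sumCongr (Equiv.sumComm F (Fin K))
        (Equiv.refl _)).trans (Equiv.sumAssoc (Fin K) F (Fin (K - L))))) _ _ _ kz kv ?_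
    · rw [Nat.card_sum, Nat.card_fin, hF]; omega
    · intro x hx
      by_cases hb : red x ≠ l ∧ red x ≠ l + 1
      · exact Or.inl hb
      right
      intro n
      rcases hx with hx | hx
      · right
        exact Or.inl hx
      · by_contra hcon
        push Not at hcon
        obtain ⟨hc1, hc2⟩ := hcon
        have g1 : red x = red (fun f => x (Sum.inl f)) + (red (fun a => x (Sum.inr (Sum.inl a))) +
            red (fun a => x (Sum.inr (Sum.inr a)))) := by
          rw [red_sum x, red_sum (fun q : Fin K ⊕ Fin (K - L) => x (Sum.inr q))]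
        have g2 : ¬ (red (fun a => x (Sum.inr (Sum.inl a))) + red n ≠ l ∧
            red (fun a => x (Sum.inr (Sum.inl a))) + red n ≠ l + 1) := by
          intro hh
          apply hc1
          have e2 : red (Sum.elim (fun a => x (Sum.inr (Sum.inl a))) n : Fin K ⊕ Fin K → Bool) =
            red (fun a => x (Sum.inr (Sum.inl a))) + red n := by
            rw [red_sum]
            rfl
          rw [← e2] at hh
          exact hh
        have g3 : ¬ (red (fun f => x (Sum.inl f)) + red (fun a => x (Sum.inr (Sum.inr a))) + red n ≠ l ∧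
            red (fun f => x (Sum.inl f)) + red (fun a => x (Sum.inr (Sum.inr a))) + red n ≠ l + 1) := by
          intro hh
          apply hc2
          right
          have e3 : ∀ y : (F ⊕ Fin (K - L)) ⊕ Fin K → Bool, red y =
              red (fun f => y (Sum.inl (Sum.inl f))) + red (fun a => y (Sum.inl (Sum.inr a))) +
              red (fun c => y (Sum.inr c)) := by
            intro y
            rw [red_sum y, red_sum (fun q => y (Sum.inl q))]
          exact ⟨fun hq => hh.1 ((e3 _).symm.trans hq), fun hq => hh.2 ((e3 _).symm.trans hq)⟩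
        have g4 : red (fun a => x (Sum.inr (Sum.inr a))) ≤ K - L := by
          have := red_le (fun a : Fin (K - L) => x (Sum.inr (Sum.inr a)))
          rwa [Nat.card_fin] at this
        have g5 : red (fun f => x (Sum.inl f)) ≤ L := by
          have := red_le (fun f : F => x (Sum.inl f))
          rwa [hF] at this
        have hx' : red (fun f => x (Sum.inl f)) = p := hx
        omega
  exact kill_rest hRc.symm kn

end Pool.Agent.Lib.MP_21a058_co.Odd
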