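import Pool.Agent.Lib.MP_21a058_co.Odd.Kill3

/-! The rules of the calculus for odd edge-connectivity `2 h + 1`: base patterns and the meeting
rule. -/

set_option autoImplicit false

namespace Pool.Agent.Lib.MP_21a058_co.Odd

theorem Kill3.mono {h l : ℕ} {I : Type} {A A' : Set (I → Bool)} (hk : Kill3 h l I A)
    (hA : A' ⊆ A) : Kill3 h l I A' := by
  cases hk with
  | leaf _ _ h0 => exact Kill3.leaf I A' fun x hx => h0 x (hA hx)
  | node _ J1 J2 J3 N1 N2 N3 q hq hq' c1 c2 c3 d1 d2 d3 e A1 A2 A3 _ k1 k2 k3 h0 =>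
    exact Kill3.node I J1 J2 J3 N1 N2 N3 q hq hq' c1 c2 c3 d1 d2 d3 e A1 A2 A3 A' k1 k2 k3
      fun x hx => h0 x (hA hx)

theorem Kill3.transport {h l : ℕ} {I J : Type} {A : Set (I → Bool)} (hk : Kill3 h l I A)
    (e : I ≃ J) : Kill3 h l J {y | (fun i => y (e i)) ∈ A} := by
  cases hk with
  | leaf _ _ h0 =>
    refine Kill3.leaf J _ fun y hy => ?_
    have := h0 _ hy
    rwa [red_equiv e y] at this
  | node _ J1 J2 J3 N1 N2 N3 q hq hq' c1 c2 c3 d1 d2 d3 e' A1 A2 A3 _ k1 k2 k3 h0 =>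
    refine Kill3.node J J1 J2 J3 N1 N2 N3 q hq hq' c1 c2 c3 d1 d2 d3 (e.symm.trans e') A1 A2 A3 _
      k1 k2 k3 fun y hy => ?_
    have := h0 _ hy
    rw [red_equiv e y] at this
    exact this

theorem Kill3.empty (h l : ℕ) (I : Type) : Kill3 h l I ∅ :=
  Kill3.leaf I ∅ fun x hx => absurd hx (Set.notMem_empty x)

theorem Kill3.addBase {h l : ℕ} {I : Type} {A : Set (I → Bool)} (hk : Kill3 h l I A) :
    Kill3 h l I {x | x ∈ A ∨ (red x ≠ l ∧ red x ≠ l + 1)} := by
  cases hk with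
  | leaf _ _ h0 =>
    refine Kill3.leaf I _ fun x hx => ?_
    rcases hx with hx | hx
    · exact h0 x hx
    · exact hx
  | node _ J1 J2 J3 N1 N2 N3 q hq hq' c1 c2 c3 d1 d2 d3 e A1 A2 A3 _ k1 k2 k3 h0 =>
    refine Kill3.node I J1 J2 J3 N1 N2 N3 q hq hq' c1 c2 c3 d1 d2 d3 e A1 A2 A3 _ k1 k2 k3
      fun x hx => ?_
    rcases hx with hx | hx
    · exact h0 x hx
    · exact Or.inl hx

/-- Change the type of the complement of the designated edges. -/
theorem kill3_rest {h l : ℕ} {F R R' : Type} [Finite R] [Finite R'] (hc : Nat.card R = Nat.card R')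
    {T : Set (F → Bool)} (hk : Kill3 h l (F ⊕ R) {x | (fun f => x (Sum.inl f)) ∈ T}) :
    Kill3 h l (F ⊕ R') {x | (fun f => x (Sum.inl f)) ∈ T} := by
  obtain ⟨e⟩ := Finite.card_eq.mp hc
  exact hk.transport (Equiv.sumCongr (Equiv.refl F) e)

/-- Sequential composition. -/
theorem W3_seq {h l L : ℕ} (C : Finset ℕ) (hC : ∀ p ∈ C, W3 h l L p) (F R : Type) [Finite F]
    [Finite R] (hF : Nat.card F = L) (hR : Nat.card F + Nat.card R = 2 * h + 1)
    (T : Set (F → Bool)) (hk : Kill3 h l (F ⊕ R) {x | (fun f => x (Sum.inl f)) ∈ T}) :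
    Kill3 h l (F ⊕ R) {x | (fun f => x (Sum.inl f)) ∈ T ∨ red (fun f => x (Sum.inl f)) ∈ C} := by
  classical
  induction C using Finset.induction_on with
  | empty => simpa using hk
  | insert p C hp ih =>
    have h1 := ih fun q hq => hC q (Finset.mem_insert_of_mem hq)
    have h2 := hC p (Finset.mem_insert_self p C) F R hF hR
      {y | y ∈ T ∨ red y ∈ C} h1
    refine h2.mono ?_
    intro x hx
    simp only [Set.mem_ofPred_eq, Finset.mem_insert] at hx ⊢
    tauto

open Classical in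
/-- The refutable values at level `L`, as a finite set. -/
noncomputable def CW3 (h l L : ℕ) : Finset ℕ :=
  (Finset.range (2 * h + 2)).filter fun p => W3 h l L p

theorem mem_CW3 {h l L p : ℕ} : p ∈ CW3 h l L ↔ p < 2 * h + 2 ∧ W3 h l L p := by
  simp [CW3]

theorem W3_seq' {h l L : ℕ} (F R : Type) [Finite F]
    [Finite R] (hF : Nat.card F = L) (hR : Nat.card F + Nat.card R = 2 * h + 1)
    (T : Set (F → Bool)) (hk : Kill3 h l (F ⊕ R) {x | (fun f => x (Sum.inl f)) ∈ T}) :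
    Kill3 h l (F ⊕ R)
      {x | (fun f => x (Sum.inl f)) ∈ T ∨ W3 h l L (red (fun f => x (Sum.inl f)))} := by
  refine (W3_seq (CW3 h l L) (fun p hp => (mem_CW3.mp hp).2) F R hF hR T hk).mono ?_
  intro x hx
  rcases hx with hx | hx
  · exact Or.inl hx
  · refine Or.inr (mem_CW3.mpr ⟨?_, hx⟩)
    have := red_le (fun f => x (Sum.inl f))
    omega

/-- The splitting of the bundle. -/
def eI3 (F X R1 R2 R3 : Type) :
    (F ⊕ X) ⊕ (R1 ⊕ (R2 ⊕ R3)) ≃ (X ⊕ R1) ⊕ ((F ⊕ R2) ⊕ R3) where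
  toFun p := match p with
    | Sum.inl (Sum.inl f) => Sum.inr (Sum.inl (Sum.inl f))
    | Sum.inl (Sum.inr x) => Sum.inl (Sum.inl x)
    | Sum.inr (Sum.inl r) => Sum.inl (Sum.inr r)
    | Sum.inr (Sum.inr (Sum.inl r)) => Sum.inr (Sum.inl (Sum.inr r))
    | Sum.inr (Sum.inr (Sum.inr r)) => Sum.inr (Sum.inr r)
  invFun p := match p with
    | Sum.inl (Sum.inl x) => Sum.inl (Sum.inr x)
    | Sum.inl (Sum.inr r) => Sum.inr (Sum.inl r)
    | Sum.inr (Sum.inl (Sum.inl f)) => Sum.inl (Sum.inl f)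
    | Sum.inr (Sum.inl (Sum.inr r)) => Sum.inr (Sum.inr (Sum.inl r))
    | Sum.inr (Sum.inr r) => Sum.inr (Sum.inr (Sum.inr r))
  left_inv := by rintro ((f | x) | (r | (r | r))) <;> rfl
  right_inv := by rintro ((x | r) | ((f | r) | r)) <;> rfl

/-- The bundle of a vertex of the node. -/
def eV3 (X Y A B C : Type) : (X ⊕ Y) ⊕ (A ⊕ (B ⊕ C)) ≃ (X ⊕ A) ⊕ (B ⊕ (Y ⊕ C)) where
  toFun p := match p with
    | Sum.inl (Sum.inl x) => Sum.inl (Sum.inl x)
    | Sum.inl (Sum.inr y) => Sum.inr (Sum.inr (Sum.inl y))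
    | Sum.inr (Sum.inl a) => Sum.inl (Sum.inr a)
    | Sum.inr (Sum.inr (Sum.inl b)) => Sum.inr (Sum.inl b)
    | Sum.inr (Sum.inr (Sum.inr c)) => Sum.inr (Sum.inr (Sum.inr c))
  invFun p := match p with
    | Sum.inl (Sum.inl x) => Sum.inl (Sum.inl x)
    | Sum.inl (Sum.inr a) => Sum.inr (Sum.inl a)
    | Sum.inr (Sum.inl b) => Sum.inr (Sum.inr (Sum.inl b))
    | Sum.inr (Sum.inr (Sum.inl y)) => Sum.inl (Sum.inr y)
    | Sum.inr (Sum.inr (Sum.inr c)) => Sum.inr (Sum.inr (Sum.inr c))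
  left_inv := by rintro ((x | y) | (a | (b | c))) <;> rfl
  right_inv := by rintro ((x | a) | (b | (y | c))) <;> rfl

theorem W3_R2 {h l L p i j : ℕ} (hh : 1 ≤ h) (hi : L + i ≤ h) (hj : L + j ≤ h) (hij : i + j ≤ h)
    (H : ∀ a b, a ≤ i → b ≤ j → W3 h l (L + i) (p + a) ∨ W3 h l (L + j) (p + b) ∨
      W3 h l (i + j) (a + b)) : W3 h l L p := by
  intro F R _ _ hF hR T hT
  obtain ⟨q, hq1, hqh, hqL, hqj⟩ : ∃ q, 1 ≤ q ∧ q ≤ h ∧ L ≤ q ∧ q + j ≤ h + 1 := by
    rcases Nat.eq_zero_or_pos L with h0 | h0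
    · exact ⟨1, le_rfl, hh, by omega, by omega⟩
    · exact ⟨L, h0, by omega, le_rfl, by omega⟩
  -- designated new edges and the remaining ones
  have hRc : Nat.card R = Nat.card (Fin i ⊕ (Fin (h - i) ⊕ (Fin (q - L) ⊕ Fin (h + 1 - q)))) := by
    rw [Nat.card_sum, Nat.card_sum, Nat.card_sum, Nat.card_fin, Nat.card_fin, Nat.card_fin,
      Nat.card_fin]
    omega
  -- the first vertex
  have kz1 := W3_seq' (h := h) (l := l) (L := i + j) (Fin i ⊕ Fin j)
    (Fin (h - i) ⊕ (Fin q ⊕ Fin (h + 1 - q - j)))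
    (by rw [Nat.card_sum, Nat.card_fin, Nat.card_fin])
    (by rw [Nat.card_sum, Nat.card_sum, Nat.card_sum, Nat.card_fin, Nat.card_fin, Nat.card_fin,
          Nat.card_fin, Nat.card_fin]
        omega) ∅
    ((Kill3.empty h l _).mono (by intro x hx; exact absurd hx (Set.notMem_empty _)))
  have kz2 := kz1.transport (eV3 (Fin i) (Fin j) (Fin (h - i)) (Fin q) (Fin (h + 1 - q - j)))
  -- the second vertex keeps the designated edges
  have hT1 : Kill3 h l (F ⊕ (Fin j ⊕ (Fin (q - L) ⊕ (Fin h ⊕ Fin (h + 1 - q - j)))))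
      {x | (fun f => x (Sum.inl f)) ∈ T} := by
    refine kill3_rest ?_ hT
    rw [Nat.card_sum, Nat.card_sum, Nat.card_sum, Nat.card_fin, Nat.card_fin, Nat.card_fin,
      Nat.card_fin]
    omega
  have kv0 := hT1.transport
    (Equiv.sumAssoc F (Fin j) (Fin (q - L) ⊕ (Fin h ⊕ Fin (h + 1 - q - j)))).symm
  have kv1 := W3_seq' (h := h) (l := l) (L := L + j) (F ⊕ Fin j)
    (Fin (q - L) ⊕ (Fin h ⊕ Fin (h + 1 - q - j)))
    (by rw [Nat.card_sum, Nat.card_fin, hF])
    (by rw [Nat.card_sum, Nat.card_sum, Nat.card_sum, Nat.card_fin, Nat.card_fin, Nat.card_fin,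
          Nat.card_fin]
        omega)
    {w | (fun f => w (Sum.inl f)) ∈ T} kv0
  have kv2 := kv1.transport (eV3 F (Fin j) (Fin (q - L)) (Fin h) (Fin (h + 1 - q - j)))
  -- the node
  have kn : Kill3 h l ((F ⊕ Fin i) ⊕ (Fin (h - i) ⊕ (Fin (q - L) ⊕ Fin (h + 1 - q))))
      {x | (fun f => x (Sum.inl f)) ∈ {w : F ⊕ Fin i → Bool | (fun f => w (Sum.inl f)) ∈ T ∨
        (red (fun f => w (Sum.inl f)) = p ∧ ¬ W3 h l (L + i) (red w))}} := by
    refine Kill3.node _ (Fin i ⊕ Fin (h - i)) (F ⊕ Fin (q - L)) (Fin (h + 1 - q)) (Fin h) (Fin q)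
      (Fin j ⊕ Fin (h + 1 - q - j)) q hq1 hqh ?_ ?_ (Nat.card_fin _) (Nat.card_fin _)
      (Nat.card_fin _) ?_
      (eI3 F (Fin i) (Fin (h - i)) (Fin (q - L)) (Fin (h + 1 - q))) _ _ _ _ kz2 kv2
      (Kill3.empty h l _) ?_
    · rw [Nat.card_sum, Nat.card_fin, Nat.card_fin]; omega
    · rw [Nat.card_sum, Nat.card_fin, hF]; omega
    · rw [Nat.card_sum, Nat.card_fin, Nat.card_fin]; omega
    · intro x hx
      right
      intro n1 n2 n3
      rcases hx with hx | ⟨hx1, hx2⟩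
      · exact Or.inr (Or.inl (Or.inl hx))
      · have e1 : red (fun f => x (Sum.inl f)) =
            p + red (fun a : Fin i => x (Sum.inl (Sum.inr a))) := by
          rw [red_sum (fun f : F ⊕ Fin i => x (Sum.inl f))]
          rw [← hx1]
        have ha : red (fun a : Fin i => x (Sum.inl (Sum.inr a))) ≤ i := by
          have := red_le (fun a : Fin i => x (Sum.inl (Sum.inr a)))
          rwa [Nat.card_fin] at this
        have hb : red (fun b : Fin j => n3 (Sum.inl b)) ≤ j := by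
          have := red_le (fun b : Fin j => n3 (Sum.inl b))
          rwa [Nat.card_fin] at this
        rcases H _ _ ha hb with h1 | h1 | h1
        · exact absurd (e1 ▸ h1) hx2
        · refine Or.inr (Or.inl (Or.inr ?_))
          have e2 : red (fun c : F ⊕ Fin j => (Sum.elim (fun c => x ((eI3 F (Fin i) (Fin (h - i))
              (Fin (q - L)) (Fin (h + 1 - q))).symm (Sum.inr (Sum.inl c)))) (Sum.elim n1 n3) :
              (F ⊕ Fin (q - L)) ⊕ (Fin h ⊕ (Fin j ⊕ Fin (h + 1 - q - j))) → Bool)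
              ((eV3 F (Fin j) (Fin (q - L)) (Fin h) (Fin (h + 1 - q - j))) (Sum.inl c))) =
              p + red (fun b : Fin j => n3 (Sum.inl b)) := by
            rw [red_sum, ← hx1]
            rfl
          rw [← e2] at h1
          exact h1
        · refine Or.inl (Or.inr ?_)
          have e2 : red (fun c : Fin i ⊕ Fin j => (Sum.elim (fun c => x ((eI3 F (Fin i)
              (Fin (h - i)) (Fin (q - L)) (Fin (h + 1 - q))).symm (Sum.inl c))) (Sum.elim n2 n3) :
              (Fin i ⊕ Fin (h - i)) ⊕ (Fin q ⊕ (Fin j ⊕ Fin (h + 1 - q - j))) → Bool)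
              ((eV3 (Fin i) (Fin j) (Fin (h - i)) (Fin q) (Fin (h + 1 - q - j))) (Sum.inl c))) =
              red (fun a : Fin i => x (Sum.inl (Sum.inr a))) +
              red (fun b : Fin j => n3 (Sum.inl b)) := by
            rw [red_sum]
            rfl
          rw [← e2] at h1
          exact h1
  have ks := W3_seq' (h := h) (l := l) (L := L + i) (F ⊕ Fin i)
    (Fin (h - i) ⊕ (Fin (q - L) ⊕ Fin (h + 1 - q)))
    (by rw [Nat.card_sum, Nat.card_fin, hF])
    (by rw [Nat.card_sum, Nat.card_sum, Nat.card_sum, Nat.card_fin, Nat.card_fin, Nat.card_fin,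
          Nat.card_fin]
        omega)
    _ kn
  have kt := ks.transport
    (Equiv.sumAssoc F (Fin i) (Fin (h - i) ⊕ (Fin (q - L) ⊕ Fin (h + 1 - q))))
  have ku : Kill3 h l (F ⊕ (Fin i ⊕ (Fin (h - i) ⊕ (Fin (q - L) ⊕ Fin (h + 1 - q)))))
      {x | (fun f => x (Sum.inl f)) ∈ {y : F → Bool | y ∈ T ∨ red y = p}} := by
    refine kt.mono ?_
    intro x hx
    show ((fun f => x (Sum.inl f)) ∈ T ∨ (red (fun f => x (Sum.inl f)) = p ∧
      ¬ W3 h l (L + i) (red (fun q' : F ⊕ Fin i => x (Equiv.sumAssoc F (Fin i)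
        (Fin (h - i) ⊕ (Fin (q - L) ⊕ Fin (h + 1 - q))) (Sum.inl q')))))) ∨
      W3 h l (L + i) (red (fun q' : F ⊕ Fin i => x (Equiv.sumAssoc F (Fin i)
        (Fin (h - i) ⊕ (Fin (q - L) ⊕ Fin (h + 1 - q))) (Sum.inl q'))))
    have hx' : (fun f => x (Sum.inl f)) ∈ T ∨ red (fun f => x (Sum.inl f)) = p := hx
    tauto
  exact kill3_rest hRc.symm ku

theorem W3_base {h l L p : ℕ} (hh : 1 ≤ h) (hl : l % 2 = 1) (hL : L ≤ h)
    (H : l / 2 + 2 ≤ p ∨ h + 1 ≤ L - p + l / 2) : W3 h l L p := by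
  intro F R _ _ hF hR T hT
  have hRc : Nat.card R = Nat.card (Fin (h - L) ⊕ (Fin 1 ⊕ Fin h)) := by
    rw [Nat.card_sum, Nat.card_sum, Nat.card_fin, Nat.card_fin, Nat.card_fin]
    omega
  have hT1 : Kill3 h l (F ⊕ (Fin (h - L) ⊕ (Fin 1 ⊕ Fin h))) {x | (fun f => x (Sum.inl f)) ∈ T} :=
    kill3_rest hRc hT
  have kv := (hT1.transport (Equiv.sumAssoc F (Fin (h - L)) (Fin 1 ⊕ Fin h)).symm).addBase
  have kn : Kill3 h l (F ⊕ (Fin (h - L) ⊕ (Fin 1 ⊕ Fin h)))
      {x | (fun f => x (Sum.inl f)) ∈ {y : F → Bool | y ∈ T ∨ red y = p}} := by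
    refine Kill3.node _ (F ⊕ Fin (h - L)) (Fin 1) (Fin h) (Fin h) (Fin 1) (Fin h) 1 le_rfl hh ?_
      (Nat.card_fin _) (by rw [Nat.card_fin]; omega) (Nat.card_fin _) (Nat.card_fin _)
      (by rw [Nat.card_fin]; omega)
      (Equiv.sumAssoc F (Fin (h - L)) (Fin 1 ⊕ Fin h)).symm _ _ _ _ kv (Kill3.empty h l _)
      (Kill3.empty h l _) ?_
    · rw [Nat.card_sum, Nat.card_fin, hF]; omega
    · intro x hx
      by_cases hb : red x ≠ l ∧ red x ≠ l + 1
      · exact Or.inl hb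
      right
      intro n1 n2 n3
      rcases hx with hx | hx
      · exact Or.inl (Or.inl hx)
      · have hx' : red (fun f => x (Sum.inl f)) = p := hx
        by_cases hv : red (fun f => x (Sum.inl f)) + red (fun a => x (Sum.inr (Sum.inl a))) +
            (red n2 + red n3) ≠ l ∧
            red (fun f => x (Sum.inl f)) + red (fun a => x (Sum.inr (Sum.inl a))) +
            (red n2 + red n3) ≠ l + 1
        · left
          right
          have e3 : ∀ y : (F ⊕ Fin (h - L)) ⊕ (Fin 1 ⊕ Fin h) → Bool, red y =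
              red (fun f => y (Sum.inl (Sum.inl f))) + red (fun a => y (Sum.inl (Sum.inr a))) +
              (red (fun c => y (Sum.inr (Sum.inl c))) + red (fun c => y (Sum.inr (Sum.inr c)))) := by
            intro y
            rw [red_sum y, red_sum (fun c => y (Sum.inl c)), red_sum (fun c => y (Sum.inr c))]
          exact ⟨fun hq => hv.1 ((e3 _).symm.trans hq), fun hq => hv.2 ((e3 _).symm.trans hq)⟩
        · refine Or.inr (Or.inr (Or.inr ?_))
          have g1 : red x = red (fun f => x (Sum.inl f)) +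
              (red (fun a => x (Sum.inr (Sum.inl a))) +
              red (fun a => x (Sum.inr (Sum.inr a)))) := by
            rw [red_sum x, red_sum (fun c : Fin (h - L) ⊕ (Fin 1 ⊕ Fin h) => x (Sum.inr c))]
          have g4 : red (fun a => x (Sum.inr (Sum.inl a))) ≤ h - L := by
            have := red_le (fun a : Fin (h - L) => x (Sum.inr (Sum.inl a)))
            rwa [Nat.card_fin] at this
          have g5 : red (fun f => x (Sum.inl f)) ≤ L := by
            have := red_le (fun f : F => x (Sum.inl f))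
            rwa [hF] at this
          show red (fun a : Fin 1 ⊕ Fin h => x (Sum.inr (Sum.inr a))) + red n2 + red n3 < l ∨
            l + 2 < red (fun a : Fin 1 ⊕ Fin h => x (Sum.inr (Sum.inr a))) + red n2 + red n3
          omega
  exact kill3_rest hRc.symm kn

end Pool.Agent.Lib.MP_21a058_co.Odd
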