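import Pool.Agent.Lib.MP_21a058_co.Odd.Kill3
import Pool.Agent.Lib.MP_21a058_co.Odd.Arith

/-! Even sums, two even classes `2m < 2m'`: everything is killable. -/

namespace Pool.Agent.Lib.MP_21a058_co.Odd.EE

open Pool.Agent.Lib.MP_21a058_co.Odd

theorem mono {h l : ℕ} {I : Type} {A A' : Set (I → Bool)} (k : Kill3 h l I A)
    (hA : A' ⊆ A) : Kill3 h l I A' := by
  cases k with
  | leaf _ _ h1 => exact Kill3.leaf I A' fun x hx => h1 x (hA hx)
  | node _ J1 J2 J3 N1 N2 N3 q hq hq' c1 c2 c3 d1 d2 d3 e A1 A2 A3 _ k1 k2 k3 h1 =>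
    exact Kill3.node I J1 J2 J3 N1 N2 N3 q hq hq' c1 c2 c3 d1 d2 d3 e A1 A2 A3 A' k1 k2 k3
      fun x hx => h1 x (hA hx)

theorem trans {h l : ℕ} {I J : Type} {A : Set (I → Bool)} (k : Kill3 h l I A)
    (e : I ≃ J) : Kill3 h l J {y | (fun i => y (e i)) ∈ A} := by
  cases k with
  | leaf _ _ h1 =>
    refine Kill3.leaf J _ fun y hy => ?_
    have := h1 _ hy
    rwa [red_equiv e y] at this
  | node _ J1 J2 J3 N1 N2 N3 q hq hq' c1 c2 c3 d1 d2 d3 e' A1 A2 A3 _ k1 k2 k3 h1 =>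
    refine Kill3.node J J1 J2 J3 N1 N2 N3 q hq hq' c1 c2 c3 d1 d2 d3 (e.symm.trans e') A1 A2 A3 _
      k1 k2 k3 fun y hy => ?_
    have := h1 _ hy
    rw [red_equiv e y] at this
    exact this

theorem empty (h l : ℕ) (I : Type) : Kill3 h l I ∅ :=
  Kill3.leaf I ∅ fun x hx => absurd hx (Set.notMem_empty x)

/-- Change the type of the complement of the designated edges. -/
theorem rest {h l : ℕ} {F R R' : Type} [Finite R] [Finite R'] (hc : Nat.card R = Nat.card R')
    {T : Set (F → Bool)} (k : Kill3 h l (F ⊕ R) {x | (fun f => x (Sum.inl f)) ∈ T}) :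
    Kill3 h l (F ⊕ R') {x | (fun f => x (Sum.inl f)) ∈ T} := by
  obtain ⟨e⟩ := Finite.card_eq.mp hc
  exact trans k (Equiv.sumCongr (Equiv.refl F) e)

theorem seq {h l L : ℕ} (C : Finset ℕ) (hC : ∀ p ∈ C, W3 h l L p) (F R : Type) [Finite F]
    [Finite R] (hF : Nat.card F = L) (hR : Nat.card F + Nat.card R = 2 * h + 1)
    (T : Set (F → Bool)) (k : Kill3 h l (F ⊕ R) {x | (fun f => x (Sum.inl f)) ∈ T}) :
    Kill3 h l (F ⊕ R) {x | (fun f => x (Sum.inl f)) ∈ T ∨ red (fun f => x (Sum.inl f)) ∈ C} := by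
  classical
  induction C using Finset.induction_on with
  | empty => simpa using k
  | insert p C hp ih =>
    have h1 := ih fun q hq => hC q (Finset.mem_insert_of_mem hq)
    have h2 := hC p (Finset.mem_insert_self p C) F R hF hR
      {y | y ∈ T ∨ red y ∈ C} h1
    refine mono h2 ?_
    intro x hx
    simp only [Set.mem_ofPred_eq, Finset.mem_insert] at hx ⊢
    tauto

open Classical in
/-- The refutable values at level `L`, as a finite set. -/
noncomputable def CW (h l L : ℕ) : Finset ℕ :=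
  (Finset.range (2 * h + 2)).filter fun p => W3 h l L p

theorem mem_CW {h l L p : ℕ} : p ∈ CW h l L ↔ p < 2 * h + 2 ∧ W3 h l L p := by
  simp [CW]

theorem seq' {h l L : ℕ} (F R : Type) [Finite F]
    [Finite R] (hF : Nat.card F = L) (hR : Nat.card F + Nat.card R = 2 * h + 1)
    (T : Set (F → Bool)) (k : Kill3 h l (F ⊕ R) {x | (fun f => x (Sum.inl f)) ∈ T}) :
    Kill3 h l (F ⊕ R) {x | (fun f => x (Sum.inl f)) ∈ T ∨
      W3 h l L (red (fun f => x (Sum.inl f)))} := by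
  refine mono (seq (CW h l L) (fun p hp => (mem_CW.mp hp).2) F R hF hR T k) ?_
  intro x hx
  rcases hx with hx | hx
  · exact Or.inl hx
  · refine Or.inr (mem_CW.mpr ⟨?_, hx⟩)
    have := red_le (fun f => x (Sum.inl f))
    omega

def eP (F X J X' F' : Type) : (F ⊕ X) ⊕ (J ⊕ (X' ⊕ F')) ≃ J ⊕ ((X ⊕ X') ⊕ (F ⊕ F')) where
  toFun p := match p with
    | Sum.inl (Sum.inl f) => Sum.inr (Sum.inr (Sum.inl f))
    | Sum.inl (Sum.inr x) => Sum.inr (Sum.inl (Sum.inl x))
    | Sum.inr (Sum.inl j) => Sum.inl j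
    | Sum.inr (Sum.inr (Sum.inl x)) => Sum.inr (Sum.inl (Sum.inr x))
    | Sum.inr (Sum.inr (Sum.inr f)) => Sum.inr (Sum.inr (Sum.inr f))
  invFun p := match p with
    | Sum.inr (Sum.inr (Sum.inl f)) => Sum.inl (Sum.inl f)
    | Sum.inr (Sum.inl (Sum.inl x)) => Sum.inl (Sum.inr x)
    | Sum.inl j => Sum.inr (Sum.inl j)
    | Sum.inr (Sum.inl (Sum.inr x)) => Sum.inr (Sum.inr (Sum.inl x))
    | Sum.inr (Sum.inr (Sum.inr f)) => Sum.inr (Sum.inr (Sum.inr f))
  left_inv := by rintro ((f | x) | (j | (x | f))) <;> rfl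
  right_inv := by rintro (j | ((x | x) | (f | f))) <;> rfl

def eQ (X Y X' Y' N : Type) : (X ⊕ Y) ⊕ (X' ⊕ (Y' ⊕ N)) ≃ (X ⊕ X') ⊕ ((Y ⊕ Y') ⊕ N) where
  toFun p := match p with
    | Sum.inl (Sum.inl x) => Sum.inl (Sum.inl x)
    | Sum.inl (Sum.inr y) => Sum.inr (Sum.inl (Sum.inl y))
    | Sum.inr (Sum.inl x) => Sum.inl (Sum.inr x)
    | Sum.inr (Sum.inr (Sum.inl y)) => Sum.inr (Sum.inl (Sum.inr y))
    | Sum.inr (Sum.inr (Sum.inr n)) => Sum.inr (Sum.inr n)
  invFun p := match p with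
    | Sum.inl (Sum.inl x) => Sum.inl (Sum.inl x)
    | Sum.inr (Sum.inl (Sum.inl y)) => Sum.inl (Sum.inr y)
    | Sum.inl (Sum.inr x) => Sum.inr (Sum.inl x)
    | Sum.inr (Sum.inl (Sum.inr y)) => Sum.inr (Sum.inr (Sum.inl y))
    | Sum.inr (Sum.inr n) => Sum.inr (Sum.inr (Sum.inr n))
  left_inv := by rintro ((x | y) | (x | (y | n))) <;> rfl
  right_inv := by rintro ((x | x) | ((y | y) | n)) <;> rfl

theorem nodeP {h m : ℕ} (hh : 1 ≤ h) (F X Y R2 R3 : Type) [Finite F] [Finite X] [Finite Y]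
    [Finite R2] [Finite R3] (hL : Nat.card F ≤ h) (hi : Nat.card X ≤ h) (hj : Nat.card Y ≤ h)
    (hLi : Nat.card F + Nat.card X ≤ h + 1) (T : Set (F → Bool)) (V2 V3 : ℕ → Prop) (q : ℕ)
    (hq : q = max (Nat.card X) 1) (r2 : Nat.card X + Nat.card Y + Nat.card R2 = 2 * h + 1)
    (r3 : Nat.card F + Nat.card Y + Nat.card R3 = 2 * h + 1)
    (k2 : Kill3 h (2 * m) ((X ⊕ Y) ⊕ R2) {x | V2 (red (fun g => x (Sum.inl g)))})
    (k3 : Kill3 h (2 * m) ((F ⊕ Y) ⊕ R3) {x | (fun f => x (Sum.inl (Sum.inl f))) ∈ T ∨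
      V3 (red (fun g => x (Sum.inl g)))}) :
    Kill3 h (2 * m) ((F ⊕ X) ⊕ (Fin h ⊕ (Fin (q - Nat.card X) ⊕ Fin (h + 1 - q - Nat.card F))))
      {x | (fun f => x (Sum.inl (Sum.inl f))) ∈ T ∨
        (∀ b, b ≤ Nat.card Y → V3 (red (fun f => x (Sum.inl (Sum.inl f))) + b) ∨
          V2 (red (fun g => x (Sum.inl (Sum.inr g))) + b)) ∨
        (red (fun s => x (Sum.inl s)) + red (fun s => x (Sum.inr (Sum.inr s))) ≠ m ∧
          red (fun s => x (Sum.inl s)) + red (fun s => x (Sum.inr (Sum.inr s))) ≠ m + 1)} := by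
  have k2' : Kill3 h (2 * m) ((X ⊕ Y) ⊕ (Fin (q - Nat.card X) ⊕ (Fin (h - Nat.card Y) ⊕
      Fin (h + 1 - q)))) {x | V2 (red (fun g => x (Sum.inl g)))} :=
    rest (T := {w | V2 (red w)}) (by
      rw [Nat.card_sum, Nat.card_sum, Nat.card_fin, Nat.card_fin, Nat.card_fin]
      omega) k2
  have k3' : Kill3 h (2 * m) ((F ⊕ Y) ⊕ (Fin (h + 1 - q - Nat.card F) ⊕ (Fin (h - Nat.card Y) ⊕
      Fin q))) {x | (fun f => x (Sum.inl (Sum.inl f))) ∈ T ∨ V3 (red (fun g => x (Sum.inl g)))} :=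
    rest (T := {w | (fun f => w (Sum.inl f)) ∈ T ∨ V3 (red w)}) (by
      rw [Nat.card_sum, Nat.card_sum, Nat.card_fin, Nat.card_fin, Nat.card_fin]
      omega) k3
  have k2'' := trans k2' (eQ X Y (Fin (q - Nat.card X)) (Fin (h - Nat.card Y)) (Fin (h + 1 - q)))
  have k3'' := trans k3' (eQ F Y (Fin (h + 1 - q - Nat.card F)) (Fin (h - Nat.card Y)) (Fin q))
  have k1 : Kill3 h (2 * m) (Fin h ⊕ (Fin q ⊕ Fin (h + 1 - q)))
      {y | red y ≠ 2 * m ∧ red y ≠ 2 * m + 1} := Kill3.leaf _ _ fun x hx => hx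
  refine Kill3.node _ (Fin h) (X ⊕ Fin (q - Nat.card X)) (F ⊕ Fin (h + 1 - q - Nat.card F))
    (Y ⊕ Fin (h - Nat.card Y)) (Fin q) (Fin (h + 1 - q)) q ?_ ?_ ?_ ?_ ?_ ?_ ?_ ?_
    (eP F X (Fin h) (Fin (q - Nat.card X)) (Fin (h + 1 - q - Nat.card F))) _ _ _ _ k1 k2'' k3'' ?_
  · omega
  · omega
  · exact Nat.card_fin h
  · rw [Nat.card_sum, Nat.card_fin]; omega
  · rw [Nat.card_sum, Nat.card_fin]; omega
  · rw [Nat.card_sum, Nat.card_fin]; omega
  · exact Nat.card_fin q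
  · exact Nat.card_fin _
  · intro x hx
    by_cases hb : red x ≠ 2 * m ∧ red x ≠ 2 * m + 1
    · exact Or.inl hb
    right
    intro n1 n2 n3
    rcases hx with hx | hx | hx
    · right; right; left
      exact Or.inl hx
    · have hb : red (fun b : Y => n1 (Sum.inl b)) ≤ Nat.card Y := red_le _
      rcases hx _ hb with h1 | h1
      · right; right; left
        refine Or.inr ?_
        have e2 : ∀ y : F ⊕ Y → Bool, red y = red (fun f => y (Sum.inl f)) +
            red (fun f => y (Sum.inr f)) := fun y => red_sum y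
        exact Eq.mpr (congrArg V3 (e2 _)) h1
      · right; left
        have e2 : ∀ y : X ⊕ Y → Bool, red y = red (fun f => y (Sum.inl f)) +
            red (fun f => y (Sum.inr f)) := fun y => red_sum y
        exact Eq.mpr (congrArg V2 (e2 _)) h1
    · by_contra hcon
      push Not at hcon
      obtain ⟨g1, -, -, g4, g5⟩ := hcon
      have E1 : red x = (red (fun s => x (Sum.inl s)) + red (fun s => x (Sum.inr (Sum.inr s)))) +
          red (fun j => x (Sum.inr (Sum.inl j))) := by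
        rw [red_sum x, red_sum (fun s => x (Sum.inr s))]
        omega
      have E2 : ∀ y : Fin h ⊕ (Fin q ⊕ Fin (h + 1 - q)) → Bool, red y =
          red (fun j => y (Sum.inl j)) + (red (fun j => y (Sum.inr (Sum.inl j))) +
            red (fun j => y (Sum.inr (Sum.inr j)))) := by
        intro y
        rw [red_sum y, red_sum (fun s => y (Sum.inr s))]
      have E3 : ¬ (red (fun j => x (Sum.inr (Sum.inl j))) + (red n2 + red n3) ≠ 2 * m ∧
          red (fun j => x (Sum.inr (Sum.inl j))) + (red n2 + red n3) ≠ 2 * m + 1) := by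
        intro hh
        exact g1 ⟨fun hq => hh.1 ((E2 _).symm.trans hq), fun hq => hh.2 ((E2 _).symm.trans hq)⟩
      have E4 : ∀ y : (X ⊕ Fin (q - Nat.card X)) ⊕ (F ⊕ Fin (h + 1 - q - Nat.card F)) → Bool,
          red y = (red (fun j => y (Sum.inl (Sum.inl j))) + red (fun j => y (Sum.inl (Sum.inr j)))) +
            (red (fun j => y (Sum.inr (Sum.inl j))) + red (fun j => y (Sum.inr (Sum.inr j)))) := by
        intro y
        rw [red_sum y, red_sum (fun s => y (Sum.inl s)), red_sum (fun s => y (Sum.inr s))]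
      have E5 : red (fun s => x (Sum.inl s)) + red (fun s => x (Sum.inr (Sum.inr s))) =
          (red (fun j => x (Sum.inl (Sum.inr j))) + red (fun j => x (Sum.inr (Sum.inr (Sum.inl j))))) +
          (red (fun j => x (Sum.inl (Sum.inl j))) + red (fun j => x (Sum.inr (Sum.inr (Sum.inr j))))) := by
        rw [red_sum (fun s => x (Sum.inl s)), red_sum (fun s => x (Sum.inr (Sum.inr s)))]
        omega
      have E6 := E4 (fun j => x ((eP F X (Fin h) (Fin (q - Nat.card X))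
        (Fin (h + 1 - q - Nat.card F))).symm (Sum.inr j)))
      have E7 : red (fun j => x ((eP F X (Fin h) (Fin (q - Nat.card X))
        (Fin (h + 1 - q - Nat.card F))).symm (Sum.inr j))) =
          red (fun s => x (Sum.inl s)) + red (fun s => x (Sum.inr (Sum.inr s))) := by
        rw [E5]
        exact E6
      rw [E7] at g4 g5
      omega

end Pool.Agent.Lib.MP_21a058_co.Odd.EE
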